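import Pool.Agent.TH733.GSH.S3c

/-! Groups with a solvable normal subgroup whose quotient acts faithfully on three points. -/

set_option autoImplicit false
set_option linter.unusedSectionVars false
set_option linter.style.haveILetI false

namespace Pool.Agent.TH733.GSH.S3

open Pool.Agent.H936R2.SH Pool.Agent.TH733.GSH
open Pool.Agent.H815R3.GSH hiding dW
open scoped commutatorElement

section sgn

variable {α : Type} (g : α → Equiv.Perm (Fin 3))

/-- the sign of a letter -/
noncomputable def sg (a : α) : ℤ := if Equiv.Perm.sign (g a) = 1 then 0 else 1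

theorem sign_prod (w : List α) : Equiv.Perm.sign ((w.map g).prod) =
    if ((lv (sg g) w : ℤ) : ZMod 2) = 0 then 1 else -1 := by
  induction w with
  | nil => simp [lv_nil]
  | cons a w ih =>
    rw [List.map_cons, List.prod_cons, map_mul, ih, lv_cons]
    push_cast
    generalize ((lv (sg g) w : ℤ) : ZMod 2) = r
    rcases Int.units_eq_one_or (Equiv.Perm.sign (g a)) with h | h
    · have h1 : sg g a = 0 := by unfold sg; rw [if_pos h]
      rw [h, h1]; simp
    · have h1 : sg g a = 1 := by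
        unfold sg
        rw [if_neg]
        rw [h]; decide
      rw [h, h1]
      push_cast
      revert r
      decide

theorem Ct_sgn [Finite α] (s : ℤˣ) (y : α) : Ct (Sy (fun u : List α =>
    if Equiv.Perm.sign ((u.map g).prod) = s then (0 : ℤ) else 1) y) := by
  have h := Ct_walk (sg g) (fun a => by
    unfold sg
    split_ifs
    · right; left; rfl
    · left; rfl) y 2 (fun r => if (if r = 0 then (1 : ℤˣ) else -1) = s then (0 : ℤ) else 1)
  refine Ct.congr h fun w => ?_
  apply Sy_congr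
  intro u
  simp only [sign_prod]

end sgn

section group

variable {G : Type} [Group G] [Finite G] (N : Subgroup G) [N.Normal] {α : Type} [Finite α]
  (f : α → G)

theorem main_K (hN : ∀ x ∈ N, ∀ y ∈ N, x * y = y * x)
    (hK : ∀ (h : G ⧸ N) (a : α), Ct (K N f h a))
    (hQ : ∀ h : G ⧸ N, HS 1 {w : List α | (((w.map f).prod : G) : G ⧸ N) = h}) (S : Set G) :
    HS 1 {w : List α | (w.map f).prod ∈ S} := by
  classical
  obtain ⟨m, hm⟩ : ∃ m, Nat.card N = m := ⟨_, rfl⟩
  have hm0 : 0 < m := by rw [← hm]; exact Nat.card_pos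
  have : NeZero m := ⟨hm0.ne'⟩
  have := Fintype.ofFinite ((G ⧸ N) × α)
  have hD : ∀ (d1 : (G ⧸ N) × α → ZMod m) (d2 : G ⧸ N), HS 1 (Dat N f m d1 d2) := by
    intro d1 d2
    exact (HS.iInter _ (fun x : (G ⧸ N) × α => hK x.1 x.2 m hm0 (d1 x))).inter (hQ d2)
  have h3 : HS 1 (⋃ d : ((G ⧸ N) × α → ZMod m) × (G ⧸ N),
      {w : List α | Phi N f hN m d.1 d.2 ∈ S ∧ w ∈ Dat N f m d.1 d.2}) :=
    HS.iUnion _ fun d => HS.cond _ fun _ => hD d.1 d.2
  have h4 : {w : List α | (w.map f).prod ∈ S} = (⋃ d : ((G ⧸ N) × α → ZMod m) × (G ⧸ N),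
      {w : List α | Phi N f hN m d.1 d.2 ∈ S ∧ w ∈ Dat N f m d.1 d.2}) := by
    ext w
    constructor
    · intro hw
      refine Set.mem_iUnion.2 ⟨(fun x => ((K N f x.1 x.2 w : ℤ) : ZMod m),
        (((w.map f).prod : G) : G ⧸ N)), ?_, Set.mem_iInter.2 fun x => rfl, rfl⟩
      rw [← Phi_eq N f hN m hm _ _ w (fun _ => rfl) rfl]; exact hw
    · intro hw
      obtain ⟨d, hS, h2, h3⟩ := Set.mem_iUnion.1 hw
      rw [Set.mem_iInter] at h2
      change (w.map f).prod ∈ S
      rw [Phi_eq N f hN m hm d.1 d.2 w h2 h3]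
      exact hS
  rw [h4]
  exact h3

variable (ψ : G ⧸ N →* Equiv.Perm (Fin 3))

theorem prod_psi (w : List α) : ((w.map fun a => ψ ((f a : G) : G ⧸ N)).prod) =
    ψ (((w.map f).prod : G) : G ⧸ N) := by
  induction w with
  | nil => simp
  | cons a w ih => rw [List.map_cons, List.prod_cons, ih, List.map_cons, List.prod_cons,
      QuotientGroup.mk_mul, map_mul]

open Classical in
theorem K_formula (hψ : Function.Injective ψ) (h : G ⧸ N) (y : α) (w : List α) :
    (3 : ℤ) * K N f h y w =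
      T (fun a => ψ ((f a : G) : G ⧸ N)) (ψ h 0) 0 y w +
      T (fun a => ψ ((f a : G) : G ⧸ N)) (ψ h 1) 1 y w +
      T (fun a => ψ ((f a : G) : G ⧸ N)) (ψ h 2) 2 y w -
      Sy (fun u : List α => if Equiv.Perm.sign ((u.map fun a => ψ ((f a : G) : G ⧸ N)).prod) =
        Equiv.Perm.sign (ψ h) then (0 : ℤ) else 1) y w := by
  induction w using List.reverseRecOn with
  | nil => rw [K_nil, Sy_nil]; unfold T; simp [tc]
  | append_singleton w c ih =>
    rw [K_snoc, mul_add, ih, Sy_snoc]
    unfold T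
    rw [tc_snoc, tc_snoc, tc_snoc, dS_run, dS_run, dS_run]
    by_cases hc : c = y
    · subst hc
      have key := deco ((w.map fun a => ψ ((f a : G) : G ⧸ N)).prod) (ψ h)
      rw [Fin.sum_univ_three] at key
      have e1 : (if c = c ∧ (((w.map f).prod : G) : G ⧸ N) = h then (1 : ℤ) else 0) =
          if (w.map fun a => ψ ((f a : G) : G ⧸ N)).prod = ψ h then 1 else 0 := by
        apply if_congr _ rfl rfl
        rw [prod_psi]
        exact ⟨fun h1 => congrArg ψ h1.2, fun h1 => ⟨rfl, hψ h1⟩⟩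
      have e2 : ∀ i : Fin 3, iv ((((w.map fun a => ψ ((f a : G) : G ⧸ N)).prod)⁻¹ (ψ h i)) = i ∧
          c = c) = if (((w.map fun a => ψ ((f a : G) : G ⧸ N)).prod)⁻¹ (ψ h i)) = i
            then (1 : ℤ) else 0 := by
        intro i
        by_cases h1 : (((w.map fun a => ψ ((f a : G) : G ⧸ N)).prod)⁻¹ (ψ h i)) = i
        · rw [iv_pos ⟨h1, rfl⟩, if_pos h1]
        · rw [iv_neg (fun h => h1 h.1), if_neg h1]
      rw [e1, e2, e2, e2, if_pos rfl, key]
      ring
    · rw [if_neg (fun h => hc h.1), if_neg hc, iv_neg (fun h => hc h.2), iv_neg (fun h => hc h.2),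
        iv_neg (fun h => hc h.2)]
      ring

theorem main_S3 (hN : ∀ x ∈ N, ∀ y ∈ N, x * y = y * x) (hψ : Function.Injective ψ)
    (hA : Adm fun a => ψ ((f a : G) : G ⧸ N)) (S : Set G) :
    HS 1 {w : List α | (w.map f).prod ∈ S} := by
  refine main_K N f hN ?_ ?_ S
  · intro h y
    refine Ct.div 3 (by norm_num) ?_
    refine Ct.congr ((((Ct_T _ hA (ψ h 0) 0 y).add (Ct_T _ hA (ψ h 1) 1 y)).add
      (Ct_T _ hA (ψ h 2) 2 y)).sub (Ct_sgn (fun a => ψ ((f a : G) : G ⧸ N))
        (Equiv.Perm.sign (ψ h)) y)) ?_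
    intro w
    have := K_formula N f ψ hψ h y w
    push_cast
    rw [this]
  · intro h
    have h1 : HS 1 (⋂ i : Fin 3, {w : List α |
        w.foldl (dS fun a => ψ ((f a : G) : G ⧸ N)) i = (ψ h)⁻¹ i}) :=
      HS.iInter _ fun i => HS_T _ hA i _
    convert h1 using 1
    ext w
    rw [Set.mem_ofPred_eq, Set.mem_iInter]
    simp only [Set.mem_ofPred_eq, dS_run, prod_psi]
    constructor
    · intro h2 i
      rw [h2]
    · intro h2
      apply hψ
      apply inv_injective
      exact Equiv.ext h2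

end group

theorem solv_S3 {α : Type} [Finite α] (j : ℕ) :
    ∀ (G : Type) [Group G] [Finite G] (N : Subgroup G) [N.Normal],
    derivedSeries N (j + 1) = ⊥ → ∀ (f : α → G) (ψ : G ⧸ N →* Equiv.Perm (Fin 3)),
    Function.Injective ψ → Adm (fun a => ψ ((f a : G) : G ⧸ N)) →
    ∀ (S : Set G), HS (j + 1) {w : List α | (w.map f).prod ∈ S} := by
  induction j with
  | zero =>
    intro G _ _ N _ hd f ψ hψ hA S
    refine main_S3 N f ψ ?_ hψ hA S
    intro x hx y hy
    have h1 : ⁅(⟨x, hx⟩ : N), (⟨y, hy⟩ : N)⁆ ∈ derivedSeries N 1 :=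
      Subgroup.commutator_mem_commutator (Subgroup.mem_top _) (Subgroup.mem_top _)
    have hd' : derivedSeries N 1 = ⊥ := hd
    rw [hd'] at h1
    have h2 := commutatorElement_eq_one_iff_mul_comm.1 (Subgroup.mem_bot.1 h1)
    exact congrArg Subtype.val h2
  | succ j ih =>
    intro G _ _ N _ hd f ψ hψ hA S
    obtain ⟨D, hD⟩ : ∃ D : Subgroup G, D = (derivedSeries N (j + 1)).map N.subtype := ⟨_, rfl⟩
    have hDn : D.Normal := by rw [hD]; exact ConjAct.normal_of_characteristic_of_normal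
    have hDa : ∀ x ∈ D, ∀ y ∈ D, x * y = y * x := by
      rw [hD]
      rintro _ ⟨x, hx, rfl⟩ _ ⟨y, hy, rfl⟩
      have h1 : ⁅x, y⁆ ∈ derivedSeries N (j + 1 + 1) :=
        Subgroup.commutator_mem_commutator hx hy
      rw [hd] at h1
      have h2 := commutatorElement_eq_one_iff_mul_comm.1 (Subgroup.mem_bot.1 h1)
      exact congrArg Subtype.val h2
    have hDN : D ≤ N := by
      rw [hD]
      rintro _ ⟨x, _, rfl⟩
      exact x.2
    apply step D f hDa
    intro x
    have hN'n : (N.map (QuotientGroup.mk' D)).Normal :=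
      Subgroup.Normal.map inferInstance _ (QuotientGroup.mk'_surjective D)
    have hd' : derivedSeries (N.map (QuotientGroup.mk' D)) (j + 1) = ⊥ := by
      have hs := (QuotientGroup.mk' D).subgroupMap_surjective N
      rw [← map_derivedSeries_eq hs (j + 1), Subgroup.map_eq_bot_iff]
      intro y hy
      rw [MonoidHom.mem_ker]
      apply Subtype.ext
      change ((y : G) : G ⧸ D) = 1
      rw [QuotientGroup.eq_one_iff, hD]
      exact ⟨y, hy, rfl⟩
    refine ih (G ⧸ D) (N.map (QuotientGroup.mk' D)) hd' (fun b => ((f b : G) : G ⧸ D))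
      (ψ.comp (QuotientGroup.quotientQuotientEquivQuotient D N hDN).toMonoidHom) ?_ ?_ {x}
    · exact hψ.comp (QuotientGroup.quotientQuotientEquivQuotient D N hDN).injective
    · exact hA

end Pool.Agent.TH733.GSH.S3
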