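import Pool.Agent.TH733.GSH.WalkT
import Pool.Agent.H815R3.GSH.Solv

/-! Groups with an abelian normal subgroup `N` and letters in `N`, `t N`, `t⁻¹ N`. -/

set_option autoImplicit false
set_option linter.unusedSectionVars false
set_option linter.style.haveILetI false

namespace Pool.Agent.TH733.GSH

open Pool.Agent.H936R2.SH Pool.Agent.H815R3.GSH
open scoped commutatorElement

section

variable {G : Type} [Group G] [Finite G] (N : Subgroup G) [N.Normal] {α : Type} [Finite α]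
  (f : α → G)

theorem prod_level {τ : G ⧸ N} {σ : α → ℤ} (hσ : ∀ a, ((f a : G) : G ⧸ N) = τ ^ σ a)
    (u : List α) : (((u.map f).prod : G) : G ⧸ N) = τ ^ lv σ u := by
  induction u with
  | nil => simp [lv_nil]
  | cons a u ih =>
    rw [List.map_cons, List.prod_cons, QuotientGroup.mk_mul, ih, hσ, lv_cons, zpow_add]

open Classical in
theorem K_eq_Sy {τ : G ⧸ N} {σ : α → ℤ} (hσ : ∀ a, ((f a : G) : G ⧸ N) = τ ^ σ a)
    (M : ℕ) [NeZero M] (hM : orderOf τ = M) (h : G ⧸ N) (a : α) (w : List α) :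
    Sy (fun u => (fun r : ZMod M => if τ ^ r.val = h then (1 : ℤ) else 0)
      ((lv σ u : ℤ) : ZMod M)) a w = K N f h a w := by
  induction w using List.reverseRecOn with
  | nil => rw [Sy_nil, K_nil]
  | append_singleton w c ih =>
    rw [Sy_snoc, K_snoc, ih]
    congr 1
    have h1 : τ ^ (((lv σ w : ℤ) : ZMod M)).val = (((w.map f).prod : G) : G ⧸ N) := by
      rw [prod_level N f hσ w, ← zpow_natCast, ZMod.val_intCast, ← hM, zpow_mod_orderOf]
    by_cases hc : c = a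
    · simp only [hc, if_true, true_and]
      rw [h1]
    · simp only [hc, if_false, false_and]

theorem main_cyc (hN : ∀ x ∈ N, ∀ y ∈ N, x * y = y * x) (τ : G ⧸ N)
    (hτ : ∀ a, ((f a : G) : G ⧸ N) = 1 ∨ ((f a : G) : G ⧸ N) = τ ∨
      ((f a : G) : G ⧸ N) = τ⁻¹) (S : Set G) :
    HS 1 {w : List α | (w.map f).prod ∈ S} := by
  classical
  have h1 : ∀ a, ∃ s : ℤ, (s = 1 ∨ s = 0 ∨ s = -1) ∧ ((f a : G) : G ⧸ N) = τ ^ s := by
    intro a
    rcases hτ a with h | h | h
    · exact ⟨0, by norm_num, by rw [h]; simp⟩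
    · exact ⟨1, by norm_num, by rw [h]; simp⟩
    · exact ⟨-1, by norm_num, by rw [h]; simp⟩
  choose σ hs hσ using h1
  obtain ⟨M, hM⟩ : ∃ M, orderOf τ = M := ⟨_, rfl⟩
  have hM0 : 0 < M := by rw [← hM]; exact orderOf_pos τ
  have : NeZero M := ⟨hM0.ne'⟩
  obtain ⟨m, hm⟩ : ∃ m, Nat.card N = m := ⟨_, rfl⟩
  have hm0 : 0 < m := by rw [← hm]; exact Nat.card_pos
  have : NeZero m := ⟨hm0.ne'⟩
  have := Fintype.ofFinite ((G ⧸ N) × α)
  have hK : ∀ (h : G ⧸ N) (a : α), Ct (K N f h a) := fun h a =>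
    (Ct_walk σ hs a M (fun r => if τ ^ r.val = h then (1 : ℤ) else 0)).congr
      (fun w => K_eq_Sy N f hσ M hM h a w)
  have hQ : ∀ h : G ⧸ N, HS 1 {w : List α | (((w.map f).prod : G) : G ⧸ N) = h} := by
    intro h
    have h2 := HS_mem σ M hs (0, fun _ => none) {y | τ ^ y.1.val = h}
    convert h2 using 1
    ext w
    rw [Set.mem_ofPred_eq, Set.mem_ofPred_eq, Set.mem_ofPred_eq, run_fst, prod_level N f hσ w]
    simp only [zero_add]
    rw [← zpow_natCast, ZMod.val_intCast, ← hM, zpow_mod_orderOf]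
  have hD : ∀ (d1 : (G ⧸ N) × α → ZMod m) (d2 : G ⧸ N), HS 1 (Dat N f m d1 d2) := by
    intro d1 d2
    exact (HS.iInter _ (fun x : (G ⧸ N) × α => hK x.1 x.2 m hm0 (d1 x))).inter (hQ d2)
  have h3 : HS 1 (⋃ d : ((G ⧸ N) × α → ZMod m) × (G ⧸ N),
      {w : List α | Phi N f hN m d.1 d.2 ∈ S ∧ w ∈ Dat N f m d.1 d.2}) :=
    HS.iUnion _ fun d => HS.cond _ fun _ => hD d.1 d.2
  have h4 : {w : List α | (w.map f).prod ∈ S} = (⋃ d : ((G ⧸ N) × α → ZMod m) × (G ⧸ N),
      {w : List α | Phi N f hN m d.1 d.2 ∈ S ∧ w ∈ Dat N f m d.1 d.2}) := by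
    ext w
    constructor
    · intro hw
      refine Set.mem_iUnion.2 ⟨(fun x => ((K N f x.1 x.2 w : ℤ) : ZMod m),
        (((w.map f).prod : G) : G ⧸ N)), ?_, Set.mem_iInter.2 fun x => rfl, rfl⟩
      rw [← Phi_eq N f hN m hm _ _ w (fun _ => rfl) rfl]; exact hw
    · intro hw
      obtain ⟨d, hS, h2, h3⟩ := Set.mem_iUnion.1 hw
      rw [Set.mem_iInter] at h2
      change (w.map f).prod ∈ S
      rw [Phi_eq N f hN m hm d.1 d.2 w h2 h3]
      exact hS
  rw [h4]
  exact h3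

end

theorem solv_cyc {α : Type} [Finite α] (j : ℕ) :
    ∀ (G : Type) [Group G] [Finite G] (N : Subgroup G) [N.Normal],
    derivedSeries N (j + 1) = ⊥ → ∀ (f : α → G) (τ : G ⧸ N),
    (∀ a, ((f a : G) : G ⧸ N) = 1 ∨ ((f a : G) : G ⧸ N) = τ ∨ ((f a : G) : G ⧸ N) = τ⁻¹) →
    ∀ (S : Set G), HS (j + 1) {w : List α | (w.map f).prod ∈ S} := by
  induction j with
  | zero =>
    intro G _ _ N _ hd f τ hτ S
    refine main_cyc N f ?_ τ hτ S
    intro x hx y hy
    have h1 : ⁅(⟨x, hx⟩ : N), (⟨y, hy⟩ : N)⁆ ∈ derivedSeries N 1 :=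
      Subgroup.commutator_mem_commutator (Subgroup.mem_top _) (Subgroup.mem_top _)
    have hd' : derivedSeries N 1 = ⊥ := hd
    rw [hd'] at h1
    have h2 := commutatorElement_eq_one_iff_mul_comm.1 (Subgroup.mem_bot.1 h1)
    exact congrArg Subtype.val h2
  | succ j ih =>
    intro G _ _ N _ hd f τ hτ S
    set D : Subgroup G := (derivedSeries N (j + 1)).map N.subtype with hD
    have hDn : D.Normal := ConjAct.normal_of_characteristic_of_normal
    have hDa : ∀ x ∈ D, ∀ y ∈ D, x * y = y * x := by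
      rintro _ ⟨x, hx, rfl⟩ _ ⟨y, hy, rfl⟩
      have h1 : ⁅x, y⁆ ∈ derivedSeries N (j + 1 + 1) :=
        Subgroup.commutator_mem_commutator hx hy
      rw [hd] at h1
      have h2 := commutatorElement_eq_one_iff_mul_comm.1 (Subgroup.mem_bot.1 h1)
      exact congrArg Subtype.val h2
    apply step D f hDa
    intro x
    set N' : Subgroup (G ⧸ D) := N.map (QuotientGroup.mk' D) with hN'
    have hN'n : N'.Normal := Subgroup.Normal.map inferInstance _ (QuotientGroup.mk'_surjective D)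
    have hmem : ∀ g : G, g ∈ N → ((g : G) : G ⧸ D) ∈ N' := fun g hg => ⟨g, hg, rfl⟩
    have hd' : derivedSeries N' (j + 1) = ⊥ := by
      have hs := (QuotientGroup.mk' D).subgroupMap_surjective N
      rw [← map_derivedSeries_eq hs (j + 1), Subgroup.map_eq_bot_iff]
      intro y hy
      rw [MonoidHom.mem_ker]
      apply Subtype.ext
      change ((y : G) : G ⧸ D) = 1
      rw [QuotientGroup.eq_one_iff]
      exact ⟨y, hy, rfl⟩
    obtain ⟨t, rfl⟩ := QuotientGroup.mk'_surjective N τ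
    refine ih (G ⧸ D) N' hd' (fun b => ((f b : G) : G ⧸ D)) (((t : G) : G ⧸ D) : (G ⧸ D) ⧸ N')
      ?_ {x}
    intro a
    have tr : ∀ g h : G, ((g : G) : G ⧸ N) = ((h : G) : G ⧸ N) →
        ((((g : G) : G ⧸ D)) : (G ⧸ D) ⧸ N') = ((((h : G) : G ⧸ D)) : (G ⧸ D) ⧸ N') := by
      intro g h hgh
      rw [QuotientGroup.eq] at hgh ⊢
      exact hmem _ hgh
    rcases hτ a with h | h | h
    · left
      exact tr (f a) 1 h
    · right; left
      exact tr (f a) t h
    · right; right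
      exact tr (f a) t⁻¹ h

end Pool.Agent.TH733.GSH
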