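import Pool.Agent.TH733.GSH.Met

/-! Groups with a solvable normal subgroup whose quotient is metabelian and nilpotent of class at
most four. -/

set_option autoImplicit false
set_option linter.unusedSectionVars false
set_option linter.style.haveILetI false

namespace Pool.Agent.TH733.GSH

open Pool.Agent.H936R2.SH Pool.Agent.H815R3.GSH
open scoped commutatorElement

theorem solv4 {α : Type} [Finite α] (j : ℕ) :
    ∀ (G : Type) [Group G] [Finite G] (D : Subgroup G) [D.Normal],
    derivedSeries D j = ⊥ → derivedSeries G 2 ≤ D →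
    (⊤ : Subgroup G).lowerCentralSeries 4 ≤ D →
    ∀ (f : α → G) (S : Set G), HS (j + 1) {w : List α | (w.map f).prod ∈ S} := by
  induction j with
  | zero =>
    intro G _ _ D _ hd h2 h4 f S
    have hD : D = ⊥ := by
      rw [eq_bot_iff]
      intro x hx
      have h1 : (⟨x, hx⟩ : D) ∈ derivedSeries D 0 := Subgroup.mem_top _
      rw [hd] at h1
      have h3 := Subgroup.mem_bot.1 h1
      exact Subgroup.mem_bot.2 (congrArg Subtype.val h3)
    rw [hD, le_bot_iff] at h2 h4
    refine main4 (⁅(⊤ : Subgroup G), ⊤⁆) ?_ ?_ ?_ f S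
    · intro x hx y hy
      have h5 : ⁅x, y⁆ ∈ derivedSeries G 2 := Subgroup.commutator_mem_commutator hx hy
      rw [h2] at h5
      exact commutatorElement_eq_one_iff_mul_comm.1 (Subgroup.mem_bot.1 h5)
    · intro g h
      exact Subgroup.commutator_mem_commutator (Subgroup.mem_top _) (Subgroup.mem_top _)
    · intro n hn a b c
      have h5 : ⁅a, n⁆ ∈ (⊤ : Subgroup G).lowerCentralSeries 2 := by
        have h6 : ⁅a, n⁆ ∈ ⁅(⊤ : Subgroup G), ⁅(⊤ : Subgroup G), ⊤⁆⁆ :=
          Subgroup.commutator_mem_commutator (Subgroup.mem_top _) hn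
        rw [Subgroup.commutator_comm] at h6
        exact h6
      have h6 : ⁅b, ⁅a, n⁆⁆ ∈ (⊤ : Subgroup G).lowerCentralSeries 3 := by
        have h7 : ⁅b, ⁅a, n⁆⁆ ∈ ⁅(⊤ : Subgroup G), (⊤ : Subgroup G).lowerCentralSeries 2⁆ :=
          Subgroup.commutator_mem_commutator (Subgroup.mem_top _) h5
        rw [Subgroup.commutator_comm] at h7
        exact h7
      have h7 : ⁅c, ⁅b, ⁅a, n⁆⁆⁆ ∈ (⊤ : Subgroup G).lowerCentralSeries 4 := by
        have h8 : ⁅c, ⁅b, ⁅a, n⁆⁆⁆ ∈ ⁅(⊤ : Subgroup G), (⊤ : Subgroup G).lowerCentralSeries 3⁆ :=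
          Subgroup.commutator_mem_commutator (Subgroup.mem_top _) h6
        rw [Subgroup.commutator_comm] at h8
        exact h8
      rw [h4] at h7
      exact Subgroup.mem_bot.1 h7
  | succ j ih =>
    intro G _ _ D _ hd h2 h4 f S
    set E : Subgroup G := (derivedSeries D j).map D.subtype with hE
    have hEn : E.Normal := ConjAct.normal_of_characteristic_of_normal
    have hEa : ∀ x ∈ E, ∀ y ∈ E, x * y = y * x := by
      rintro _ ⟨x, hx, rfl⟩ _ ⟨y, hy, rfl⟩
      have h1 : ⁅x, y⁆ ∈ derivedSeries D (j + 1) :=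
        Subgroup.commutator_mem_commutator hx hy
      rw [hd] at h1
      have h2 := commutatorElement_eq_one_iff_mul_comm.1 (Subgroup.mem_bot.1 h1)
      exact congrArg Subtype.val h2
    apply step E f hEa
    intro x
    set D' : Subgroup (G ⧸ E) := D.map (QuotientGroup.mk' E) with hD'
    have hD'n : D'.Normal := Subgroup.Normal.map inferInstance _ (QuotientGroup.mk'_surjective E)
    have hd' : derivedSeries D' j = ⊥ := by
      have hs := (QuotientGroup.mk' E).subgroupMap_surjective D
      rw [← map_derivedSeries_eq hs j, Subgroup.map_eq_bot_iff]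
      intro y hy
      rw [MonoidHom.mem_ker]
      apply Subtype.ext
      change ((y : G) : G ⧸ E) = 1
      rw [QuotientGroup.eq_one_iff]
      exact ⟨y, hy, rfl⟩
    have h2' : derivedSeries (G ⧸ E) 2 ≤ D' := by
      rw [← map_derivedSeries_eq (QuotientGroup.mk'_surjective E) 2]
      exact Subgroup.map_mono h2
    have h4' : (⊤ : Subgroup (G ⧸ E)).lowerCentralSeries 4 ≤ D' := by
      have h5 := Subgroup.map_lowerCentralSeries (S := (⊤ : Subgroup G)) (QuotientGroup.mk' E) 4
      have h6 : (⊤ : Subgroup G).map (QuotientGroup.mk' E) = ⊤ :=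
        Subgroup.map_top_of_surjective _ (QuotientGroup.mk'_surjective E)
      rw [h6] at h5
      rw [← h5]
      exact Subgroup.map_mono h4
    exact ih (G ⧸ E) D' hd' h2' h4' (fun b => ((f b : G) : G ⧸ E)) {x}

end Pool.Agent.TH733.GSH
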