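import Pool.Agent.TH733.GSH.Lap

/-! The number of the arrivals at a level by a letter. -/

set_option autoImplicit false
set_option linter.unusedSectionVars false

namespace Pool.Agent.TH733.GSH

open Pool.Agent.H936R2.SH Pool.Agent.H815R3.GSH

theorem Ct_ind {α : Type} (P : List α → Prop) [DecidablePred P] (h : HS 1 {w | P w}) :
    Ct (fun w => if P w then 1 else 0) := by
  classical
  have := Ct.cases (fun w : List α => decide (P w)) (by
    intro i
    cases i with
    | true =>
      convert h using 1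
      ext w; simp
    | false =>
      convert h.compl using 1
      ext w; simp) (fun i _ => if i = true then 1 else 0) (by
    intro i
    exact Ct.const _)
  refine this.congr fun w => ?_
  by_cases h : P w <;> simp [h]

theorem pc_fib {α ι : Type} (T : Finset ι) (P : List α → Prop) (R : ι → List α → Prop)
    (a : ι → ℤ) (h : ∀ u, (open Classical in if P u then (1 : ℤ) else 0) =
      ∑ i ∈ T, a i * (open Classical in if R i u then (1 : ℤ) else 0)) (w : List α) :
    pc P w = ∑ i ∈ T, a i * pc (R i) w := by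
  classical
  unfold pc
  simp only [Finset.mul_sum]
  rw [Finset.sum_comm]
  apply Finset.sum_congr rfl
  intro i _
  convert h (w.take i) using 1

section walk

variable {α : Type} (σ : α → ℤ) (M : ℕ)

section arr

variable (gd : Mem α M → α → Prop)

/-- good arrivals at the level `0` -/
def Ar (x0 : ZMod M × Mem α M) (u : List α) : Prop :=
  ∃ u' c, u = u' ++ [c] ∧ x0.1 + ((lv σ u : ℤ) : ZMod M) = 0 ∧ gd (u'.foldl (dU σ M) x0).2 c

theorem Ar_nil (x0 : ZMod M × Mem α M) : ¬ Ar σ M gd x0 [] := by
  rintro ⟨u', c, h, _⟩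
  simp at h

theorem Ar_snoc (x0 : ZMod M × Mem α M) (u : List α) (c : α) : Ar σ M gd x0 (u ++ [c]) ↔
    (x0.1 + ((lv σ u + σ c : ℤ) : ZMod M) = 0 ∧ gd (u.foldl (dU σ M) x0).2 c) := by
  constructor
  · rintro ⟨u', c', h1, h2, h3⟩
    have h4 := List.append_inj' h1 rfl
    have h5 : c = c' := by simpa using h4.2
    rw [lv_snoc] at h2
    rw [h4.1, h5]
    rw [h4.1, h5] at h2
    exact ⟨h2, h3⟩
  · rintro ⟨h1, h2⟩
    exact ⟨u, c, rfl, by rw [lv_snoc]; exact h1, h2⟩

theorem bs_iff (x : (ZMod M × Mem α M) × Bool) (c : α) : dV σ M gd x c = bs M ↔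
    (x.1.1 + ((σ c : ℤ) : ZMod M) = 0 ∧ ¬ gd x.1.2 c) := by
  constructor
  · intro h
    have h0 : (dV σ M gd x c).1.1 = 0 := by rw [h]; rfl
    have h1 : x.1.1 + ((σ c : ℤ) : ZMod M) = 0 := by
      rw [← dU_fst]; exact h0
    refine ⟨h1, fun hg => ?_⟩
    have h2 : (dV σ M gd x c).2 = false := by rw [h]; rfl
    have h3 : (dU σ M x.1 c).1 = 0 := h0
    unfold dV at h2
    simp [h3, hg] at h2
  · rintro ⟨h1, h2⟩
    by_contra h3
    exact h2 (arr_good σ M gd x c h3 h1)

variable (hs : ∀ a, σ a = 1 ∨ σ a = 0 ∨ σ a = -1)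

include hs

theorem Ct_vis [Finite α] [NeZero M]
    (H : ∀ (u : List α) (k : ℕ), 0 < k →
      (List.replicate k u).flatten.foldl (dV σ M gd) (zs M) = zs M →
      Nv (dV σ M gd) (bs M) (zs M) (List.replicate k u).flatten → ((lv σ u : ℤ) : ZMod M) = 0)
    (x0 : ZMod M × Mem α M) :
    Ct (pc (fun u => Ar σ M (fun m c => ¬ gd m c) x0 u)) := by
  refine (Ct.vis (CFb_dV σ M gd hs H) (x0, false)).congr fun w => ?_
  apply pc_congr
  intro u
  rcases List.eq_nil_or_concat u with rfl | ⟨v, c, rfl⟩
  · constructor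
    · rintro ⟨h, _⟩; exact absurd rfl h
    · intro h; exact absurd h (Ar_nil _ _ _ _)
  · rw [List.concat_eq_append, Ar_snoc, List.foldl_append, List.foldl_cons, List.foldl_nil, bs_iff,
      runV_fst, run_fst]
    constructor
    · rintro ⟨_, h1, h2⟩
      refine ⟨?_, h2⟩
      push_cast
      rw [← add_assoc]; exact h1
    · rintro ⟨h1, h2⟩
      refine ⟨by simp, ?_, h2⟩
      push_cast at h1
      rw [← add_assoc] at h1; exact h1

theorem Ct_Ar [Finite α] [NeZero M]
    (H : ∀ (u : List α) (k : ℕ), 0 < k →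
      (List.replicate k u).flatten.foldl (dV σ M gd) (zs M) = zs M →
      Nv (dV σ M gd) (bs M) (zs M) (List.replicate k u).flatten → ((lv σ u : ℤ) : ZMod M) = 0)
    (x0 : ZMod M × Mem α M) : Ct (pc (fun u => Ar σ M gd x0 u)) := by
  have h1 := Ct_vis σ M (fun _ _ => False) hs
    (H_R0 σ M (fun _ _ => False) hs (fun _ _ _ _ h => h)) x0
  have h2 := Ct_vis σ M gd hs H x0
  refine (h1.sub h2).congr fun w => ?_
  rw [pc_split (fun u => Ar σ M (fun _ _ => ¬ False) x0 u) (fun u => Ar σ M gd x0 u)]
  have e1 : pc (fun u => Ar σ M (fun _ _ => ¬ False) x0 u ∧ Ar σ M gd x0 u) w =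
      pc (fun u => Ar σ M gd x0 u) w := by
    apply pc_congr
    intro u
    constructor
    · rintro ⟨_, h⟩; exact h
    · rintro ⟨u', c, h3, h4, h5⟩
      exact ⟨⟨u', c, h3, h4, fun h => h⟩, u', c, h3, h4, h5⟩
  have e2 : pc (fun u => Ar σ M (fun _ _ => ¬ False) x0 u ∧ ¬ Ar σ M gd x0 u) w =
      pc (fun u => Ar σ M (fun m c => ¬ gd m c) x0 u) w := by
    apply pc_congr
    intro u
    rcases List.eq_nil_or_concat u with rfl | ⟨v, c, rfl⟩
    · constructor
      · rintro ⟨h, _⟩; exact absurd h (Ar_nil _ _ _ _)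
      · intro h; exact absurd h (Ar_nil _ _ _ _)
    · rw [List.concat_eq_append, Ar_snoc, Ar_snoc, Ar_snoc]
      constructor
      · rintro ⟨⟨h3, _⟩, h4⟩
        exact ⟨h3, fun h5 => h4 ⟨h3, h5⟩⟩
      · rintro ⟨h3, h4⟩
        exact ⟨⟨h3, fun h => h⟩, fun h5 => h4 h5.2⟩
  rw [e1, e2]
  ring

theorem HS_mem [Finite α] [NeZero M] (x0 : ZMod M × Mem α M) (X : Set (ZMod M × Mem α M)) :
    HS 1 {w : List α | w.foldl (dU σ M) x0 ∈ X} := by
  have h1 : HS 1 (⋃ y : (ZMod M × Mem α M) × Bool, {w : List α | y.1 ∈ X ∧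
      w ∈ {w : List α | w.foldl (dV σ M (fun _ _ => False)) (x0, false) = y}}) :=
    HS.iUnion _ fun y => HS.cond _ fun _ => run1 (CFb_dV σ M (fun _ _ => False) hs
      (H_R0 σ M (fun _ _ => False) hs (fun _ _ _ _ h => h))) (x0, false) y
  convert h1 using 1
  ext w
  simp only [Set.mem_ofPred_eq, Set.mem_iUnion]
  constructor
  · intro h
    refine ⟨_, ?_, rfl⟩
    rw [runV_fst]
    exact h
  · rintro ⟨y, h2, h3⟩
    rw [← h3, runV_fst] at h2
    exact h2

end arr

/-- the memory after a word -/
noncomputable def V (u : List α) : Mem α M := (u.foldl (dU σ M) (0, fun _ => none)).2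

/-- arrivals at a level by a letter -/
def Aq (x : α) (s : ZMod M) (u : List α) : Prop := ((lv σ u : ℤ) : ZMod M) = s ∧ En x u

/-- complete laps -/
def FL (m : Mem α M) (c : α) : Prop := σ c = 1 ∧ ∀ j : ZMod M, j ≠ 0 → ∃ c', m j = some c' ∧ σ c' = 1

open Classical in
/-- the pattern of a lap -/
noncomputable def pt (m : Mem α M) (c : α) (j : ZMod M) : Option α := if j = 0 then some c else m j

/-- the ends of the complete laps in which the level `s` is entered by `x` -/
def E3 (x : α) (s : ZMod M) (u : List α) : Prop :=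
  Ar σ M (fun m c => FL σ M m c ∧ pt M m c s = some x) (0, fun _ => none) u

variable (hs : ∀ a, σ a = 1 ∨ σ a = 0 ∨ σ a = -1)

theorem rel_mem (x : α) (s : ZMod M) (hs0 : s ≠ 0) (u : List α) :
    (u.foldl (dU σ M) (-s, Function.update (fun _ => none) (-s) (some x))).2 (-s) = none ↔
      V σ M u s ≠ none := by
  induction u using List.reverseRecOn with
  | nil => simp [V]
  | append_singleton u c ih =>
    unfold V at ih ⊢
    rw [List.foldl_append, List.foldl_append, List.foldl_cons, List.foldl_cons, List.foldl_nil,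
      List.foldl_nil]
    have f1 := run_fst σ M ((-s, Function.update (fun _ => none) (-s) (some x)) :
      ZMod M × Mem α M) u
    have f2 := run_fst σ M ((0, fun _ => none) : ZMod M × Mem α M) u
    set y1 := u.foldl (dU σ M) (-s, Function.update (fun _ => none) (-s) (some x)) with hy1
    set y2 := u.foldl (dU σ M) ((0, fun _ => none) : ZMod M × Mem α M) with hy2
    simp only [zero_add] at f1 f2
    by_cases h0 : y2.1 + ((σ c : ℤ) : ZMod M) = 0
    · rw [dU_zero σ M y2 c h0]
      have h1 : y1.1 + ((σ c : ℤ) : ZMod M) = -s := by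
        rw [f1, add_assoc, ← f2, h0, add_zero]
      have h2 : y1.1 + ((σ c : ℤ) : ZMod M) ≠ 0 := by
        rw [h1]
        exact neg_ne_zero.2 hs0
      rw [dU_ne σ M y1 c h2, h1]
      simp only [ne_eq, not_true_eq_false, iff_false]
      exact up_self _ _ _ _
    · by_cases h1 : y2.1 + ((σ c : ℤ) : ZMod M) = s
      · have h2 : y1.1 + ((σ c : ℤ) : ZMod M) = 0 := by
          rw [f1, add_assoc, ← f2, h1, neg_add_cancel]
        rw [dU_zero σ M y1 c h2, dU_ne σ M y2 c h0, h1]
        simp only [true_iff]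
        exact up_self _ _ _ _
      · have h2 : y1.1 + ((σ c : ℤ) : ZMod M) ≠ 0 := by
          rw [f1, add_assoc, ← f2]
          intro h
          exact h1 (neg_add_eq_zero.1 h).symm
        have h3 : -s ≠ y1.1 + ((σ c : ℤ) : ZMod M) := by
          rw [f1, add_assoc, ← f2]
          intro h
          apply h0
          have : -s + 0 = -s + (y2.1 + ((σ c : ℤ) : ZMod M)) := by rw [add_zero]; exact h
          exact (add_left_cancel this).symm
        rw [dU_ne σ M y1 c h2, dU_ne σ M y2 c h0]
        simp only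
        rw [up_ne _ _ _ _ _ h3, up_ne _ _ _ _ _ (fun h => h1 h.symm)]
        exact ih

include hs

theorem split_pos [Finite α] [NeZero M] (x : α) (hx : σ x = 1) (s : ZMod M) :
    ∃ g : List α → ℤ, Ct g ∧ ∀ w, pc (Aq σ M x s) w = g w + pc (E3 σ M x s) w := by
  classical
  by_cases hs0 : s = 0
  · subst hs0
    refine ⟨pc (fun u => Ar σ M (fun m c => c = x ∧ ¬ FL σ M m c) (0, fun _ => none) u),
      Ct_Ar σ M _ hs (H_R0 σ M _ hs ?_) _, ?_⟩
    · intro m c _ h1 h2
      apply h2.2
      refine ⟨by rw [h2.1, hx], fun j hj => ?_⟩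
      obtain ⟨c', h3, h4⟩ := h1 j hj
      exact ⟨c', h3, by rw [h4, h2.1, hx]⟩
    · intro w
      induction w using List.reverseRecOn with
      | nil =>
        rw [pc_nil, pc_nil, pc_nil, if_neg, if_neg, if_neg]
        · rfl
        · exact Ar_nil _ _ _ _
        · exact Ar_nil _ _ _ _
        · rintro ⟨_, u', h⟩; simp at h
      | append_singleton w c ih =>
        rw [pc_snoc, pc_snoc, pc_snoc, ih]
        have e1 : Aq σ M x 0 (w ++ [c]) ↔ (((lv σ w + σ c : ℤ) : ZMod M) = 0 ∧ c = x) := by
          unfold Aq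
          rw [En_snoc, lv_snoc]
        have e2 := Ar_snoc σ M (fun m c => c = x ∧ ¬ FL σ M m c) (0, fun _ => none) w c
        have e3 : E3 σ M x 0 (w ++ [c]) ↔ _ := Ar_snoc σ M
          (fun m c => FL σ M m c ∧ pt M m c 0 = some x) (0, fun _ => none) w c
        rw [if_congr e1 rfl rfl, if_congr e2 rfl rfl, if_congr e3 rfl rfl]
        simp only [zero_add, pt, if_true, Option.some.injEq]
        by_cases h1 : ((lv σ w + σ c : ℤ) : ZMod M) = 0 <;> by_cases h2 : c = x <;>
          by_cases h3 : FL σ M (w.foldl (dU σ M) (0, fun _ => none)).2 c <;>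
          simp [h1, h2, h3] <;> (try subst h2) <;> simp [h3] <;> ring
  · refine ⟨fun w => (pc (fun u => Ar σ M (fun m c => c = x ∧ m (-s) = none)
        (-s, Function.update (fun _ => none) (-s) (some x)) u) w +
      pc (fun u => Ar σ M (fun m c => m s = some x ∧ ¬ FL σ M m c) (0, fun _ => none) u) w) +
      (if V σ M w s = some x then 1 else 0), ?_, ?_⟩
    · refine ((Ct_Ar σ M _ hs (H_R0 σ M _ hs ?_) _).add (Ct_Ar σ M _ hs (H_R0 σ M _ hs ?_) _)).add
        (Ct_ind _ ?_)
      · rintro m c _ h1 ⟨h2, h3⟩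
        obtain ⟨c', h4, _⟩ := h1 (-s) (neg_ne_zero.2 hs0)
        rw [h3] at h4
        simp at h4
      · rintro m c hc h1 ⟨h2, h3⟩
        obtain ⟨c', h4, h5⟩ := h1 s hs0
        rw [h2] at h4
        have h6 : x = c' := Option.some.inj h4
        rw [← h6, hx] at h5
        apply h3
        refine ⟨h5.symm, fun j hj => ?_⟩
        obtain ⟨c'', h7, h8⟩ := h1 j hj
        exact ⟨c'', h7, by rw [h8, ← h5]⟩
      · exact HS_mem σ M hs (0, fun _ => none) {y | y.2 s = some x}
    · intro w
      induction w using List.reverseRecOn with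
      | nil =>
        simp only [pc_nil]
        rw [if_neg, if_neg, if_neg, if_neg, if_neg]
        · rfl
        · exact Ar_nil _ _ _ _
        · simp [V]
        · exact Ar_nil _ _ _ _
        · exact Ar_nil _ _ _ _
        · rintro ⟨_, u', h⟩; simp at h
      | append_singleton w c ih =>
        simp only [pc_snoc]
        rw [ih]
        have e1 : Aq σ M x s (w ++ [c]) ↔ (((lv σ w + σ c : ℤ) : ZMod M) = s ∧ c = x) := by
          unfold Aq
          rw [En_snoc, lv_snoc]
        have e2 : Ar σ M (fun m c => c = x ∧ m (-s) = none)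
            (-s, Function.update (fun _ => none) (-s) (some x)) (w ++ [c]) ↔
            (((lv σ w + σ c : ℤ) : ZMod M) = s ∧ c = x ∧ V σ M w s ≠ none) := by
          rw [Ar_snoc, rel_mem σ M x s hs0 w, neg_add_eq_zero]
          constructor
          · rintro ⟨h1, h2⟩; exact ⟨h1.symm, h2⟩
          · rintro ⟨h1, h2⟩; exact ⟨h1.symm, h2⟩
        have e3 : Ar σ M (fun m c => m s = some x ∧ ¬ FL σ M m c) (0, fun _ => none) (w ++ [c]) ↔
            (((lv σ w + σ c : ℤ) : ZMod M) = 0 ∧ V σ M w s = some x ∧ ¬ FL σ M (V σ M w) c) := by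
          rw [Ar_snoc, zero_add]; rfl
        have e4 : E3 σ M x s (w ++ [c]) ↔
            (((lv σ w + σ c : ℤ) : ZMod M) = 0 ∧ FL σ M (V σ M w) c ∧ V σ M w s = some x) := by
          unfold E3
          rw [Ar_snoc, zero_add]
          simp only [pt, if_neg hs0]
          rfl
        rw [if_congr e1 rfl rfl, if_congr e2 rfl rfl, if_congr e3 rfl rfl, if_congr e4 rfl rfl]
        have f2 := run_fst σ M ((0, fun _ => none) : ZMod M × Mem α M) w
        simp only [zero_add] at f2
        have hV : V σ M (w ++ [c]) =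
            (dU σ M (w.foldl (dU σ M) ((0, fun _ => none) : ZMod M × Mem α M)) c).2 := by
          unfold V
          rw [List.foldl_append]; rfl
        have hVw : V σ M w = (w.foldl (dU σ M) ((0, fun _ => none) : ZMod M × Mem α M)).2 := rfl
        set y := w.foldl (dU σ M) ((0, fun _ => none) : ZMod M × Mem α M) with hy
        have hl : y.1 + ((σ c : ℤ) : ZMod M) = ((lv σ w + σ c : ℤ) : ZMod M) := by
          rw [f2]; push_cast; rfl
        by_cases h0 : ((lv σ w + σ c : ℤ) : ZMod M) = 0
        · have h1 : V σ M (w ++ [c]) s = none := by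
            rw [hV, dU_zero σ M y c (by rw [hl]; exact h0)]
          rw [h1, h0]
          have hs0' : ¬ (0 : ZMod M) = s := fun h => hs0 h.symm
          simp only [hs0', false_and, if_false, true_and]
          by_cases h2 : V σ M w s = some x <;> by_cases h3 : FL σ M (V σ M w) c <;>
            simp [h2, h3] <;> ring
        · by_cases h1 : ((lv σ w + σ c : ℤ) : ZMod M) = s
          · have h2 : V σ M (w ++ [c]) s = up M (V σ M w) s c s := by
              rw [hV, dU_ne σ M y c (by rw [hl]; exact h0), hl, h1, ← hVw]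
            rw [h2, h1]
            simp only [hs0, false_and, if_false, true_and, add_zero]
            by_cases h3 : V σ M w s = none
            · rw [up_none _ _ _ _ h3, h3]
              by_cases h4 : c = x <;> simp [h4] <;> ring
            · rw [up_eq _ _ _ _ h3]
              by_cases h4 : c = x <;> simp [h4, h3] <;> ring
          · have h2 : V σ M (w ++ [c]) s = V σ M w s := by
              rw [hV, dU_ne σ M y c (by rw [hl]; exact h0), hl]
              simp only
              rw [up_ne _ _ _ _ _ (fun h => h1 h.symm), ← hVw]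
            rw [h2]
            simp only [h0, h1, false_and, if_false, add_zero]

end walk

end Pool.Agent.TH733.GSH
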