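import Pool.Agent.TH733.GSH.Read

/-! Bouquets of cycles of prime length: the number of times a letter is read at the common point,
and the number of arrivals at the common point by a letter, are computed in height one. -/

set_option autoImplicit false
set_option linter.unusedSectionVars false

namespace Pool.Agent.TH733.GSH

open Pool.Agent.H936R2.SH Pool.Agent.H815R3.GSH

section

variable {ι α : Type} (p : ι → ℕ) (ix : α → ι) (cc : ∀ y : α, ZMod (p (ix y)))

open Classical in
/-- the move of a point by a letter -/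
noncomputable def mv (x : ∀ i, ZMod (p i)) (y : α) : ∀ i, ZMod (p i) :=
  if ∀ j, j ≠ ix y → x j = 0 then x + Pi.single (ix y) (cc y) else x

open Classical in
/-- the displacement in the petal `i` -/
noncomputable def ps' (i : ι) (y : α) : ZMod (p i) :=
  (Pi.single (ix y) (cc y) : ∀ i, ZMod (p i)) i

theorem mv_two (x : ∀ i, ZMod (p i)) (y : α) {i j : ι} (hij : i ≠ j) (hi : x i ≠ 0)
    (hj : x j ≠ 0) : mv p ix cc x y = x := by
  unfold mv
  rw [if_neg]
  intro h
  by_cases h1 : i = ix y
  · exact hj (h j (fun h2 => hij (h1.trans h2.symm)))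
  · exact hi (h i h1)

/-- moves of a point of the petal `i` -/
theorem mv_one (x : ∀ i, ZMod (p i)) (y : α) {i : ι} (hs : ∀ j, j ≠ i → x j = 0) (hi : x i ≠ 0) :
    (∀ j, j ≠ i → mv p ix cc x y j = 0) ∧ mv p ix cc x y i = x i + ps' p ix cc i y := by
  classical
  unfold mv ps'
  by_cases h : i = ix y
  · subst h
    rw [if_pos hs]
    refine ⟨fun j hj => ?_, rfl⟩
    rw [Pi.add_apply, hs j hj, Pi.single_eq_of_ne hj, add_zero]
  · rw [if_neg (fun h1 => hi (h1 i h))]
    refine ⟨hs, ?_⟩
    rw [Pi.single_eq_of_ne h, add_zero]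

/-- moves of the common point -/
theorem mv_zero (x : ∀ i, ZMod (p i)) (y : α) {i : ι} (hx : x = 0) (hi : ix y = i) :
    (∀ j, j ≠ i → mv p ix cc x y j = 0) ∧ mv p ix cc x y i = x i + ps' p ix cc i y := by
  classical
  subst hi hx
  unfold mv ps'
  have h0 : ∀ j, j ≠ ix y → (0 : ∀ i, ZMod (p i)) j = 0 := fun _ _ => rfl
  rw [if_pos h0]
  refine ⟨fun j hj => ?_, rfl⟩
  rw [Pi.add_apply, Pi.zero_apply, Pi.single_eq_of_ne hj, add_zero]

section run

variable {L K : ℕ} {c : ℕ → α} {x : ℕ → ∀ i, ZMod (p i)} (hx : Per (mv p ix cc) L K c x)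

include hx

theorem const_two {s : ℕ} {i j : ι} (hij : i ≠ j) (hi : x s i ≠ 0) (hj : x s j ≠ 0) :
    x (s + L) = x s := by
  have : ∀ n, x (s + n) = x s := by
    intro n
    induction n with
    | zero => rfl
    | succ n ih =>
      rw [← add_assoc, hx.hq, ih]
      exact mv_two p ix cc _ _ hij hi hj
  exact this L

/-- the displacement over a multiple of the period -/
theorem disp {i : ι} {s : ℕ} (h : ∀ n, x (s + n + 1) i = x (s + n) i + ps' p ix cc i (c (s + n)))
    (m : ℕ) : x (s + m * L) i = x s i + m * ∑ k ∈ Finset.range L, ps' p ix cc i (c (s + k)) := by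
  have h1 : ∀ n, x (s + n) i = x s i + ∑ k ∈ Finset.range n, ps' p ix cc i (c (s + k)) := by
    intro n
    induction n with
    | zero => simp
    | succ n ih => rw [← add_assoc, h n, ih, Finset.sum_range_succ]; ring
  rw [h1]
  congr 1
  induction m with
  | zero => simp
  | succ m ih =>
    rw [Nat.succ_mul, Finset.sum_range_add, ih]
    have : ∀ k ∈ Finset.range L, ps' p ix cc i (c (s + (m * L + k))) =
        ps' p ix cc i (c (s + k)) := by
      intro k _
      rw [show s + (m * L + k) = s + k + m * L by ring, per_mul c L hx.hc]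
    rw [Finset.sum_congr rfl this]
    push_cast
    ring

end run

theorem reach {n : ℕ} [Fact n.Prime] (v Ψ : ZMod n) (h : Ψ ≠ 0) : ∃ m : ℕ, v + m * Ψ = 0 := by
  refine ⟨(-v * Ψ⁻¹).val, ?_⟩
  rw [ZMod.natCast_zmod_val]
  field_simp
  ring

theorem mv_CFb [hp : ∀ i, Fact (p i).Prime] : CFb (mv p ix cc) 0 := by
  apply CFb_iff_per
  intro L K c x hx hav
  by_cases h2 : ∃ i j, i ≠ j ∧ x 0 i ≠ 0 ∧ x 0 j ≠ 0
  · obtain ⟨i, j, hij, hi, hj⟩ := h2
    exact ⟨0, const_two p ix cc hx hij hi hj⟩
  push Not at h2
  obtain ⟨i, hi⟩ : ∃ i, x 0 i ≠ 0 := by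
    by_contra h
    push Not at h
    exact hav 0 (funext h)
  have hs0 : ∀ j, j ≠ i → x 0 j = 0 := fun j hj => h2 i j (Ne.symm hj) hi
  have hall : ∀ n, (∀ j, j ≠ i → x n j = 0) ∧ x n i ≠ 0 := by
    intro n
    induction n with
    | zero => exact ⟨hs0, hi⟩
    | succ n ih =>
      have h3 := mv_one p ix cc (x n) (c n) ih.1 ih.2
      rw [← hx.hq] at h3
      refine ⟨h3.1, fun h4 => hav (n + 1) (funext fun j => ?_)⟩
      by_cases hj : j = i
      · rw [hj, h4]; rfl
      · rw [h3.1 j hj]; rfl
  have hstep : ∀ n, x (0 + n + 1) i = x (0 + n) i + ps' p ix cc i (c (0 + n)) := by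
    intro n
    rw [hx.hq]
    exact (mv_one p ix cc _ _ (hall _).1 (hall _).2).2
  have hd := disp p ix cc hx hstep
  set Ψ := ∑ k ∈ Finset.range L, ps' p ix cc i (c (0 + k)) with hΨ
  have hΨ0 : Ψ = 0 := by
    by_contra hne
    obtain ⟨m, hm⟩ := reach (x 0 i) Ψ hne
    apply (hall (0 + m * L)).2
    rw [hd, hm]
  refine ⟨0, funext fun j => ?_⟩
  by_cases hj : j = i
  · subst hj
    have := hd 1
    rw [one_mul, hΨ0, mul_zero, add_zero] at this
    exact this
  · rw [(hall _).1 j hj, (hall _).1 j hj]

theorem mv_OnlyPow [hp : ∀ i, Fact (p i).Prime] : OnlyPow (mv p ix cc) 0 := by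
  intro z L K c x hx hz hne
  have hne' : ∀ s, x (s + L) ≠ x s := by
    intro s hs
    obtain ⟨t, ht⟩ := hne
    exact ht (hx.all hs t)
  obtain ⟨s, hs⟩ : ∃ s, x s = 0 := by
    by_contra h
    push Not at h
    exact hne' 0 (CFb_per (mv_CFb p ix cc) hx h 0)
  set i := ix z with hi
  have hsup : ∀ n, ∀ j, j ≠ i → x (s + n) j = 0 := by
    intro n
    induction n with
    | zero => intro j _; rw [add_zero, hs]; rfl
    | succ n ih =>
      rw [← add_assoc, hx.hq]
      by_cases h0 : x (s + n) i = 0
      · have h1 : x (s + n) = 0 := by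
          funext j
          by_cases hj : j = i
          · rw [hj, h0]; rfl
          · rw [ih j hj]; rfl
        rw [hz _ h1]
        exact (mv_zero p ix cc _ _ h1 hi.symm).1
      · exact (mv_one p ix cc _ _ ih h0).1
  have hstep : ∀ n, x (s + n + 1) i = x (s + n) i + ps' p ix cc i (c (s + n)) := by
    intro n
    rw [hx.hq]
    by_cases h0 : x (s + n) i = 0
    · have h1 : x (s + n) = 0 := by
        funext j
        by_cases hj : j = i
        · rw [hj, h0]; rfl
        · rw [hsup n j hj]; rfl
      rw [hz _ h1]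
      exact (mv_zero p ix cc _ _ h1 hi.symm).2
    · exact (mv_one p ix cc _ _ (hsup n) h0).2
  have key : ∀ n, c (s + n) = z := by
    intro n
    have hstep' : ∀ m, x (s + n + m + 1) i = x (s + n + m) i + ps' p ix cc i (c (s + n + m)) := by
      intro m
      have := hstep (n + m)
      rwa [← add_assoc] at this
    have hd := disp p ix cc hx hstep'
    set Ψ := ∑ k ∈ Finset.range L, ps' p ix cc i (c (s + n + k)) with hΨ
    have hsup' : ∀ m j, j ≠ i → x (s + n + m) j = 0 := by
      intro m j hj
      rw [add_assoc]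
      exact hsup (n + m) j hj
    have hΨ0 : Ψ ≠ 0 := by
      intro h0
      apply hne' (s + n)
      funext j
      by_cases hj : j = i
      · subst hj
        have := hd 1
        rw [one_mul, h0, mul_zero, add_zero] at this
        exact this
      · have e1 := hsup' L j hj
        have e2 := hsup' 0 j hj
        rw [add_zero] at e2
        rw [e1, e2]
    obtain ⟨m, hm⟩ := reach (x (s + n) i) Ψ hΨ0
    have h3 : x (s + n + m * L) = 0 := by
      funext j
      by_cases hj : j = i
      · subst hj
        rw [hd, hm]; rfl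
      · rw [hsup' _ j hj]; rfl
    have h4 := hz _ h3
    rwa [per_mul c L hx.hc] at h4
  intro t
  have hKL : 0 < K * L := Nat.mul_pos hx.hK hx.hL
  have hge : s ≤ s * (K * L) := Nat.le_mul_of_pos_right _ hKL
  have h5 := key (t + s * (K * L) - s)
  rw [show s + (t + s * (K * L) - s) = t + s * K * L by rw [mul_assoc]; omega,
    per_mul c L hx.hc] at h5
  exact h5

/-- the inverse moves -/
theorem mv_inv (x : ∀ i, ZMod (p i)) (y : α) :
    mv p ix (fun y => - cc y) (mv p ix cc x y) y = x := by
  classical
  unfold mv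
  by_cases h : ∀ j, j ≠ ix y → x j = 0
  · rw [if_pos h]
    have h2 : ∀ j, j ≠ ix y →
        (x + (Pi.single (ix y) (cc y) : ∀ i, ZMod (p i))) j = 0 := by
      intro j hj
      rw [Pi.add_apply, h j hj, Pi.single_eq_of_ne hj, add_zero]
    rw [if_pos h2, Pi.single_neg]
    simp
  · rw [if_neg h, if_neg h]

end

section arrive

variable {Q α : Type}

/-- arrivals are readings of the reversed word by the inverse automaton -/
theorem arr_rev (δ δ' : Q → α → Q) (hinv : ∀ q a, δ' (δ q a) a = q) (b : Q) (y : α) (p : Q)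
    (w : List α) : tc δ (fun q a => iv (δ q a = b ∧ a = y)) p w =
      tc δ' (fun q a => iv (q = b ∧ a = y)) (w.foldl δ p) w.reverse := by
  induction w using List.reverseRecOn with
  | nil => rfl
  | append_singleton w a ih =>
    rw [tc_snoc, ih, List.foldl_append, List.foldl_cons, List.foldl_nil, List.reverse_append,
      List.reverse_singleton, List.singleton_append, tc, hinv]
    ring

theorem Ct_arrive [Finite Q] [Finite α] {δ δ' : Q → α → Q} (hinv : ∀ q a, δ' (δ q a) a = q)
    {b : Q} (h : CFb δ b) (h' : CFb δ' b) (hP : OnlyPow δ' b) (p : Q) (y : α) :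
    Ct (tc δ (fun q a => iv (δ q a = b ∧ a = y)) p) := by
  have h1 := Ct.cases (fun w : List α => w.foldl δ p) (fun i => run1 h p i)
    (fun e w => tc δ' (fun q a => iv (q = b ∧ a = y)) e w.reverse)
    (fun e => (Ct_read h' hP e y).rev)
  exact Ct.congr h1 fun w => (arr_rev δ δ' hinv b y p w).symm

end arrive

section output

variable {Q α A : Type} [CommGroup A] [Finite A] [Finite Q] [Finite α] (δ : Q → α → Q) (b : Q)
  (g h : α → A)

open Classical in
/-- the automaton with outputs at the departures from `b` and at the arrivals at `b` -/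
noncomputable def dA (s : A × Q) (y : α) : A × Q :=
  (s.1 * (if s.2 = b then g y else 1) * (if δ s.2 y = b then h y else 1), δ s.2 y)

theorem dA_run [Fintype α] (a : A) (q : Q) (w : List α) :
    w.foldl (dA δ b g h) (a, q) =
      (a * ∏ y : α, (g y ^ (tc δ (fun q a => iv (q = b ∧ a = y)) q w) *
        h y ^ (tc δ (fun q a => iv (δ q a = b ∧ a = y)) q w)), w.foldl δ q) := by
  classical
  induction w generalizing a q with
  | nil => simp [tc]
  | cons c w ih =>
    rw [List.foldl_cons, dA, ih, List.foldl_cons]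
    refine Prod.ext ?_ rfl
    simp only [tc]
    have e1 : ∀ y : α, g y ^ (iv (q = b ∧ c = y) + tc δ (fun q a => iv (q = b ∧ a = y)) (δ q c) w) *
        h y ^ (iv (δ q c = b ∧ c = y) + tc δ (fun q a => iv (δ q a = b ∧ a = y)) (δ q c) w) =
        ((if y = c then (if q = b then g c else 1) else 1) *
          (if y = c then (if δ q c = b then h c else 1) else 1)) *
        (g y ^ (tc δ (fun q a => iv (q = b ∧ a = y)) (δ q c) w) *
          h y ^ (tc δ (fun q a => iv (δ q a = b ∧ a = y)) (δ q c) w)) := by
      intro y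
      rw [zpow_add, zpow_add]
      have e2 : g y ^ iv (q = b ∧ c = y) = if y = c then (if q = b then g c else 1) else 1 := by
        by_cases hy : y = c
        · subst hy
          by_cases hq : q = b
          · rw [iv_pos ⟨hq, rfl⟩, if_pos rfl, if_pos hq, zpow_one]
          · rw [iv_neg (fun h => hq h.1), if_pos rfl, if_neg hq, zpow_zero]
        · rw [iv_neg (fun h => hy h.2.symm), if_neg hy, zpow_zero]
      have e3 : h y ^ iv (δ q c = b ∧ c = y) =
          if y = c then (if δ q c = b then h c else 1) else 1 := by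
        by_cases hy : y = c
        · subst hy
          by_cases hq : δ q y = b
          · rw [iv_pos ⟨hq, rfl⟩, if_pos rfl, if_pos hq, zpow_one]
          · rw [iv_neg (fun h => hq h.1), if_pos rfl, if_neg hq, zpow_zero]
        · rw [iv_neg (fun h => hy h.2.symm), if_neg hy, zpow_zero]
      rw [e2, e3]
      simp only [mul_assoc, mul_left_comm]
    have e4 : ∏ y : α, ((if y = c then (if q = b then g c else 1) else 1) *
        (if y = c then (if δ q c = b then h c else 1) else 1)) =
        (if q = b then g c else 1) * (if δ q c = b then h c else 1) := by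
      rw [Finset.prod_mul_distrib, Finset.prod_ite_eq' Finset.univ c,
        Finset.prod_ite_eq' Finset.univ c]
      simp only [Finset.mem_univ, if_true]
    rw [Finset.prod_congr rfl (fun y _ => e1 y), Finset.prod_mul_distrib (f := fun y =>
      (if y = c then (if q = b then g c else 1) else 1) *
        (if y = c then (if δ q c = b then h c else 1) else 1)), e4]
    simp only [mul_assoc]

theorem HS_out (h0 : CFb δ b)
    (h1 : ∀ p y, Ct (tc δ (fun q a => iv (q = b ∧ a = y)) p))
    (h2 : ∀ p y, Ct (tc δ (fun q a => iv (δ q a = b ∧ a = y)) p))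
    (S : Set (A × Q → A × Q)) : HS 1 {w : List α | (fun s => w.foldl (dA δ b g h) s) ∈ S} := by
  classical
  have := Fintype.ofFinite α
  have hD : ∀ q, Dt (fun w : List α => (∏ y : α,
      (g y ^ (tc δ (fun q a => iv (q = b ∧ a = y)) q w) *
        h y ^ (tc δ (fun q a => iv (δ q a = b ∧ a = y)) q w)) : A)) := by
    intro q
    exact Dt.prod Finset.univ _ fun y _ => (Dt.zpow (g y) (h1 q y)).mul (Dt.zpow (h y) (h2 q y))
  have hpt : ∀ (s t : A × Q), HS 1 {w : List α | w.foldl (dA δ b g h) s = t} := by
    rintro ⟨a, q⟩ ⟨a', q'⟩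
    have h3 := (hD q (a⁻¹ * a')).inter (run1 h0 q q')
    convert h3 using 1
    ext w
    rw [Set.mem_ofPred_eq, dA_run, Prod.mk.injEq, Set.mem_inter_iff, Set.mem_ofPred_eq,
      Set.mem_ofPred_eq, eq_inv_mul_iff_mul_eq]
  have h4 : HS 1 (⋃ F : (A × Q → A × Q), {w : List α | F ∈ S ∧
      w ∈ ⋂ s : A × Q, {w : List α | w.foldl (dA δ b g h) s = F s}}) :=
    HS.iUnion _ fun F => HS.cond _ fun _ => HS.iInter _ fun s => hpt s (F s)
  convert h4 using 1
  ext w
  rw [Set.mem_ofPred_eq, Set.mem_iUnion]
  constructor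
  · intro hw
    exact ⟨_, hw, Set.mem_iInter.2 fun s => rfl⟩
  · rintro ⟨F, hF, hw⟩
    rw [Set.mem_iInter] at hw
    have : (fun s => w.foldl (dA δ b g h) s) = F := funext fun s => hw s
    rw [this]; exact hF

end output

end Pool.Agent.TH733.GSH
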