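import Pool.Agent.TH733.GSH.Read

/-! Covers of an automaton which record the type of the current loop at the base state `b`, for an
arbitrary finite set of types. -/

set_option autoImplicit false
set_option linter.unusedSectionVars false

namespace Pool.Agent.TH733.GSH.Gen

open Pool.Agent.H936R2.SH Pool.Agent.H815R3.GSH Pool.Agent.TH733.GSH

section

variable {Q α R : Type} (δ : Q → α → Q) (b : Q) (u : Option R → α → R) (P G : Bool → R → Bool)

/-- states of the cover: state, parity, record, tag -/
abbrev St4 (Q R : Type) := (Q × Bool × Option R) × Bool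

open Classical in
/-- the automaton with parity and record -/
noncomputable def dR (x : Q × Bool × Option R) (a : α) : Q × Bool × Option R :=
  if δ x.1 a = b then (b, P x.2.1 (u x.2.2 a), none) else (δ x.1 a, x.2.1, some (u x.2.2 a))

open Classical in
/-- the cover -/
noncomputable def dC (x : St4 Q R) (a : α) : St4 Q R :=
  (dR δ b u P x.1 a, if δ x.1.1 a = b then G x.1.2.1 (u x.1.2.2 a) else x.2)

/-- the base state of the cover -/
def bC : St4 Q R := ((b, false, none), false)

open Classical in
/-- the automaton with the record only -/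
noncomputable def dW (x : Q × Option R) (a : α) : Q × Option R :=
  if δ x.1 a = b then (b, none) else (δ x.1 a, some (u x.2 a))

/-- the type `τ` is good: periodic runs with all loops of type `τ` have the small period -/
def Good (τ : R) : Prop := ∀ (L K : ℕ) (c : ℕ → α) (y : ℕ → Q × Option R),
  Per (dW δ b u) L K c y → (∃ s, (y s).1 = b) →
  (∀ t, (y (t + 1)).1 = b → u (y t).2 (c t) = τ) → ∃ s, (y s).1 = b ∧ (y (s + L)).1 = b

/-- periodic runs with loops alternating between the types `S` and `Z` have the small period -/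
def Alt (S Z : R) : Prop := ∀ (L K : ℕ) (c : ℕ → α) (y : ℕ → Q × Option R) (par : ℕ → Bool),
  Per (dW δ b u) L K c y → (∃ s, (y s).1 = b) → (∀ t, par (t + K * L) = par t) →
  (∀ t, (y (t + 1)).1 ≠ b → par (t + 1) = par t) →
  (∀ t, (y (t + 1)).1 = b → (par t = false ∧ u (y t).2 (c t) = S ∧ par (t + 1) = true) ∨
    (par t = true ∧ u (y t).2 (c t) = Z ∧ par (t + 1) = false)) →
  ∃ s, (y s).1 = b ∧ (y (s + L)).1 = b ∧ par (s + L) = par s

/-- records inside a loop have the small period -/
def RecPer : Prop := ∀ (L K : ℕ) (c : ℕ → α) (ρ : ℕ → R), 0 < L → 0 < K → (∀ t, c (t + L) = c t) →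
  (∀ t, ρ (t + 1) = u (some (ρ t)) (c t)) → (∀ t, ρ (t + K * L) = ρ t) → ∃ s, ρ (s + L) = ρ s

variable {δ b u P G}

section run

variable {L K : ℕ} {c : ℕ → α} {x : ℕ → St4 Q R} (hx : Per (dC δ b u P G) L K c x)

include hx

theorem run_q (t : ℕ) : (x (t + 1)).1.1 = δ (x t).1.1 (c t) := by
  rw [hx.hq, dC, dR]
  split_ifs with h
  · exact h.symm
  · rfl

theorem run_per : Per δ L K c (fun t => (x t).1.1) :=
  ⟨hx.hL, hx.hK, hx.hc, run_q hx, fun t => by rw [hx.hp]⟩

theorem run_perW : Per (dW δ b u) L K c (fun t => ((x t).1.1, (x t).1.2.2)) := by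
  refine ⟨hx.hL, hx.hK, hx.hc, fun t => ?_, fun t => by rw [hx.hp]⟩
  rw [hx.hq, dC, dR, dW]
  split_ifs <;> rfl

theorem run_b {t : ℕ} (h : (x (t + 1)).1.1 = b) :
    x (t + 1) = ((b, P (x t).1.2.1 (u (x t).1.2.2 (c t)), none),
      G (x t).1.2.1 (u (x t).1.2.2 (c t))) := by
  rw [run_q hx] at h
  rw [hx.hq, dC, dR, if_pos h, if_pos h]

theorem run_nb {t : ℕ} (h : (x (t + 1)).1.1 ≠ b) :
    x (t + 1) = ((δ (x t).1.1 (c t), (x t).1.2.1, some (u (x t).1.2.2 (c t))), (x t).2) := by
  rw [run_q hx] at h
  rw [hx.hq, dC, dR, if_neg h, if_neg h]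

theorem pos_shift (t : ℕ) : ∃ s, x (s + 1) = x t ∧ c (s + 1) = c t := by
  refine ⟨t + K * L - 1, ?_⟩
  have hKL : 0 < K * L := Nat.mul_pos hx.hK hx.hL
  rw [show t + K * L - 1 + 1 = t + K * L by omega]
  exact ⟨hx.hp t, per_mul c L hx.hc t K⟩

theorem rec_none {t : ℕ} (h : (x t).1.1 = b) : (x t).1.2.2 = none := by
  obtain ⟨s, hs, _⟩ := pos_shift hx t
  rw [← hs] at h ⊢
  rw [run_b hx h]

theorem rec_some {t : ℕ} (h : (x t).1.1 ≠ b) : ∃ τ, (x t).1.2.2 = some τ := by
  obtain ⟨s, hs, _⟩ := pos_shift hx t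
  rw [← hs] at h ⊢
  exact ⟨_, by rw [run_nb hx h]⟩

/-- runs which never visit `b` -/
theorem never (hδ : CFb δ b) (hu : RecPer u) (hb : ∀ t, (x t).1.1 ≠ b) :
    ∃ s, x (s + L) = x s := by
  have hq : ∀ t, (x (t + L)).1.1 = (x t).1.1 := CFb_per hδ (run_per hx) hb
  have hpar : ∀ t n, (x (t + n)).1.2.1 = (x t).1.2.1 := by
    intro t n
    induction n with
    | zero => rfl
    | succ n ih => rw [← add_assoc, run_nb hx (hb _)]; exact ih
  have htag : ∀ t n, (x (t + n)).2 = (x t).2 := by
    intro t n
    induction n with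
    | zero => rfl
    | succ n ih => rw [← add_assoc, run_nb hx (hb _)]; exact ih
  have h1 : ∀ t, ∃ τ, (x t).1.2.2 = some τ := fun t => rec_some hx (hb t)
  choose ρ hρ using h1
  obtain ⟨s, hs⟩ := hu L K c ρ hx.hL hx.hK hx.hc (fun t => by
      have h2 := hρ (t + 1)
      rw [run_nb hx (hb _), hρ t] at h2
      exact (Option.some.inj h2).symm) (fun t => by
      have h2 := hρ (t + K * L)
      rw [hx.hp, hρ t] at h2
      exact (Option.some.inj h2).symm)
  refine ⟨s, ?_⟩
  refine Prod.ext (Prod.ext (hq s) (Prod.ext (hpar s L) ?_)) (htag s L)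
  rw [hρ, hρ, hs]

/-- equality at a visit of `b` -/
theorem eq_at {s : ℕ} (h1 : (x s).1.1 = b) (h2 : (x (s + L)).1.1 = b)
    (h3 : (x (s + L)).1.2.1 = (x s).1.2.1) (h4 : (x (s + L)).2 = (x s).2) : x (s + L) = x s := by
  refine Prod.ext (Prod.ext (by rw [h1, h2]) (Prod.ext h3 ?_)) h4
  rw [rec_none hx h1, rec_none hx h2]

/-- the next visit of `b` -/
theorem next {s : ℕ} (hs : (x s).1.1 = b) : ∃ n, (∀ i, 0 < i → i ≤ n → (x (s + i)).1.1 ≠ b) ∧
    (x (s + n + 1)).1.1 = b ∧ (∀ i, i ≤ n → (x (s + i)).1.2.1 = (x s).1.2.1) := by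
  classical
  have hex : ∃ n, (x (s + n + 1)).1.1 = b := by
    refine ⟨K * L - 1, ?_⟩
    have hKL : 0 < K * L := Nat.mul_pos hx.hK hx.hL
    rw [show s + (K * L - 1) + 1 = s + K * L by omega, hx.hp]
    exact hs
  have hmin : ∀ i, 0 < i → i ≤ Nat.find hex → (x (s + i)).1.1 ≠ b := by
    intro i h0 h1 h2
    refine Nat.find_min hex (m := i - 1) (by omega) ?_
    rw [show s + (i - 1) + 1 = s + i by omega]
    exact h2
  refine ⟨Nat.find hex, hmin, Nat.find_spec hex, ?_⟩
  intro i
  induction i with
  | zero => intro _; rfl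
  | succ i ih =>
    intro hi
    have h1 := run_nb hx (t := s + i) (by
      have := hmin (i + 1) (by omega) hi
      rwa [← add_assoc] at this)
    rw [show s + (i + 1) = s + i + 1 by omega, h1]
    exact ih (by omega)

end run

open Classical in
/-- parity of a block of loops of type `S` -/
noncomputable def Py (S : R) (par : Bool) (τ : R) : Bool := if τ = S then !par else false

/-- no parity -/
def P0 (_ : Bool) (_ : R) : Bool := false

/-- no tag -/
def G0 (_ : Bool) (_ : R) : Bool := false

open Classical in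
/-- tag of the loops of type `z` -/
noncomputable def G1 (z : R) (_ : Bool) (τ : R) : Bool := decide (τ = z)

open Classical in
/-- tag of the loops of type `z`, read at parity `false` -/
noncomputable def G3 (z : R) (par : Bool) (τ : R) : Bool := !par && decide (τ = z)

open Classical in
/-- tag of the loops of type `z`, read at parity `true` -/
noncomputable def G4 (z : R) (par : Bool) (τ : R) : Bool := par && decide (τ = z)

theorem Py_true (S τ : R) : Py S true τ = false := by
  unfold Py; split_ifs <;> rfl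

theorem CFb_two (hδ : CFb δ b) (hu : RecPer u) (S : R) : CFb (dC δ b u (Py S) G0) (bC b) := by
  apply CFb_iff_per
  intro L K c x hx hav
  by_cases hb : ∀ t, (x t).1.1 ≠ b
  · exact never hx hδ hu hb
  · exfalso
    push Not at hb
    obtain ⟨s, hs⟩ := hb
    obtain ⟨n, _, hs', _⟩ := next hx hs
    have h1 := run_b hx hs'
    obtain ⟨n', _, hs'', hpar'⟩ := next hx hs'
    have h2 := run_b hx hs''
    cases hpar : (x (s + n + 1)).1.2.1 with
    | false =>
      apply hav (s + n + 1)
      rw [h1] at hpar ⊢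
      simp only at hpar
      rw [hpar]; rfl
    | true =>
      apply hav (s + n + 1 + n' + 1)
      rw [h2, hpar' n' le_rfl, hpar, Py_true]; rfl

theorem CFb_one (hδ : CFb δ b) (hu : RecPer u) (z : R) (hz : Good δ b u z) :
    CFb (dC δ b u P0 (G1 z)) (bC b) := by
  classical
  apply CFb_iff_per
  intro L K c x hx hav
  by_cases hb : ∀ t, (x t).1.1 ≠ b
  · exact never hx hδ hu hb
  · push Not at hb
    have hpar : ∀ t, (x t).1.1 = b → (x t).1.2.1 = false := by
      intro t ht
      obtain ⟨s, h1, _⟩ := pos_shift hx t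
      rw [← h1] at ht ⊢
      rw [run_b hx ht]; rfl
    have htag : ∀ t, (x t).1.1 = b → (x t).2 = true := by
      intro t ht
      by_contra h
      apply hav t
      rw [Bool.not_eq_true] at h
      refine Prod.ext (Prod.ext ht (Prod.ext (hpar t ht) (rec_none hx ht))) h
    obtain ⟨s, h1, h2⟩ := hz L K c _ (run_perW hx) hb (fun t ht => by
      have h3 := htag (t + 1) ht
      rw [run_b hx ht] at h3
      simpa [G1] using h3)
    exact ⟨s, eq_at hx h1 h2 (by rw [hpar _ h1, hpar _ h2]) (by rw [htag _ h1, htag _ h2])⟩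

theorem CFb_three (hδ : CFb δ b) (hu : RecPer u) (S z : R) (hz : Good δ b u z) :
    CFb (dC δ b u (Py S) (G3 z)) (bC b) := by
  classical
  apply CFb_iff_per
  intro L K c x hx hav
  by_cases hb : ∀ t, (x t).1.1 ≠ b
  · exact never hx hδ hu hb
  · push Not at hb
    have hpar : ∀ t, (x t).1.1 = b → (x t).1.2.1 = false := by
      intro t ht
      by_contra h
      rw [Bool.not_eq_false] at h
      obtain ⟨n, _, h1, h2⟩ := next hx ht
      apply hav (t + n + 1)
      rw [run_b hx h1, h2 n le_rfl, h, Py_true, G3]; rfl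
    have htag : ∀ t, (x t).1.1 = b → (x t).2 = true := by
      intro t ht
      by_contra h
      apply hav t
      rw [Bool.not_eq_true] at h
      refine Prod.ext (Prod.ext ht (Prod.ext (hpar t ht) (rec_none hx ht))) h
    obtain ⟨s, h1, h2⟩ := hz L K c _ (run_perW hx) hb (fun t ht => by
      have h3 := htag (t + 1) ht
      rw [run_b hx ht] at h3
      simp only [G3, Bool.and_eq_true, decide_eq_true_eq] at h3
      exact h3.2)
    exact ⟨s, eq_at hx h1 h2 (by rw [hpar _ h1, hpar _ h2]) (by rw [htag _ h1, htag _ h2])⟩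

theorem CFb_four (hδ : CFb δ b) (hu : RecPer u) (S z : R) (hz : Alt δ b u S z) :
    CFb (dC δ b u (Py S) (G4 z)) (bC b) := by
  classical
  apply CFb_iff_per
  intro L K c x hx hav
  by_cases hb : ∀ t, (x t).1.1 ≠ b
  · exact never hx hδ hu hb
  · push Not at hb
    have hKL : 0 < K * L := Nat.mul_pos hx.hK hx.hL
    have htag : ∀ t, (x t).1.1 = b → (x t).2 = !(x t).1.2.1 := by
      intro t ht
      obtain ⟨s, h1, _⟩ := pos_shift hx t
      have h2 : (x (s + 1)).1.1 = b := by rw [h1]; exact ht
      have h3 := run_b hx h2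
      rw [h1] at h3
      cases hp : (x t).1.2.1 with
      | false =>
        by_contra h
        rw [Bool.not_false, Bool.not_eq_true] at h
        apply hav t
        exact Prod.ext (Prod.ext ht (Prod.ext hp (rec_none hx ht))) h
      | true =>
        rw [h3] at hp ⊢
        simp only at hp ⊢
        have h4 : (x s).1.2.1 = false := by
          by_contra h5
          rw [Bool.not_eq_false] at h5
          rw [h5, Py_true] at hp
          exact absurd hp (by simp)
        rw [h4]; rfl
    obtain ⟨s, h1, h2, h3⟩ := hz L K c _ (fun t => (x t).1.2.1) (run_perW hx) hb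
      (fun t => by rw [hx.hp]) (fun t ht => by
        have h1 : (x (t + 1)).1.1 ≠ b := ht
        change (x (t + 1)).1.2.1 = (x t).1.2.1
        rw [run_nb hx h1]) (fun t ht => by
        have h1 : (x (t + 1)).1.1 = b := ht
        have h2 := htag (t + 1) h1
        have h3 := run_b hx h1
        change ((x t).1.2.1 = false ∧ u (x t).1.2.2 (c t) = S ∧ (x (t + 1)).1.2.1 = true) ∨
          ((x t).1.2.1 = true ∧ u (x t).1.2.2 (c t) = z ∧ (x (t + 1)).1.2.1 = false)
        cases hp : (x t).1.2.1 with
        | false =>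
          left
          refine ⟨rfl, ?_, ?_⟩
          · by_contra h4
            rw [h3, hp] at h2
            simp [Py, G4, h4] at h2
          · by_contra h4
            rw [Bool.not_eq_true] at h4
            rw [h4, h3, hp] at h2
            simp [G4] at h2
        | true =>
          right
          have h4 : (x (t + 1)).1.2.1 = false := by rw [h3, hp]; exact Py_true _ _
          refine ⟨rfl, ?_, h4⟩
          rw [h4, h3, hp] at h2
          simpa [G4] using h2)
    refine ⟨s, eq_at hx h1 h2 h3 ?_⟩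
    rw [htag _ h1, htag _ h2]
    have h3' : (x (s + L)).1.2.1 = (x s).1.2.1 := h3
    rw [h3']

end

end Pool.Agent.TH733.GSH.Gen
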