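import Pool.Agent.TH733.GSH.GenC

/-! Counting loops by types, and the letters read at the base state. -/

set_option autoImplicit false
set_option linter.unusedSectionVars false

namespace Pool.Agent.TH733.GSH.Gen

open Pool.Agent.H936R2.SH Pool.Agent.H815R3.GSH Pool.Agent.TH733.GSH

section

variable {Q α R : Type} (δ : Q → α → Q) (b : Q) (u : Option R → α → R) (r0 : R)

/-- indicator of the completion of a loop with a property of parity and type -/
noncomputable def ph (F : Bool → R → Prop) (x : Q × Bool × Option R) (a : α) : ℤ :=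
  iv (δ x.1 a = b ∧ F x.2.1 (u x.2.2 a))

open Classical in
/-- start state for the run starting at `p` -/
noncomputable def x0 (p : Q) : Q × Bool × Option R := (p, false, if p = b then none else some r0)

/-- number of completed loops with a property -/
noncomputable def CR (P : Bool → R → Bool) (F : Bool → R → Prop) (p : Q) (w : List α) : ℤ :=
  tc (dR δ b u P) (ph δ b u F) (x0 b r0 p) w

variable {δ b u}

theorem Ct_vis4 [Finite Q] [Finite α] [Finite R] {P G : Bool → R → Bool}
    (h : CFb (dC δ b u P G) (bC b)) (p : Q) :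
    Ct (CR δ b u r0 P (fun par τ => P par τ = false ∧ G par τ = false) p) := by
  classical
  refine Ct.congr (Ct_tc h (x0 b r0 p, false)) ?_
  intro w
  unfold CR
  rw [← tc_proj (dC δ b u P G) (dR δ b u P) Prod.fst (fun x a => rfl)
    (ph δ b u (fun par τ => P par τ = false ∧ G par τ = false)) (x0 b r0 p, false) w]
  apply tc_congr
  intro x a
  unfold ph
  have key : dC δ b u P G x a = bC b ↔ δ x.1.1 a = b ∧ P x.1.2.1 (u x.1.2.2 a) = false ∧
      G x.1.2.1 (u x.1.2.2 a) = false := by
    unfold dC dR bC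
    by_cases hc : δ x.1.1 a = b
    · rw [if_pos hc, if_pos hc]
      simp [hc]
    · rw [if_neg hc, if_neg hc]
      simp [hc]
  refine Eq.trans ?_ (iv_congr key)
  by_cases hk : dC δ b u P G x a = bC b
  · rw [iv_pos hk, if_pos hk]
  · rw [iv_neg hk, if_neg hk]

theorem Ct_all [Finite Q] [Finite α] (h : CFb δ b) (P : Bool → R → Bool) (p : Q) :
    Ct (CR δ b u r0 P (fun _ _ => True) p) := by
  classical
  refine Ct.congr (Ct_tc h p) ?_
  intro w
  unfold CR
  have hpr : ∀ (x : Q × Bool × Option R) (a : α), (dR δ b u P x a).1 = δ x.1 a := by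
    intro x a
    unfold dR
    split_ifs with hc
    · exact hc.symm
    · rfl
  have := tc_proj (dR δ b u P) δ Prod.fst hpr (fun x a => if δ x a = b then (1 : ℤ) else 0)
    (x0 b r0 p) w
  rw [show (x0 b r0 p : Q × Bool × Option R).1 = p from rfl] at this
  rw [← this]
  apply tc_congr
  intro x a
  unfold ph
  rw [← iv_eq]
  exact iv_congr (by simp)

theorem CR_par (P P' : Bool → R → Bool) (F : R → Prop) (p : Q) (w : List α) :
    CR δ b u r0 P (fun _ τ => F τ) p w = CR δ b u r0 P' (fun _ τ => F τ) p w := by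
  unfold CR
  have key : ∀ (w : List α) (x x' : Q × Bool × Option R), x.1 = x'.1 → x.2.2 = x'.2.2 →
      tc (dR δ b u P) (ph δ b u fun _ τ => F τ) x w =
        tc (dR δ b u P') (ph δ b u fun _ τ => F τ) x' w := by
    intro w
    induction w with
    | nil => intro x x' _ _; rfl
    | cons a w ih =>
      intro x x' h1 h2
      rw [tc, tc]
      congr 1
      · unfold ph; rw [h1, h2]
      · apply ih
        · unfold dR
          rw [h1]
          split_ifs <;> rfl
        · unfold dR
          rw [h1, h2]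
          split_ifs <;> rfl
  exact key w _ _ rfl rfl

theorem CR_congr (P : Bool → R → Bool) (F F' : Bool → R → Prop) (h : ∀ par τ, F par τ ↔ F' par τ)
    (p : Q) (w : List α) : CR δ b u r0 P F p w = CR δ b u r0 P F' p w := by
  have : F = F' := funext fun _ => funext fun _ => propext (h _ _)
  rw [this]

theorem Ct_R1 [Finite Q] [Finite α] [Finite R] (h : CFb δ b) (hu : RecPer u)
    (P : Bool → R → Bool) (z : R) (hz : Good δ b u z) (p : Q) :
    Ct (CR δ b u r0 P (fun _ τ => ¬ τ = z) p) := by
  refine Ct.congr (Ct_vis4 r0 (CFb_one h hu z hz) p) ?_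
  intro w
  rw [CR_par r0 P P0]
  apply CR_congr
  intro par τ
  simp [P0, G1]

theorem ph_not (F : Bool → R → Prop) (x : Q × Bool × Option R) (a : α) :
    ph δ b u (fun par τ => ¬ F par τ) x a = ph δ b u (fun _ _ => True) x a - ph δ b u F x a := by
  unfold ph
  by_cases h1 : δ x.1 a = b
  · by_cases h2 : F x.2.1 (u x.2.2 a)
    · rw [iv_neg (fun h => h.2 h2), iv_pos ⟨h1, trivial⟩, iv_pos ⟨h1, h2⟩]; ring
    · rw [iv_pos ⟨h1, h2⟩, iv_pos ⟨h1, trivial⟩, iv_neg (fun h => h2 h.2)]; ring
  · rw [iv_neg (fun h => h1 h.1), iv_neg (fun h => h1 h.1), iv_neg (fun h => h1 h.1)]; ring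

theorem Ct_good [Finite Q] [Finite α] [Finite R] (h : CFb δ b) (hu : RecPer u)
    (P : Bool → R → Bool) (z : R) (hz : Good δ b u z) (p : Q) :
    Ct (CR δ b u r0 P (fun _ τ => τ = z) p) := by
  refine Ct.congr ((Ct_all (u := u) r0 h P p).sub (Ct_R1 r0 h hu P z hz p)) ?_
  intro w
  unfold CR
  rw [← tc_sub]
  apply tc_congr
  intro x a
  rw [ph_not (fun _ τ => τ = z)]; ring

/-- loops of type `Z` read at parity `true` -/
theorem Ct_O [Finite Q] [Finite α] [Finite R] (h : CFb δ b) (hu : RecPer u) (S Z : R)
    (hSZ : Z ≠ S) (hz : Good δ b u Z ∨ Alt δ b u S Z) (p : Q) :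
    Ct (CR δ b u r0 (Py S) (fun par τ => par = true ∧ τ = Z) p) := by
  classical
  have h2 := Ct_vis4 r0 (CFb_two h hu S) p
  rcases hz with hz | hz
  · have h3 := Ct_vis4 r0 (CFb_three h hu S Z hz) p
    refine Ct.congr ((Ct_good r0 h hu (Py S) Z hz p).sub (h2.sub h3)) ?_
    intro w
    unfold CR
    rw [← tc_sub, ← tc_sub]
    apply tc_congr
    intro x a
    unfold ph
    by_cases hc : δ x.1 a = b
    swap
    · rw [iv_neg (fun h => hc h.1), iv_neg (fun h => hc h.1), iv_neg (fun h => hc h.1),
        iv_neg (fun h => hc h.1)]; ring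
    set τ := u x.2.2 a
    cases hpar : x.2.1 with
    | false =>
      by_cases hτ : τ = Z
      · have hS : ¬ τ = S := fun h => hSZ (hτ.symm.trans h)
        rw [iv_pos ⟨hc, hτ⟩, iv_pos (P := δ x.1 a = b ∧ _) ⟨hc, by simp [Py, hS, G0]⟩,
          iv_neg (P := δ x.1 a = b ∧ Py S false τ = false ∧ G3 Z false τ = false)
            (by simp [G3, hτ]), iv_neg (P := δ x.1 a = b ∧ false = true ∧ τ = Z) (by simp)]
        ring
      · rw [iv_neg (P := δ x.1 a = b ∧ τ = Z) (fun h => hτ h.2),
          iv_congr (P := δ x.1 a = b ∧ Py S false τ = false ∧ G3 Z false τ = false)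
            (P' := δ x.1 a = b ∧ Py S false τ = false ∧ G0 false τ = false)
            (by simp [G3, G0, hτ]), iv_neg (P := δ x.1 a = b ∧ false = true ∧ τ = Z) (by simp)]
        ring
    | true =>
      rw [iv_pos (P := δ x.1 a = b ∧ Py S true τ = false ∧ G0 true τ = false)
          ⟨hc, Py_true _ _, rfl⟩,
        iv_pos (P := δ x.1 a = b ∧ Py S true τ = false ∧ G3 Z true τ = false)
          ⟨hc, Py_true _ _, rfl⟩, iv_congr (P := δ x.1 a = b ∧ true = true ∧ τ = Z)
          (P' := δ x.1 a = b ∧ τ = Z) (by simp)]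
      ring
  · have h4 := Ct_vis4 r0 (CFb_four h hu S Z hz) p
    refine Ct.congr (h2.sub h4) ?_
    intro w
    unfold CR
    rw [← tc_sub]
    apply tc_congr
    intro x a
    unfold ph
    by_cases hc : δ x.1 a = b
    swap
    · rw [iv_neg (fun h => hc h.1), iv_neg (fun h => hc h.1), iv_neg (fun h => hc h.1)]; ring
    set τ := u x.2.2 a
    cases hpar : x.2.1 with
    | false =>
      rw [iv_congr (P := δ x.1 a = b ∧ Py S false τ = false ∧ G4 Z false τ = false)
        (P' := δ x.1 a = b ∧ Py S false τ = false ∧ G0 false τ = false)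
        (by simp [G4, G0]), iv_neg (P := δ x.1 a = b ∧ false = true ∧ τ = Z) (by simp)]
      ring
    | true =>
      rw [iv_pos (P := δ x.1 a = b ∧ Py S true τ = false ∧ G0 true τ = false)
          ⟨hc, Py_true _ _, rfl⟩]
      by_cases hτ : τ = Z
      · rw [iv_pos (P := δ x.1 a = b ∧ true = true ∧ τ = Z) ⟨hc, rfl, hτ⟩,
          iv_neg (by simp [G4, hτ])]
        ring
      · rw [iv_neg (P := δ x.1 a = b ∧ true = true ∧ τ = Z) (fun h => hτ h.2.2),
          iv_pos ⟨hc, Py_true _ _, by simp [G4, hτ]⟩]
        ring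

/-- the number of loops of type `S` -/
theorem Ct_type [Finite Q] [Finite α] [Finite R] (h : CFb δ b) (hu : RecPer u)
    (hGA : ∀ S Z : R, S ≠ Z → Good δ b u S ∨ Good δ b u Z ∨ Alt δ b u S Z) (S : R) (p : Q) :
    Ct (CR δ b u r0 P0 (fun _ τ => τ = S) p) := by
  classical
  by_cases hS : Good δ b u S
  · exact Ct_good r0 h hu P0 S hS p
  have hO : ∀ Z, Z ≠ S → Ct (CR δ b u r0 (Py S) (fun par τ => par = true ∧ τ = Z) p) := by
    intro Z hZ
    apply Ct_O r0 h hu S Z hZ
    rcases hGA S Z (Ne.symm hZ) with h1 | h1 | h1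
    · exact absurd h1 hS
    · exact Or.inl h1
    · exact Or.inr h1
  have := Fintype.ofFinite R
  have hT := Ct_all (u := u) r0 h (Py S) p
  have h2 := Ct_vis4 r0 (CFb_two h hu S) p
  have hF : Ct (fun w : List α => iv ((w.foldl (dR δ b u (Py S)) (x0 b r0 p)).2.1 = true)) := by
    refine Ct.congr (Ct_fin (CFb_two h hu S) (fun x : St4 Q R => iv (x.1.2.1 = true))
      (x0 b r0 p, false)) ?_
    intro w
    have : ∀ (w : List α) (x : St4 Q R), (w.foldl (dC δ b u (Py S) G0) x).1 =
        w.foldl (dR δ b u (Py S)) x.1 := by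
      intro w
      induction w with
      | nil => intro x; rfl
      | cons a w ih => intro x; rw [List.foldl_cons, ih]; rfl
    simp only [this]
  have hsum := ((((hT.sub h2).smul 2).sub hF)).sub
    (Ct.sum ((Finset.univ : Finset R).erase S) _ fun z hz => hO z (Finset.ne_of_mem_erase hz))
  refine Ct.congr hsum ?_
  intro w
  rw [CR_par r0 P0 (Py S)]
  have hF' : iv ((w.foldl (dR δ b u (Py S)) (x0 b r0 p)).2.1 = true) =
      tc (dR δ b u (Py S)) (fun x a => ph δ b u (fun par τ => Py S par τ = true) x a -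
        ph δ b u (fun par _ => par = true) x a) (x0 b r0 p) w := by
    rw [tc_tele (dR δ b u (Py S)) _ (fun x => iv (x.2.1 = true))]
    · rw [iv_neg (P := (x0 b r0 p : Q × Bool × Option R).2.1 = true) (by simp [x0])]
      ring
    · intro x a
      unfold ph dR
      by_cases hc : δ x.1 a = b
      · simp [hc]
      · simp [hc, iv_neg]
  rw [hF']
  unfold CR
  rw [← tc_sum, two_mul, ← tc_sub, ← tc_add, ← tc_sub, ← tc_sub]
  apply tc_congr
  intro x a
  by_cases hc : δ x.1 a = b
  swap
  · have hz : ∀ F : Bool → R → Prop, ph δ b u F x a = 0 := fun F => iv_neg fun h => hc h.1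
    simp only [hz]; simp
  set τ := u x.2.2 a with hτ
  have hph : ∀ F : Bool → R → Prop, ph δ b u F x a = iv (F x.2.1 τ) := by
    intro F
    exact iv_congr (by simp [hc, hτ])
  simp only [hph]
  rw [iv_pos (P := True) trivial]
  cases hpar : x.2.1 with
  | false =>
    have e0 : ∀ z ∈ (Finset.univ : Finset R).erase S, iv (false = true ∧ τ = z) = 0 :=
      fun z _ => iv_neg (by simp)
    rw [Finset.sum_congr rfl e0, Finset.sum_const_zero, iv_neg (P := false = true) (by simp)]
    by_cases h1 : τ = S
    · rw [iv_neg (P := Py S false τ = false ∧ G0 false τ = false) (by simp [Py, h1]),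
        iv_pos (P := Py S false τ = true) (by simp [Py, h1]), iv_pos h1]
      ring
    · rw [iv_pos (P := Py S false τ = false ∧ G0 false τ = false) (by simp [Py, h1, G0]),
        iv_neg (P := Py S false τ = true) (by simp [Py, h1]), iv_neg h1]
      ring
  | true =>
    have e0 : ∀ z ∈ (Finset.univ : Finset R).erase S, iv (true = true ∧ τ = z) =
        if τ = z then 1 else 0 := by
      intro z _
      by_cases h1 : τ = z
      · rw [iv_pos ⟨rfl, h1⟩, if_pos h1]
      · rw [iv_neg (fun h => h1 h.2), if_neg h1]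
    rw [Finset.sum_congr rfl e0, Finset.sum_ite_eq,
      iv_pos (P := Py S true τ = false ∧ G0 true τ = false) ⟨Py_true _ _, rfl⟩,
      iv_neg (P := Py S true τ = true) (by rw [Py_true]; simp), iv_pos (P := true = true) rfl]
    by_cases h1 : τ = S
    · rw [iv_pos h1, if_neg (by simp [h1])]; ring
    · rw [iv_neg h1, if_pos (by simp [h1])]; ring

/-- **Letters read at the base state.** -/
theorem Ct_read [Finite Q] [Finite α] [Finite R] (h : CFb δ b) (hu : RecPer u)
    (hGA : ∀ S Z : R, S ≠ Z → Good δ b u S ∨ Good δ b u Z ∨ Alt δ b u S Z)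
    (fst : R → Option α) (f1 : ∀ a, fst (u none a) = some a)
    (f2 : ∀ ρ a, fst (u (some ρ) a) = fst ρ) (f3 : fst r0 = none) (p : Q) (y : α) :
    Ct (tc δ (fun q a => iv (q = b ∧ a = y)) p) := by
  classical
  have := Fintype.ofFinite R
  have h1 := Ct.sum ((Finset.univ : Finset R).filter (fun τ => fst τ = some y)) _
    fun S _ => Ct_type r0 h hu hGA S p
  have hS : ∃ S : R, True := ⟨r0, trivial⟩
  have hF : Ct (fun w : List α =>
      iv (∃ ρ, (w.foldl (dR δ b u P0) (x0 b r0 p)).2.2 = some ρ ∧ fst ρ = some y)) := by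
    refine Ct.congr (Ct_fin (CFb_two h hu r0)
      (fun x : St4 Q R => iv (∃ ρ, x.1.2.2 = some ρ ∧ fst ρ = some y)) (x0 b r0 p, false)) ?_
    intro w
    have : ∀ (w : List α) (x : St4 Q R) (x' : Q × Bool × Option R), x.1.1 = x'.1 →
        x.1.2.2 = x'.2.2 → (w.foldl (dC δ b u (Py r0) G0) x).1.2.2 =
        (w.foldl (dR δ b u P0) x').2.2 := by
      intro w
      induction w with
      | nil => intro x x' _ h2; exact h2
      | cons a w ih =>
        intro x x' h1 h2
        rw [List.foldl_cons, List.foldl_cons]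
        apply ih
        · unfold dC dR
          rw [h1]
          split_ifs <;> rfl
        · unfold dC dR
          rw [h1, h2]
          split_ifs <;> rfl
    have h5 := this w (x0 b r0 p, false) (x0 b r0 p) rfl rfl
    change iv (∃ ρ, (w.foldl (dC δ b u (Py r0) G0) (x0 b r0 p, false)).1.2.2 = some ρ ∧
      fst ρ = some y) = _
    rw [h5]
  refine Ct.congr (h1.add hF) ?_
  have hsum : ∀ w, ∑ S ∈ (Finset.univ : Finset R).filter (fun τ => fst τ = some y),
      CR δ b u r0 P0 (fun _ τ => τ = S) p w = CR δ b u r0 P0 (fun _ τ => fst τ = some y) p w := by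
    intro w
    unfold CR
    rw [← tc_sum]
    apply tc_congr
    intro x a
    unfold ph
    by_cases hc : δ x.1 a = b
    · have e0 : ∀ z ∈ (Finset.univ : Finset R).filter (fun τ => fst τ = some y),
          iv (δ x.1 a = b ∧ u x.2.2 a = z) = if u x.2.2 a = z then 1 else 0 := by
        intro z _
        by_cases h1 : u x.2.2 a = z
        · rw [iv_pos ⟨hc, h1⟩, if_pos h1]
        · rw [iv_neg (fun h => h1 h.2), if_neg h1]
      rw [Finset.sum_congr rfl e0, Finset.sum_ite_eq]
      by_cases h1 : fst (u x.2.2 a) = some y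
      · rw [if_pos (by simp [h1]), iv_pos ⟨hc, h1⟩]
      · rw [if_neg (by simp [h1]), iv_neg (fun h => h1 h.2)]
    · rw [Finset.sum_congr rfl (fun z _ => iv_neg (fun h => hc h.1)), Finset.sum_const_zero,
        iv_neg (fun h => hc h.1)]
  have step : ∀ (x : Q × Bool × Option R) (a : α), (x.1 = b ↔ x.2.2 = none) →
      iv (x.1 = b ∧ a = y) = ph δ b u (fun _ τ => fst τ = some y) x a +
        iv (∃ ρ, (dR δ b u P0 x a).2.2 = some ρ ∧ fst ρ = some y) -
        iv (∃ ρ, x.2.2 = some ρ ∧ fst ρ = some y) := by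
    intro x a hx
    by_cases hc : δ x.1 a = b
    · have h3 : (dR δ b u P0 x a).2.2 = none := by unfold dR; rw [if_pos hc]
      rw [h3, iv_neg (P := ∃ ρ, (none : Option R) = some ρ ∧ fst ρ = some y) (by simp)]
      cases hr : x.2.2 with
      | none =>
        rw [iv_neg (P := ∃ ρ, (none : Option R) = some ρ ∧ fst ρ = some y) (by simp)]
        have : iv (x.1 = b ∧ a = y) = ph δ b u (fun _ τ => fst τ = some y) x a := by
          unfold ph
          apply iv_congr
          rw [hr]
          change x.1 = b ∧ a = y ↔ δ x.1 a = b ∧ fst (u none a) = some y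
          rw [f1, Option.some.injEq]
          exact ⟨fun h => ⟨hc, h.2⟩, fun h => ⟨hx.2 hr, h.2⟩⟩
        rw [this]; ring
      | some ρ =>
        have hb : ¬ x.1 = b := fun hb => by
          have := hx.1 hb
          rw [hr] at this
          exact absurd this (by simp)
        rw [iv_neg (fun h => hb h.1)]
        have : ph δ b u (fun _ τ => fst τ = some y) x a =
            iv (∃ ρ', some ρ = some ρ' ∧ fst ρ' = some y) := by
          unfold ph
          apply iv_congr
          rw [hr]
          change δ x.1 a = b ∧ fst (u (some ρ) a) = some y ↔ _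
          rw [f2]
          constructor
          · intro h; exact ⟨ρ, rfl, h.2⟩
          · rintro ⟨ρ', h1, h2⟩
            refine ⟨hc, ?_⟩
            rw [Option.some.inj h1]; exact h2
        rw [this]; ring
    · have h3 : (dR δ b u P0 x a).2.2 = some (u x.2.2 a) := by unfold dR; rw [if_neg hc]
      have h4 : ph δ b u (fun _ τ => fst τ = some y) x a = 0 := iv_neg fun h => hc h.1
      rw [h3, h4]
      cases hr : x.2.2 with
      | none =>
        rw [iv_neg (P := ∃ ρ, (none : Option R) = some ρ ∧ fst ρ = some y) (by simp)]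
        have : iv (x.1 = b ∧ a = y) = iv (∃ ρ, some (u none a) = some ρ ∧ fst ρ = some y) := by
          apply iv_congr
          constructor
          · rintro ⟨_, rfl⟩; exact ⟨_, rfl, f1 _⟩
          · rintro ⟨ρ, h1, h2⟩
            refine ⟨hx.2 hr, ?_⟩
            rw [← Option.some.inj h1, f1] at h2
            exact Option.some.inj h2
        rw [this]; ring
      | some ρ =>
        have hb : ¬ x.1 = b := fun hb => by
          have := hx.1 hb
          rw [hr] at this
          exact absurd this (by simp)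
        rw [iv_neg (fun h => hb h.1)]
        have : iv (∃ ρ', some (u (some ρ) a) = some ρ' ∧ fst ρ' = some y) =
            iv (∃ ρ', some ρ = some ρ' ∧ fst ρ' = some y) := by
          apply iv_congr
          constructor
          · rintro ⟨ρ', h1, h2⟩
            rw [← Option.some.inj h1, f2] at h2
            exact ⟨ρ, rfl, h2⟩
          · rintro ⟨ρ', h1, h2⟩
            rw [← Option.some.inj h1] at h2
            exact ⟨_, rfl, by rw [f2]; exact h2⟩
        rw [this]; ring
  have key : ∀ (w : List α) (x : Q × Bool × Option R), (x.1 = b ↔ x.2.2 = none) →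
      tc δ (fun q a => iv (q = b ∧ a = y)) x.1 w =
        tc (dR δ b u P0) (ph δ b u (fun _ τ => fst τ = some y)) x w +
        iv (∃ ρ, (w.foldl (dR δ b u P0) x).2.2 = some ρ ∧ fst ρ = some y) -
        iv (∃ ρ, x.2.2 = some ρ ∧ fst ρ = some y) := by
    intro w
    induction w with
    | nil => intro x _; simp [tc]
    | cons a w ih =>
      intro x hx
      have hinv : (dR δ b u P0 x a).1 = b ↔ (dR δ b u P0 x a).2.2 = none := by
        unfold dR
        by_cases hc : δ x.1 a = b <;> simp [hc]
      have hst : (dR δ b u P0 x a).1 = δ x.1 a := by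
        unfold dR
        split_ifs with hc
        · exact hc.symm
        · rfl
      have ih' := ih _ hinv
      rw [hst] at ih'
      rw [tc, tc, ih', List.foldl_cons, step x a hx]
      ring
  intro w
  have hk := key w (x0 b r0 p) (by
    unfold x0
    by_cases hp : p = b <;> simp [hp])
  have h0 : iv (∃ ρ, (x0 b r0 p : Q × Bool × Option R).2.2 = some ρ ∧ fst ρ = some y) = 0 := by
    apply iv_neg
    unfold x0
    by_cases hp : p = b <;> simp [hp, f3]
  rw [h0, sub_zero] at hk
  rw [hsum]
  exact hk.symm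

end

end Pool.Agent.TH733.GSH.Gen
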