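import Pool.Agent.TH733.GSH.Vis

/-! Two kinds of good arrivals for which the walk is counter-free away from the base. -/

set_option autoImplicit false
set_option linter.unusedSectionVars false

namespace Pool.Agent.TH733.GSH

open Pool.Agent.H936R2.SH Pool.Agent.H815R3.GSH

section walk

variable {α : Type} (σ : α → ℤ) (M : ℕ) (gd : Mem α M → α → Prop)

/-- no complete lap is good -/
def R0 : Prop := ∀ (m : Mem α M) (c : α), σ c ≠ 0 →
  (∀ j : ZMod M, j ≠ 0 → ∃ c', m j = some c' ∧ σ c' = σ c) → ¬ gd m c

variable (hs : ∀ a, σ a = 1 ∨ σ a = 0 ∨ σ a = -1)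

theorem cast_ne {M : ℕ} (X : ℤ) (h0 : 0 < X) (h1 : X < M) : ((X : ℤ) : ZMod M) ≠ 0 := by
  intro h
  rw [ZMod.intCast_zmod_eq_zero_iff_dvd] at h
  exact absurd (Int.le_of_dvd h0 h) (by omega)

theorem cast_ne' {M : ℕ} (ε X : ℤ) (hε : ε = 1 ∨ ε = -1) (h0 : 0 < ε * X) (h1 : ε * X < M) :
    ((X : ℤ) : ZMod M) ≠ 0 := by
  have h2 := cast_ne _ h0 h1
  intro h
  apply h2
  push_cast
  rw [h, mul_zero]

theorem cast_eps {M : ℕ} (ε X : ℤ) (hε : ε = 1 ∨ ε = -1) :
    ((ε * (ε * X) : ℤ) : ZMod M) = ((X : ℤ) : ZMod M) := by
  congr 1
  rcases hε with h | h <;> rw [h] <;> ring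

include hs

theorem inv_R0 [NeZero M] (hR : R0 σ M gd) (v : List α)
    (hv : Nv (dV σ M gd) (bs M) (zs M) v) :
    (lv σ v = 0 ∧ (v.foldl (dV σ M gd) (zs M)).1.2 = fun _ => none) ∨
    ∃ ε : ℤ, (ε = 1 ∨ ε = -1) ∧ 0 < ε * lv σ v ∧ ε * lv σ v < M ∧
      (∀ j : ℤ, 1 ≤ j → j ≤ ε * lv σ v →
        (v.foldl (dV σ M gd) (zs M)).1.2 ((ε * j : ℤ) : ZMod M) ≠ none) ∧
      (∀ i c, (v.foldl (dV σ M gd) (zs M)).1.2 i = some c → σ c = ε) := by
  induction v using List.reverseRecOn with
  | nil => left; exact ⟨lv_nil σ, rfl⟩
  | append_singleton v c ih =>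
    rw [Nv_app] at hv
    obtain ⟨hv1, hv2⟩ := hv
    have ih := ih hv1
    have hl : (v.foldl (dV σ M gd) (zs M)).1.1 = ((lv σ v : ℤ) : ZMod M) := by
      rw [runV_fst, run_fst]
      simp [zs]
    rw [List.foldl_append, List.foldl_cons, List.foldl_nil, lv_snoc]
    set x := v.foldl (dV σ M gd) (zs M) with hx
    have hstep : (dV σ M gd x c).1 = dU σ M x.1 c := rfl
    have hne : dV σ M gd x c ≠ bs M := hv2.1
    have hl' : x.1.1 + ((σ c : ℤ) : ZMod M) = ((lv σ v + σ c : ℤ) : ZMod M) := by
      rw [hl]; push_cast; rfl
    -- arrival at the level zero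
    have hzero : lv σ v + σ c = 0 → (lv σ v + σ c = 0 ∧ (dV σ M gd x c).1.2 = fun _ => none) := by
      intro h
      refine ⟨h, ?_⟩
      rw [hstep, dU_zero]
      rw [hl', h]; simp
    rcases ih with ⟨h0, hm⟩ | ⟨ε, hε, h1, h2, h3, h4⟩
    · rcases hs c with hc | hc | hc
      · -- up
        by_cases hM : (M : ℤ) ≤ 1
        · exfalso
          have hM1 : M = 1 := by
            have := NeZero.pos M
            omega
          have hg := arr_good σ M gd x c hne (by
            rw [hl', h0, hc]
            rw [hM1]
            exact Subsingleton.elim _ _)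
          apply hR _ _ (by rw [hc]; norm_num) _ hg
          intro j hj
          exfalso
          apply hj
          subst hM1
          exact Subsingleton.elim _ _
        · right
          have hne0 : x.1.1 + ((σ c : ℤ) : ZMod M) ≠ 0 := by
            rw [hl', h0, hc]
            exact cast_ne (0 + 1) (by norm_num) (by omega)
          refine ⟨1, Or.inl rfl, by omega, by omega, ?_, ?_⟩
          · intro j hj1 hj2
            have hj : j = 1 := by omega
            rw [hstep, dU_ne _ _ _ _ hne0]
            have : ((1 * j : ℤ) : ZMod M) = x.1.1 + ((σ c : ℤ) : ZMod M) := by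
              rw [hl', h0, hc, hj]; simp
            rw [this]
            exact up_self _ _ _ _
          · intro i c' hi
            rw [hstep, dU_ne _ _ _ _ hne0] at hi
            rcases up_some _ _ _ _ _ _ hi with h | ⟨h, _, _⟩
            · rw [hm] at h; simp at h
            · rw [h, hc]
      · left
        exact hzero (by omega)
      · -- down
        by_cases hM : (M : ℤ) ≤ 1
        · exfalso
          have hM1 : M = 1 := by
            have := NeZero.pos M
            omega
          have hg := arr_good σ M gd x c hne (by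
            rw [hl', h0, hc]
            rw [hM1]
            exact Subsingleton.elim _ _)
          apply hR _ _ (by rw [hc]; norm_num) _ hg
          intro j hj
          exfalso
          apply hj
          subst hM1
          exact Subsingleton.elim _ _
        · right
          have hne0 : x.1.1 + ((σ c : ℤ) : ZMod M) ≠ 0 := by
            rw [hl', h0, hc]
            exact cast_ne' (-1) (0 + -1) (Or.inr rfl) (by norm_num) (by omega)
          refine ⟨-1, Or.inr rfl, by omega, by omega, ?_, ?_⟩
          · intro j hj1 hj2
            have hj : j = 1 := by omega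
            rw [hstep, dU_ne _ _ _ _ hne0]
            have : ((-1 * j : ℤ) : ZMod M) = x.1.1 + ((σ c : ℤ) : ZMod M) := by
              rw [hl', h0, hc, hj]; simp
            rw [this]
            exact up_self _ _ _ _
          · intro i c' hi
            rw [hstep, dU_ne _ _ _ _ hne0] at hi
            rcases up_some _ _ _ _ _ _ hi with h | ⟨h, _, _⟩
            · rw [hm] at h; simp at h
            · rw [h, hc]
    · -- inside
      have hexp : ε * (lv σ v + σ c) = ε * lv σ v + ε * σ c := by ring
      have hkey : ∀ (hne0 : x.1.1 + ((σ c : ℤ) : ZMod M) ≠ 0),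
          (∀ j : ℤ, 1 ≤ j → j ≤ ε * lv σ v →
            (dV σ M gd x c).1.2 ((ε * j : ℤ) : ZMod M) ≠ none) := by
        intro hne0 j hj1 hj2
        rw [hstep, dU_ne _ _ _ _ hne0]
        simp only
        rw [up_mono _ _ _ _ _ (h3 j hj1 hj2)]
        exact h3 j hj1 hj2
      by_cases hc0 : ε * σ c = 1
      · -- away from zero
        have hc : σ c = ε := by
          rcases hε with h | h <;> rw [h] at hc0 ⊢ <;> omega
        by_cases hlast : ε * lv σ v + 1 = M
        · exfalso
          have h00 : x.1.1 + ((σ c : ℤ) : ZMod M) = 0 := by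
            rw [hl']
            have : lv σ v + σ c = ε * M := by
              rw [← hlast, hc]
              rcases hε with h | h <;> rw [h] <;> ring
            rw [this]; simp
          have hg := arr_good σ M gd x c hne h00
          apply hR _ _ _ _ hg
          · rw [hc]; rcases hε with h | h <;> rw [h] <;> norm_num
          · intro j hj
            have hjv : ∃ j' : ℤ, 1 ≤ j' ∧ j' ≤ ε * lv σ v ∧ ((ε * j' : ℤ) : ZMod M) = j := by
              rcases hε with h | h
              · refine ⟨(j.val : ℤ), ?_, ?_, ?_⟩
                · have : j.val ≠ 0 := by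
                    intro h'; rw [ZMod.val_eq_zero] at h'; exact hj h'
                  omega
                · have := ZMod.val_lt j
                  omega
                · rw [h, one_mul, Int.cast_natCast, ZMod.natCast_zmod_val]
              · refine ⟨((-j).val : ℤ), ?_, ?_, ?_⟩
                · have : (-j).val ≠ 0 := by
                    intro h'; rw [ZMod.val_eq_zero] at h'; exact hj (neg_eq_zero.1 h')
                  omega
                · have := ZMod.val_lt (-j)
                  omega
                · rw [h]
                  push_cast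
                  rw [ZMod.natCast_zmod_val]; ring
            obtain ⟨j', hj1, hj2, hj3⟩ := hjv
            have h5 := h3 j' hj1 hj2
            rw [hj3] at h5
            obtain ⟨c', hc'⟩ := Option.ne_none_iff_exists'.1 h5
            exact ⟨c', hc', by rw [h4 _ _ hc', hc]⟩
        · right
          have hne0 : x.1.1 + ((σ c : ℤ) : ZMod M) ≠ 0 := by
            rw [hl']
            exact cast_ne' ε _ hε (by omega) (by omega)
          refine ⟨ε, hε, by omega, by omega, ?_, ?_⟩
          · intro j hj1 hj2
            by_cases hj : j ≤ ε * lv σ v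
            · exact hkey hne0 j hj1 hj
            · have hj' : j = ε * (lv σ v + σ c) := by omega
              rw [hstep, dU_ne _ _ _ _ hne0]
              have : ((ε * j : ℤ) : ZMod M) = x.1.1 + ((σ c : ℤ) : ZMod M) := by
                rw [hj', cast_eps _ _ hε, hl']
              rw [this]
              exact up_self _ _ _ _
          · intro i c' hi
            rw [hstep, dU_ne _ _ _ _ hne0] at hi
            rcases up_some _ _ _ _ _ _ hi with h | ⟨h, _, _⟩
            · exact h4 _ _ h
            · rw [h, hc]
      · by_cases hz : ε * lv σ v + ε * σ c = 0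
        · left
          apply hzero
          rcases hε with h | h <;> rw [h] at hz <;> omega
        · right
          have hle : ε * σ c ≤ 0 ∧ -1 ≤ ε * σ c := by
            rcases hε with h | h <;> rw [h] at hc0 ⊢ <;> rcases hs c with h' | h' | h' <;>
              rw [h'] at hc0 ⊢ <;> omega
          have hne0 : x.1.1 + ((σ c : ℤ) : ZMod M) ≠ 0 := by
            rw [hl']
            exact cast_ne' ε _ hε (by omega) (by omega)
          refine ⟨ε, hε, by omega, by omega, ?_, ?_⟩
          · intro j hj1 hj2
            exact hkey hne0 j hj1 (by omega)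
          · intro i c' hi
            rw [hstep, dU_ne _ _ _ _ hne0] at hi
            have hvis : x.1.2 (x.1.1 + ((σ c : ℤ) : ZMod M)) ≠ none := by
              have := h3 (ε * (lv σ v + σ c)) (by omega) (by omega)
              rw [cast_eps _ _ hε] at this
              rwa [hl']
            rw [up_eq _ _ _ _ hvis] at hi
            exact h4 _ _ hi

theorem H_R0 [NeZero M] (hR : R0 σ M gd) (u : List α) (k : ℕ) (hk : 0 < k)
    (h1 : (List.replicate k u).flatten.foldl (dV σ M gd) (zs M) = zs M)
    (h2 : Nv (dV σ M gd) (bs M) (zs M) (List.replicate k u).flatten) :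
    ((lv σ u : ℤ) : ZMod M) = 0 := by
  have h3 := (Nv_iter _ _ _ _ h2 h1 M).1
  have h4 := inv_R0 σ M gd hs hR _ h3
  rw [lv_pow, lv_pow] at h4
  have hM := NeZero.pos M
  have h5 : lv σ u = 0 := by
    rcases h4 with ⟨h4, _⟩ | ⟨ε, hε, h4, h5, _⟩
    · rcases mul_eq_zero.1 h4 with h | h
      · omega
      · rcases mul_eq_zero.1 h with h | h
        · omega
        · exact h
    · exfalso
      have h6 : ε * ((M : ℤ) * (k * lv σ u)) = M * (ε * (k * lv σ u)) := by ring
      rw [h6] at h4 h5
      have h7 : 0 < ε * (k * lv σ u) := by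
        by_contra h
        have : (M : ℤ) * (ε * (k * lv σ u)) ≤ 0 :=
          mul_nonpos_of_nonneg_of_nonpos (by omega) (by omega)
        omega
      have h8 : (M : ℤ) * 1 ≤ M * (ε * (k * lv σ u)) :=
        mul_le_mul_of_nonneg_left (by omega) (by omega)
      omega
  rw [h5]; simp

end walk

end Pool.Agent.TH733.GSH
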