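import Pool.Agent.TH733.GSH.Inv

/-! Good arrivals are the ends of the laps which enter the new levels by the letters of a
primitive pattern. -/

set_option autoImplicit false
set_option linter.unusedSectionVars false

namespace Pool.Agent.TH733.GSH

open Pool.Agent.H936R2.SH Pool.Agent.H815R3.GSH

section records

variable {α : Type} (σ : α → ℤ)

/-- one step of the list of the records -/
def rcs (x : ℤ × List α) (c : α) : ℤ × List α :=
  (x.1 + σ c, if (x.2.length : ℤ) < x.1 + σ c then x.2 ++ [c] else x.2)

/-- the letters by which new positive levels are entered for the first time -/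
def rc (w : List α) : List α := (w.foldl (rcs σ) (0, [])).2

theorem rcs_fst (w : List α) : (w.foldl (rcs σ) (0, [])).1 = lv σ w := by
  induction w using List.reverseRecOn with
  | nil => rfl
  | append_singleton w c ih =>
    rw [List.foldl_append, List.foldl_cons, List.foldl_nil, lv_snoc, rcs, ih]

theorem rc_nil : rc σ [] = [] := rfl

theorem rc_snoc (w : List α) (c : α) :
    rc σ (w ++ [c]) = if ((rc σ w).length : ℤ) < lv σ w + σ c then rc σ w ++ [c] else rc σ w := by
  unfold rc
  rw [List.foldl_append, List.foldl_cons, List.foldl_nil, rcs, rcs_fst]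

variable (hs : ∀ a, σ a = 1 ∨ σ a = 0 ∨ σ a = -1)

include hs

theorem rc_le (w : List α) : lv σ w ≤ (rc σ w).length := by
  induction w using List.reverseRecOn with
  | nil => simp [lv_nil, rc_nil]
  | append_singleton w c ih =>
    rw [rc_snoc, lv_snoc]
    split_ifs with h
    · rw [List.length_append, List.length_singleton]
      push_cast
      rcases hs c with h' | h' | h' <;> rw [h'] at h ⊢ <;> omega
    · omega

theorem rc_append (u v : List α) (h : lv σ u = (rc σ u).length) :
    rc σ (u ++ v) = rc σ u ++ rc σ v := by
  induction v using List.reverseRecOn with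
  | nil => simp [rc_nil]
  | append_singleton v c ih =>
    rw [← List.append_assoc, rc_snoc, rc_snoc, ih, lv_append]
    have e : (((rc σ u ++ rc σ v).length : ℤ) < lv σ u + lv σ v + σ c) ↔
        (((rc σ v).length : ℤ) < lv σ v + σ c) := by
      rw [List.length_append, h]
      push_cast
      constructor <;> intro h <;> omega
    by_cases h' : ((rc σ v).length : ℤ) < lv σ v + σ c
    · rw [if_pos (e.2 h'), if_pos h', List.append_assoc]
    · rw [if_neg (fun h'' => h' (e.1 h'')), if_neg h']

theorem rc_len (u v : List α) : lv σ u + (rc σ v).length ≤ (rc σ (u ++ v)).length := by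
  induction v using List.reverseRecOn with
  | nil =>
    rw [List.append_nil, rc_nil]
    have := rc_le σ hs u
    simpa using this
  | append_singleton v c ih =>
    rw [← List.append_assoc]
    have hle := rc_le σ hs (u ++ v ++ [c])
    have hmono : (rc σ (u ++ v)).length ≤ (rc σ (u ++ v ++ [c])).length := by
      rw [rc_snoc σ (u ++ v)]
      split_ifs <;> simp
    rw [rc_snoc σ v]
    split_ifs with h
    · rw [List.length_append, List.length_singleton]
      rw [lv_snoc, lv_append] at hle
      push_cast
      omega
    · omega

theorem rc_pow (n : ℕ) (u : List α) (h : lv σ u = (rc σ u).length) :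
    rc σ (List.replicate n u).flatten = (List.replicate n (rc σ u)).flatten := by
  induction n with
  | zero => rfl
  | succ n ih =>
    rw [List.replicate_succ, List.flatten_cons, rc_append σ hs _ _ h, ih, List.replicate_succ,
      List.flatten_cons]

omit hs in
theorem pow_per (n : ℕ) (r : List α) (i : ℕ) (hi : i + r.length < n * r.length) :
    (List.replicate n r).flatten[i + r.length]? = (List.replicate n r).flatten[i]? := by
  have hn : 0 < n := by
    rcases Nat.eq_zero_or_pos n with h | h
    · subst h; omega
    · exact h
  have h1 := pow_succ_left n hn r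
  have h2 := pow_succ_right n hn r
  have hlen : (List.replicate (n - 1) r).flatten.length = (n - 1) * r.length := by
    simp
  have e1 : (List.replicate n r).flatten[i + r.length]? =
      (List.replicate (n - 1) r).flatten[i]? := by
    rw [h1, List.getElem?_append_right (by omega)]
    congr 1
    omega
  have e2 : (List.replicate n r).flatten[i]? = (List.replicate (n - 1) r).flatten[i]? := by
    rw [h2, List.getElem?_append_left]
    rw [hlen]
    have : n * r.length = (n - 1) * r.length + r.length := by
      obtain ⟨n, rfl⟩ : ∃ n', n = n' + 1 := ⟨n - 1, by omega⟩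
      simp only [Nat.add_sub_cancel]; ring
    omega
  rw [e1, e2]

end records

section walk

variable {α : Type} (σ : α → ℤ) (M : ℕ) (B : ZMod M → α)

/-- the lap enters its levels by the letters of the pattern -/
def gB (m : Mem α M) (c : α) : Prop := c = B 0 ∧ ∀ j : ZMod M, j ≠ 0 → m j = some (B j)

variable (hs : ∀ a, σ a = 1 ∨ σ a = 0 ∨ σ a = -1)

include hs

theorem inv_B [NeZero M] (hM : 2 ≤ M) (hB : ∀ j, σ (B j) = 1) (v : List α)
    (hv : Nv (dV σ M (gB M B)) (bs M) (zs M) v) :
    ((v.foldl (dV σ M (gB M B)) (zs M)).1.1 ≠ 0 ∧
      ∃ j c', j ≠ 0 ∧ (v.foldl (dV σ M (gB M B)) (zs M)).1.2 j = some c' ∧ σ c' = -1) ∨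
    ∃ m : ℕ, m * M ≤ (rc σ v).length ∧ (rc σ v).length < m * M + M ∧
      (∀ i : ℕ, i < m * M → (rc σ v)[i]? = some (B ((i + 1 : ℕ) : ZMod M))) ∧
      (∀ j : ℕ, 1 ≤ j → j < M → (v.foldl (dV σ M (gB M B)) (zs M)).1.2 ((j : ℕ) : ZMod M) =
        (rc σ v)[m * M + j - 1]?) ∧
      (((m * M : ℕ) : ℤ) < lv σ v ∨ (lv σ v = ((m * M : ℕ) : ℤ) ∧ (rc σ v).length = m * M)) := by
  induction v using List.reverseRecOn with
  | nil =>
    right
    refine ⟨0, by simp, by rw [rc_nil]; simp; omega, by simp, ?_, Or.inr ⟨by simp [lv_nil],
      by simp [rc_nil]⟩⟩
    intro j _ _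
    simp [zs, rc_nil]
  | append_singleton v c ih =>
    rw [Nv_app] at hv
    obtain ⟨hv1, hv2⟩ := hv
    have ih := ih hv1
    have hl : (v.foldl (dV σ M (gB M B)) (zs M)).1.1 = ((lv σ v : ℤ) : ZMod M) := by
      rw [runV_fst, run_fst]
      simp [zs]
    have hle := rc_le σ hs v
    rw [List.foldl_append, List.foldl_cons, List.foldl_nil, lv_snoc, rc_snoc]
    set x := v.foldl (dV σ M (gB M B)) (zs M) with hx
    have hstep : (dV σ M (gB M B) x c).1 = dU σ M x.1 c := rfl
    have hne : dV σ M (gB M B) x c ≠ bs M := hv2.1
    have hl' : x.1.1 + ((σ c : ℤ) : ZMod M) = ((lv σ v + σ c : ℤ) : ZMod M) := by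
      rw [hl]; push_cast; rfl
    have hgood := arr_good σ M (gB M B) x c hne
    rw [hl'] at hgood
    -- an arrival at the level zero is by a letter going up
    have hup : ((lv σ v + σ c : ℤ) : ZMod M) = 0 → σ c = 1 := by
      intro h
      rw [(hgood h).1]; exact hB 0
    rcases ih with ⟨h0, j, c', hj, hjc, hc'⟩ | ⟨m, h1, h2, h3, h4, h5⟩
    · by_cases hz : ((lv σ v + σ c : ℤ) : ZMod M) = 0
      · exfalso
        have := (hgood hz).2 j hj
        rw [hjc] at this
        have h6 := hB j
        rw [← Option.some.inj this, hc'] at h6
        norm_num at h6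
      · left
        rw [hstep, dU_ne _ _ _ _ (by rw [hl']; exact hz)]
        refine ⟨by rw [hl']; exact hz, j, c', hj, ?_, hc'⟩
        simp only
        rw [up_mono _ _ _ _ _ (by rw [hjc]; simp), hjc]
    · -- casts relative to the lap
      have hcast : ∀ X : ℤ, ((X : ℤ) : ZMod M) = ((X - ((m * M : ℕ) : ℤ) : ℤ) : ZMod M) := by
        intro X; push_cast; simp
      have hcne : ∀ X : ℤ, ((m * M : ℕ) : ℤ) < X → X < ((m * M : ℕ) : ℤ) + M →
          ((X : ℤ) : ZMod M) ≠ 0 := by
        intro X hX1 hX2
        rw [hcast]
        exact cast_ne _ (by omega) (by omega)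
      have hvisit : ∀ X : ℤ, ((m * M : ℕ) : ℤ) < X → X < ((m * M : ℕ) : ℤ) + M →
          x.1.2 ((X : ℤ) : ZMod M) = (rc σ v)[(X - 1).toNat]? := by
        intro X hX1 hX2
        have := h4 (X - ((m * M : ℕ) : ℤ)).toNat (by omega) (by omega)
        have e1 : (((X - ((m * M : ℕ) : ℤ)).toNat : ℕ) : ZMod M) = ((X : ℤ) : ZMod M) := by
          rw [hcast X, ← Int.cast_natCast, Int.toNat_of_nonneg (by omega)]
        have e2 : m * M + (X - ((m * M : ℕ) : ℤ)).toNat - 1 = (X - 1).toNat := by omega
        rw [e1, e2] at this
        exact this
      have hmM0 : (((m * M : ℕ) : ℤ) : ZMod M) = 0 := by push_cast; simp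
      rcases hs c with hc | hc | hc
      · -- up
        by_cases hrec : ((rc σ v).length : ℤ) < lv σ v + σ c
        · -- a record
          rw [if_pos hrec]
          have hLr : lv σ v = (rc σ v).length := by omega
          by_cases hlast : (rc σ v).length + 1 = m * M + M
          · -- the end of the lap
            have hz : ((lv σ v + σ c : ℤ) : ZMod M) = 0 := by
              rw [hLr, hc, hcast]
              have : (((rc σ v).length : ℤ) + 1 - ((m * M : ℕ) : ℤ)) = M := by omega
              rw [this]; simp
            have hg := hgood hz
            right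
            have hmm : (m + 1) * M = m * M + M := by ring
            refine ⟨m + 1, ?_, ?_, ?_, ?_, Or.inr ⟨?_, ?_⟩⟩
            · rw [List.length_append, List.length_singleton]; omega
            · rw [List.length_append, List.length_singleton]; omega
            · intro i hi
              rcases Nat.lt_or_ge i (m * M) with h | h
              · rw [List.getElem?_append_left (by omega)]
                exact h3 i h
              · rcases Nat.lt_or_ge i (rc σ v).length with h' | h'
                · rw [List.getElem?_append_left h']
                  have h7 := h4 (i + 1 - m * M) (by omega) (by omega)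
                  have e1 : m * M + (i + 1 - m * M) - 1 = i := by omega
                  rw [e1] at h7
                  rw [← h7]
                  have hne' : (((i + 1 - m * M : ℕ) : ℕ) : ZMod M) ≠ 0 := by
                    have := cast_ne (M := M) ((i + 1 - m * M : ℕ) : ℤ) (by omega) (by omega)
                    simpa using this
                  rw [hg.2 _ hne']
                  congr 2
                  have : i + 1 = (i + 1 - m * M) + m * M := by omega
                  conv_rhs => rw [this]
                  push_cast; simp
                · have hi' : i = (rc σ v).length := by omega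
                  rw [hi', List.getElem?_append_right le_rfl]
                  simp only [Nat.sub_self, List.getElem?_cons_zero]
                  rw [hg.1, hlast]
                  congr 2
                  push_cast; simp
            · intro j hj1 hj2
              rw [hstep, dU_zero _ _ _ _ (by rw [hl']; exact hz)]
              symm
              rw [List.getElem?_eq_none_iff, List.length_append, List.length_singleton]
              omega
            · omega
            · rw [List.length_append, List.length_singleton]; omega
          · -- inside the lap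
            right
            have hne0 : ((lv σ v + σ c : ℤ) : ZMod M) ≠ 0 := hcne _ (by omega) (by omega)
            refine ⟨m, ?_, ?_, ?_, ?_, Or.inl ?_⟩
            · rw [List.length_append, List.length_singleton]; omega
            · rw [List.length_append, List.length_singleton]; omega
            · intro i hi
              rw [List.getElem?_append_left (by omega)]
              exact h3 i hi
            · intro j hj1 hj2
              rw [hstep, dU_ne _ _ _ _ (by rw [hl']; exact hne0)]
              simp only
              rw [hl']
              have hv0 := hvisit (lv σ v + σ c) (by omega) (by omega)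
              have hv0' : x.1.2 ((lv σ v + σ c : ℤ) : ZMod M) = none := by
                rw [hv0, List.getElem?_eq_none_iff]; omega
              by_cases hj : m * M + j - 1 = (rc σ v).length
              · have e1 : ((j : ℕ) : ZMod M) = ((lv σ v + σ c : ℤ) : ZMod M) := by
                  rw [hcast (lv σ v + σ c)]
                  have : lv σ v + σ c - ((m * M : ℕ) : ℤ) = (j : ℤ) := by omega
                  rw [this]; simp
                rw [e1, up_none _ _ _ _ hv0', hj, List.getElem?_append_right le_rfl]
                simp
              · have e1 : ((j : ℕ) : ZMod M) ≠ ((lv σ v + σ c : ℤ) : ZMod M) := by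
                  rw [hcast (lv σ v + σ c)]
                  intro h
                  have h8 : (((j : ℤ) - (lv σ v + σ c - ((m * M : ℕ) : ℤ)) : ℤ) : ZMod M) = 0 := by
                    rw [Int.cast_sub, ← h]; simp
                  rcases lt_trichotomy (j : ℤ) (lv σ v + σ c - ((m * M : ℕ) : ℤ)) with h9 | h9 | h9
                  · apply cast_ne' (M := M) (-1) _ (Or.inr rfl) _ _ h8 <;> omega
                  · omega
                  · apply cast_ne' (M := M) 1 _ (Or.inl rfl) _ _ h8 <;> omega
                rw [up_ne _ _ _ _ _ e1, h4 j hj1 hj2]
                rcases Nat.lt_or_ge (m * M + j - 1) (rc σ v).length with h | h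
                · rw [List.getElem?_append_left h]
                · rw [List.getElem?_eq_none_iff.2 h, eq_comm, List.getElem?_eq_none_iff,
                    List.length_append, List.length_singleton]
                  omega
            · omega
        · -- no record
          rw [if_neg hrec]
          right
          rcases h5 with h5 | ⟨h5, h6⟩
          · have hne0 : ((lv σ v + σ c : ℤ) : ZMod M) ≠ 0 := hcne _ (by omega) (by omega)
            refine ⟨m, h1, h2, h3, ?_, Or.inl (by omega)⟩
            intro j hj1 hj2
            rw [hstep, dU_ne _ _ _ _ (by rw [hl']; exact hne0)]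
            simp only
            rw [up_eq, h4 j hj1 hj2]
            rw [hl', hvisit (lv σ v + σ c) (by omega) (by omega)]
            rw [Ne, List.getElem?_eq_none_iff]; omega
          · omega
      · -- zero
        have hrec : ¬ ((rc σ v).length : ℤ) < lv σ v + σ c := by omega
        rw [if_neg hrec]
        right
        have hnz : ((lv σ v + σ c : ℤ) : ZMod M) ≠ 0 := by
          intro h
          have := hup h
          omega
        rcases h5 with h5 | ⟨h5, h6⟩
        · refine ⟨m, h1, h2, h3, ?_, Or.inl (by omega)⟩
          intro j hj1 hj2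
          rw [hstep, dU_ne _ _ _ _ (by rw [hl']; exact hnz)]
          simp only
          rw [up_eq, h4 j hj1 hj2]
          rw [hl', hvisit (lv σ v + σ c) (by omega) (by omega)]
          rw [Ne, List.getElem?_eq_none_iff]; omega
        · exfalso
          apply hnz
          rw [h5, hc, add_zero]
          exact hmM0
      · -- down
        have hrec : ¬ ((rc σ v).length : ℤ) < lv σ v + σ c := by omega
        rw [if_neg hrec]
        have hnz : ((lv σ v + σ c : ℤ) : ZMod M) ≠ 0 := by
          intro h
          have := hup h
          omega
        rcases h5 with h5 | ⟨h5, h6⟩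
        · right
          have hne' : lv σ v + σ c ≠ ((m * M : ℕ) : ℤ) := by
            intro h
            apply hnz
            rw [h]
            exact hmM0
          refine ⟨m, h1, h2, h3, ?_, Or.inl (by omega)⟩
          intro j hj1 hj2
          rw [hstep, dU_ne _ _ _ _ (by rw [hl']; exact hnz)]
          simp only
          rw [up_eq, h4 j hj1 hj2]
          rw [hl', hvisit (lv σ v + σ c) (by omega) (by omega)]
          rw [Ne, List.getElem?_eq_none_iff]; omega
        · left
          rw [hstep, dU_ne _ _ _ _ (by rw [hl']; exact hnz)]
          have hm1 : x.1.1 + ((σ c : ℤ) : ZMod M) = (((M - 1 : ℕ) : ℕ) : ZMod M) := by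
            rw [hl', h5, hc]
            rw [Nat.cast_sub (by omega)]
            push_cast; simp
          have hnone : x.1.2 (x.1.1 + ((σ c : ℤ) : ZMod M)) = none := by
            rw [hm1, h4 (M - 1) (by omega) (by omega), List.getElem?_eq_none_iff]
            omega
          refine ⟨by rw [hl']; exact hnz, x.1.1 + ((σ c : ℤ) : ZMod M), c, by rw [hl']; exact hnz,
            ?_, hc⟩
          exact up_none _ _ _ _ hnone

theorem H_B [NeZero M] (hM : 2 ≤ M) (hB : ∀ j, σ (B j) = 1)
    (hprim : ∀ e : ZMod M, (∀ j, B (j + e) = B j) → e = 0) (u : List α) (k : ℕ) (hk : 0 < k)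
    (h1 : (List.replicate k u).flatten.foldl (dV σ M (gB M B)) (zs M) = zs M)
    (h2 : Nv (dV σ M (gB M B)) (bs M) (zs M) (List.replicate k u).flatten) :
    ((lv σ u : ℤ) : ZMod M) = 0 := by
  have key : ∀ N : ℕ, ∀ w : List α, w = (List.replicate (k * N) u).flatten →
      lv σ w = (rc σ w).length ∧ ∀ i : ℕ, i < (rc σ w).length →
        (rc σ w)[i]? = some (B ((i + 1 : ℕ) : ZMod M)) := by
    intro N w hw
    have h3 := Nv_iter _ _ _ _ h2 h1 N
    have h4 : (List.replicate N (List.replicate k u).flatten).flatten = w := by
      rw [hw]
      clear h3 hw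
      induction N with
      | zero => simp
      | succ N ih =>
        rw [List.replicate_succ, List.flatten_cons, ih, Nat.mul_succ, Nat.add_comm (k * N) k,
          List.replicate_add, List.flatten_append]
    rw [h4] at h3
    have hz : (w.foldl (dV σ M (gB M B)) (zs M)).1.1 = 0 := by rw [h3.2]; rfl
    rcases inv_B σ M B hs hM hB w h3.1 with ⟨h5, _⟩ | ⟨m, h5, h6, h7, _, h8⟩
    · exact absurd hz h5
    · rcases h8 with h8 | ⟨h8, h9⟩
      · exfalso
        rw [runV_fst, run_fst] at hz
        have h10 : ((lv σ w : ℤ) : ZMod M) = 0 := by
          have : (zs M : (ZMod M × Mem α M) × Bool).1.1 = 0 := rfl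
          rw [this, zero_add] at hz
          exact hz
        have hle := rc_le σ hs w
        apply cast_ne (M := M) (lv σ w - ((m * M : ℕ) : ℤ)) (by omega) (by omega)
        push_cast
        rw [h10]; simp
      · exact ⟨by omega, fun i hi => h7 i (by omega)⟩
  have hlen : ∀ N : ℕ, 0 < N → lv σ u = (rc σ u).length := by
    intro N _
    obtain ⟨h3, _⟩ := key 1 _ rfl
    rw [mul_one] at h3
    have h4 := rc_len σ hs (List.replicate (k - 1) u).flatten u
    rw [← pow_succ_right k hk, ← h3, lv_pow, lv_pow] at h4
    have h5 := rc_le σ hs u
    have h6 : (((k - 1 : ℕ) : ℤ)) * lv σ u = k * lv σ u - lv σ u := by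
      rw [Nat.cast_sub (by omega)]; push_cast; ring
    omega
  have hd := hlen 1 one_pos
  by_cases hd0 : (rc σ u).length = 0
  · rw [hd, hd0]; simp
  · have hd1 : 0 < (rc σ u).length := by omega
    obtain ⟨h3, h4⟩ := key (M + 1) _ rfl
    rw [rc_pow σ hs _ _ hd] at h4
    have hlen2 : (List.replicate (k * (M + 1)) (rc σ u)).flatten.length =
        k * (M + 1) * (rc σ u).length := by simp
    rw [hlen2] at h4
    have hbig : M + (rc σ u).length ≤ k * (M + 1) * (rc σ u).length := by
      calc M + (rc σ u).length ≤ M * (rc σ u).length + (rc σ u).length := by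
            have := Nat.mul_le_mul_left M hd1
            omega
        _ = 1 * (M + 1) * (rc σ u).length := by ring
        _ ≤ k * (M + 1) * (rc σ u).length := by
            apply Nat.mul_le_mul_right
            exact Nat.mul_le_mul_right _ hk
    apply hprim
    intro j
    obtain ⟨i, hi1, hi2⟩ : ∃ i : ℕ, i < M ∧ ((i + 1 : ℕ) : ZMod M) = j := by
      refine ⟨(j - 1).val, ZMod.val_lt _, ?_⟩
      push_cast
      rw [ZMod.natCast_zmod_val]; ring
    have e1 := h4 i (by omega)
    have e2 := h4 (i + (rc σ u).length) (by omega)
    rw [pow_per _ _ _ (by omega), e1] at e2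
    have e3 := Option.some.inj e2
    rw [hi2] at e3
    rw [e3]
    congr 1
    rw [← hi2, hd]
    push_cast; ring

end walk

end Pool.Agent.TH733.GSH
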