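import Pool.Agent.TH733.GSH.Per

/-! Covers of an automaton which record the type of the current loop at the base state `b` (its
first letter, and whether it is a power of that letter), a parity bit and a tag; the base state of
the cover has parity and tag `false`. -/

set_option autoImplicit false
set_option linter.unusedSectionVars false

namespace Pool.Agent.TH733.GSH

open Pool.Agent.H936R2.SH Pool.Agent.H815R3.GSH

section

variable {Q α : Type}

/-- types of loops: first letter (`none` for an initial part of a run) and purity -/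
abbrev Ty (α : Type) := Option α × Bool

open Classical in
/-- update of the record by a letter -/
noncomputable def rs (ρ : Option (Ty α)) (x : α) : Ty α :=
  match ρ with
  | none => (some x, true)
  | some τ => (τ.1, τ.2 && decide (τ.1 = some x))

theorem rs_none (x : α) : rs none x = (some x, true) := rfl

open Classical in
theorem rs_some (τ : Ty α) (x : α) : rs (some τ) x = (τ.1, τ.2 && decide (τ.1 = some x)) := rfl

variable (δ : Q → α → Q) (b : Q) (P G : Bool → Ty α → Bool)

/-- states of the cover: state, parity, record, tag -/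
abbrev St4 (Q α : Type) := (Q × Bool × Option (Ty α)) × Bool

open Classical in
/-- the automaton with parity and record -/
noncomputable def dR (x : Q × Bool × Option (Ty α)) (a : α) : Q × Bool × Option (Ty α) :=
  if δ x.1 a = b then (b, P x.2.1 (rs x.2.2 a), none) else (δ x.1 a, x.2.1, some (rs x.2.2 a))

open Classical in
/-- the cover -/
noncomputable def dC (x : St4 Q α) (a : α) : St4 Q α :=
  (dR δ b P x.1 a, if δ x.1.1 a = b then G x.1.2.1 (rs x.1.2.2 a) else x.2)

/-- the base state of the cover -/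
def bC : St4 Q α := ((b, false, none), false)

variable {δ b P G}

section run

variable {L K : ℕ} {c : ℕ → α} {x : ℕ → St4 Q α} (hx : Per (dC δ b P G) L K c x)

include hx

omit hx in
theorem rs_pure (a a' : α) (p : Bool) : ∃ p', rs (some (some a, p)) a' = (some a, p') ∧
    (p' = true ↔ p = true ∧ a' = a) := by
  classical
  refine ⟨_, rs_some _ _, ?_⟩
  rw [Bool.and_eq_true, decide_eq_true_eq, Option.some.injEq]
  constructor
  · rintro ⟨h1, h2⟩; exact ⟨h1, h2.symm⟩
  · rintro ⟨h1, h2⟩; exact ⟨h1, h2.symm⟩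

theorem run_q (t : ℕ) : (x (t + 1)).1.1 = δ (x t).1.1 (c t) := by
  rw [hx.hq, dC, dR]
  split_ifs with h
  · exact h.symm
  · rfl

theorem run_per : Per δ L K c (fun t => (x t).1.1) :=
  ⟨hx.hL, hx.hK, hx.hc, run_q hx, fun t => by rw [hx.hp]⟩

theorem run_b {t : ℕ} (h : (x (t + 1)).1.1 = b) :
    x (t + 1) = ((b, P (x t).1.2.1 (rs (x t).1.2.2 (c t)), none),
      G (x t).1.2.1 (rs (x t).1.2.2 (c t))) := by
  rw [run_q hx] at h
  rw [hx.hq, dC, dR, if_pos h, if_pos h]

theorem run_nb {t : ℕ} (h : (x (t + 1)).1.1 ≠ b) :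
    x (t + 1) = ((δ (x t).1.1 (c t), (x t).1.2.1, some (rs (x t).1.2.2 (c t))), (x t).2) := by
  rw [run_q hx] at h
  rw [hx.hq, dC, dR, if_neg h, if_neg h]

theorem pos_shift (t : ℕ) : ∃ s, x (s + 1) = x t ∧ c (s + 1) = c t := by
  refine ⟨t + K * L - 1, ?_⟩
  have hKL : 0 < K * L := Nat.mul_pos hx.hK hx.hL
  rw [show t + K * L - 1 + 1 = t + K * L by omega]
  exact ⟨hx.hp t, per_mul c L hx.hc t K⟩

theorem rec_none {t : ℕ} (h : (x t).1.1 = b) : (x t).1.2.2 = none := by
  obtain ⟨s, hs, _⟩ := pos_shift hx t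
  rw [← hs] at h ⊢
  rw [run_b hx h]

theorem rec_some {t : ℕ} (h : (x t).1.1 ≠ b) : ∃ τ, (x t).1.2.2 = some τ := by
  obtain ⟨s, hs, _⟩ := pos_shift hx t
  rw [← hs] at h ⊢
  exact ⟨_, by rw [run_nb hx h]⟩

/-- the situation inside a loop -/
theorem inside {s : ℕ} (hs : (x s).1.1 = b) (n : ℕ)
    (h : ∀ i, 0 < i → i ≤ n → (x (s + i)).1.1 ≠ b) (hn : 0 < n) :
    (x (s + n)).1.2.1 = (x s).1.2.1 ∧ (x (s + n)).2 = (x s).2 ∧
      ∃ p, (x (s + n)).1.2.2 = some (some (c s), p) ∧
        (p = true ↔ ∀ i, i < n → c (s + i) = c s) := by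
  induction n with
  | zero => omega
  | succ n ih =>
    have h1 := run_nb hx (t := s + n) (h (n + 1) (by omega) le_rfl)
    rw [show s + n + 1 = s + (n + 1) by omega] at h1
    rcases Nat.eq_zero_or_pos n with rfl | hn'
    · rw [h1]
      refine ⟨rfl, rfl, true, ?_, ?_⟩
      · rw [Nat.add_zero, rec_none hx hs, rs_none]
      · simp only [true_iff]
        intro i hi
        have : i = 0 := by omega
        subst this; rfl
    · obtain ⟨e1, e2, p, e3, e4⟩ := ih (fun i h2 h3 => h i h2 (by omega)) hn'
      obtain ⟨p', e5, e6⟩ := rs_pure (c s) (c (s + n)) p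
      rw [h1]
      refine ⟨e1, e2, p', ?_, ?_⟩
      · simp only [e3, e5]
      · rw [e6, e4]
        constructor
        · rintro ⟨h5, h6⟩ i hi
          rcases Nat.lt_or_ge i n with h7 | h7
          · exact h5 i h7
          · have : i = n := by omega
            rw [this, h6]
        · intro h5
          exact ⟨fun i hi => h5 i (by omega), h5 n (by omega)⟩

/-- the next visit of `b` -/
theorem next {s : ℕ} (hs : (x s).1.1 = b) : ∃ n, (∀ i, 0 < i → i ≤ n → (x (s + i)).1.1 ≠ b) ∧
    ∃ p : Bool, x (s + n + 1) = ((b, P (x s).1.2.1 (some (c s), p), none),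
      G (x s).1.2.1 (some (c s), p)) ∧
      (p = true ↔ ∀ i, i ≤ n → c (s + i) = c s) ∧
      ∀ i, i ≤ n → (x (s + i)).1.2.1 = (x s).1.2.1 := by
  classical
  have hex : ∃ n, (x (s + n + 1)).1.1 = b := by
    refine ⟨K * L - 1, ?_⟩
    have hKL : 0 < K * L := Nat.mul_pos hx.hK hx.hL
    rw [show s + (K * L - 1) + 1 = s + K * L by omega, hx.hp]
    exact hs
  have hmin : ∀ i, 0 < i → i ≤ Nat.find hex → (x (s + i)).1.1 ≠ b := by
    intro i h0 h1 h2
    refine Nat.find_min hex (m := i - 1) (by omega) ?_
    rw [show s + (i - 1) + 1 = s + i by omega]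
    exact h2
  refine ⟨Nat.find hex, hmin, ?_⟩
  have hfb := Nat.find_spec hex
  have h1 := run_b hx hfb
  set n := Nat.find hex
  rcases Nat.eq_zero_or_pos n with hn | hn
  · rw [hn] at h1 ⊢
    simp only [Nat.add_zero, rec_none hx hs, rs_none] at h1
    refine ⟨true, ?_, ?_, ?_⟩
    · rw [Nat.add_zero]; exact h1
    · simp only [true_iff]
      intro i hi
      have : i = 0 := by omega
      subst this; rfl
    · intro i hi
      have : i = 0 := by omega
      subst this; rfl
  · obtain ⟨e1, e2, p, e3, e4⟩ := inside hx hs n hmin hn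
    obtain ⟨p', e5, e6⟩ := rs_pure (c s) (c (s + n)) p
    rw [e1, e3, e5] at h1
    refine ⟨p', h1, ?_, ?_⟩
    · rw [e6, e4]
      constructor
      · rintro ⟨h5, h6⟩ i hi
        rcases Nat.lt_or_ge i n with h7 | h7
        · exact h5 i h7
        · have : i = n := by omega
          rw [this, h6]
      · intro h5
        exact ⟨fun i hi => h5 i (by omega), h5 n le_rfl⟩
    · intro i hi
      rcases Nat.eq_zero_or_pos i with rfl | hi0
      · rfl
      · exact (inside hx hs i (fun j h1 h2 => hmin j h1 (by omega)) hi0).1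

/-- runs which never visit `b` -/
theorem never (hδ : CFb δ b) (hb : ∀ t, (x t).1.1 ≠ b) : ∃ s, x (s + L) = x s := by
  have hq : ∀ t, (x (t + L)).1.1 = (x t).1.1 := CFb_per hδ (run_per hx) hb
  have hpar : ∀ t n, (x (t + n)).1.2.1 = (x t).1.2.1 := by
    intro t n
    induction n with
    | zero => rfl
    | succ n ih => rw [← add_assoc, run_nb hx (hb _)]; exact ih
  have htag : ∀ t n, (x (t + n)).2 = (x t).2 := by
    intro t n
    induction n with
    | zero => rfl
    | succ n ih => rw [← add_assoc, run_nb hx (hb _)]; exact ih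
  have hrec : ∀ t, (x (t + 1)).1.2.2 = (x t).1.2.2 := by
    intro t
    obtain ⟨τ, hτ⟩ := rec_some hx (hb t)
    have h1 : ∀ n, ∃ p, (x (t + 1 + n)).1.2.2 = some (τ.1, p) ∧
        (p = true → rs (some τ) (c t) = (τ.1, true)) := by
      intro n
      induction n with
      | zero =>
        rw [Nat.add_zero, run_nb hx (hb _), hτ]
        exact ⟨_, rfl, fun h => by rw [rs_some]; rw [h]⟩
      | succ n ih =>
        obtain ⟨p, h2, h3⟩ := ih
        rw [← add_assoc, run_nb hx (hb _), h2]
        refine ⟨_, rfl, fun h => h3 ?_⟩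
        rw [Bool.and_eq_true] at h
        exact h.1
    have hKL : 0 < K * L := Nat.mul_pos hx.hK hx.hL
    obtain ⟨p, h2, h3⟩ := h1 (K * L - 1)
    rw [show t + 1 + (K * L - 1) = t + K * L by omega, hx.hp, hτ, Option.some.injEq] at h2
    rw [run_nb hx (hb _), hτ]
    change some (rs (some τ) (c t)) = some τ
    congr 1
    cases hp : p with
    | true =>
      rw [h3 hp, h2, hp]
    | false =>
      rw [rs_some, h2, hp, Bool.false_and]
  have hrec' : ∀ t n, (x (t + n)).1.2.2 = (x t).1.2.2 := by
    intro t n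
    induction n with
    | zero => rfl
    | succ n ih => rw [← add_assoc, hrec, ih]
  refine ⟨0, ?_⟩
  exact Prod.ext (Prod.ext (hq 0) (Prod.ext (hpar 0 L) (hrec' 0 L))) (htag 0 L)

end run

end

end Pool.Agent.TH733.GSH
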