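import Pool.Agent.TH733.GSH.LoopC

/-! Four covers which are counter-free away from the base state. -/

set_option autoImplicit false
set_option linter.unusedSectionVars false

namespace Pool.Agent.TH733.GSH

open Pool.Agent.H936R2.SH Pool.Agent.H815R3.GSH

section

variable {Q α : Type}

open Classical in
/-- parity of a block of loops `y ^ n` -/
noncomputable def Py (y : α) (par : Bool) (τ : Ty α) : Bool :=
  if τ = (some y, true) then !par else false

/-- no parity -/
def P0 (_ : Bool) (_ : Ty α) : Bool := false

/-- no tag -/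
def G0 (_ : Bool) (_ : Ty α) : Bool := false

open Classical in
/-- tag of the impure loops starting with `z` -/
noncomputable def G1 (z : Option α) (_ : Bool) (τ : Ty α) : Bool := decide (τ = (z, false))

open Classical in
/-- tag of the impure loops starting with `z`, read at parity `false` -/
noncomputable def G3 (z : Option α) (par : Bool) (τ : Ty α) : Bool :=
  !par && decide (τ = (z, false))

open Classical in
/-- tag of the pure loops not starting with `y`, read at parity `true` -/
noncomputable def Gp (y : α) (par : Bool) (τ : Ty α) : Bool :=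
  par && (τ.2 && decide (τ.1 ≠ some y))

theorem Py_true (y : α) (τ : Ty α) : Py y true τ = false := by
  unfold Py; split_ifs <;> rfl

variable {δ : Q → α → Q} {b : Q}

theorem CFb_two (hδ : CFb δ b) (y : α) : CFb (dC δ b (Py y) G0) (bC b) := by
  apply CFb_iff_per
  intro L K c x hx hav
  by_cases hb : ∀ t, (x t).1.1 ≠ b
  · exact never hx hδ hb
  · exfalso
    push Not at hb
    obtain ⟨s, hs⟩ := hb
    obtain ⟨n, _, p, h1, _, _⟩ := next hx hs
    have hs' : (x (s + n + 1)).1.1 = b := by rw [h1]
    obtain ⟨n', _, p', h2, _, _⟩ := next hx hs'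
    cases hpar : (x (s + n + 1)).1.2.1 with
    | false =>
      apply hav (s + n + 1)
      rw [h1] at hpar ⊢
      simp only at hpar
      rw [hpar]; rfl
    | true =>
      apply hav (s + n + 1 + n' + 1)
      rw [h2, hpar, Py_true]; rfl

theorem aux_Z {P G : Bool → Ty α → Bool} (hP : OnlyPow δ b) {L K : ℕ} {c : ℕ → α}
    {x : ℕ → St4 Q α} (hx : Per (dC δ b P G) L K c x) (z : Option α) (s : ℕ)
    (hs : (x s).1.1 = b)
    (h : ∀ t, (x t).1.1 = b → (x t).1.2.1 = false ∧ (x t).2 = true ∧ some (c t) = z ∧
      ∃ i, c (t + i) ≠ c t) : ∃ s, x (s + L) = x s := by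
  by_cases hq : ∀ t, (x (t + L)).1.1 = (x t).1.1
  · refine ⟨s, ?_⟩
    have hs' : (x (s + L)).1.1 = b := by rw [hq, hs]
    obtain ⟨h1, h2, _, _⟩ := h s hs
    obtain ⟨h3, h4, _, _⟩ := h _ hs'
    refine Prod.ext (Prod.ext (hq s) (Prod.ext ?_ ?_)) ?_
    · rw [h1, h3]
    · rw [rec_none hx hs, rec_none hx hs']
    · rw [h2, h4]
  · exfalso
    push Not at hq
    obtain ⟨h1, h2, h3, i, hi⟩ := h s hs
    have h4 := hP (c s) L K c _ (run_per hx) (fun t ht => by
      have := (h t ht).2.2.1
      rw [← h3] at this
      exact Option.some.inj this) hq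
    exact hi (h4 _)

theorem CFb_one (hδ : CFb δ b) (hP : OnlyPow δ b) (z : Option α) :
    CFb (dC δ b P0 (G1 z)) (bC b) := by
  classical
  apply CFb_iff_per
  intro L K c x hx hav
  by_cases hb : ∀ t, (x t).1.1 ≠ b
  · exact never hx hδ hb
  · push Not at hb
    obtain ⟨s, hs⟩ := hb
    have hpar : ∀ t, (x t).1.1 = b → (x t).1.2.1 = false := by
      intro t ht
      obtain ⟨s, h1, _⟩ := pos_shift hx t
      rw [← h1] at ht ⊢
      rw [run_b hx ht]; rfl
    have htag : ∀ t, (x t).1.1 = b → (x t).2 = true := by
      intro t ht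
      by_contra h
      apply hav t
      rw [Bool.not_eq_true] at h
      refine Prod.ext (Prod.ext ht (Prod.ext (hpar t ht) (rec_none hx ht))) h
    refine aux_Z hP hx z s hs fun t ht => ⟨hpar t ht, htag t ht, ?_⟩
    obtain ⟨n, _, p, h1, h2, _⟩ := next hx ht
    have h3 : (x (t + n + 1)).2 = true := htag _ (by rw [h1])
    rw [h1] at h3
    simp only [G1, decide_eq_true_eq, Prod.mk.injEq] at h3
    refine ⟨h3.1, ?_⟩
    by_contra hne
    push Not at hne
    have := h2.2 (fun i _ => hne i)
    rw [this] at h3
    exact absurd h3.2 (by simp)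

theorem CFb_three (hδ : CFb δ b) (hP : OnlyPow δ b) (y : α) (z : Option α) :
    CFb (dC δ b (Py y) (G3 z)) (bC b) := by
  classical
  apply CFb_iff_per
  intro L K c x hx hav
  by_cases hb : ∀ t, (x t).1.1 ≠ b
  · exact never hx hδ hb
  · push Not at hb
    obtain ⟨s, hs⟩ := hb
    have hpar : ∀ t, (x t).1.1 = b → (x t).1.2.1 = false := by
      intro t ht
      by_contra h
      rw [Bool.not_eq_false] at h
      obtain ⟨n, _, p, h1, _, _⟩ := next hx ht
      apply hav (t + n + 1)
      rw [h1, h, Py_true, G3]; rfl
    have htag : ∀ t, (x t).1.1 = b → (x t).2 = true := by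
      intro t ht
      by_contra h
      apply hav t
      rw [Bool.not_eq_true] at h
      refine Prod.ext (Prod.ext ht (Prod.ext (hpar t ht) (rec_none hx ht))) h
    refine aux_Z hP hx z s hs fun t ht => ⟨hpar t ht, htag t ht, ?_⟩
    obtain ⟨n, _, p, h1, h2, _⟩ := next hx ht
    have h3 : (x (t + n + 1)).2 = true := htag _ (by rw [h1])
    rw [h1, hpar t ht] at h3
    simp only [G3, Bool.not_false, Bool.true_and, decide_eq_true_eq, Prod.mk.injEq] at h3
    refine ⟨h3.1, ?_⟩
    by_contra hne
    push Not at hne
    have := h2.2 (fun i _ => hne i)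
    rw [this] at h3
    exact absurd h3.2 (by simp)

theorem CFb_pure (hδ : CFb δ b) (y : α) : CFb (dC δ b (Py y) (Gp y)) (bC b) := by
  classical
  apply CFb_iff_per
  intro L K c x hx hav
  by_cases hb : ∀ t, (x t).1.1 ≠ b
  · exact never hx hδ hb
  · push Not at hb
    obtain ⟨s0, hs0⟩ := hb
    have hKL : 0 < K * L := Nat.mul_pos hx.hK hx.hL
    -- the tag at `b` is the negation of the parity
    have htag : ∀ t, (x t).1.1 = b → (x t).2 = !(x t).1.2.1 := by
      intro t ht
      obtain ⟨s, h1, _⟩ := pos_shift hx t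
      have h2 : (x (s + 1)).1.1 = b := by rw [h1]; exact ht
      have h3 := run_b hx h2
      rw [h1] at h3
      cases hp : (x t).1.2.1 with
      | false =>
        by_contra h
        rw [Bool.not_false, Bool.not_eq_true] at h
        apply hav t
        exact Prod.ext (Prod.ext ht (Prod.ext hp (rec_none hx ht))) h
      | true =>
        rw [h3] at hp ⊢
        simp only at hp ⊢
        have h4 : (x s).1.2.1 = false := by
          by_contra h5
          rw [Bool.not_eq_false] at h5
          rw [h5, Py_true] at hp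
          exact absurd hp (by simp)
        rw [h4]; rfl
    -- a loop
    have hloop : ∀ t, (x t).1.1 = b → ∃ n, (x (t + n + 1)).1.1 = b ∧
        (x (t + n + 1)).1.2.1 = !(x t).1.2.1 ∧
        ∀ i, i ≤ n → (x (t + i)).1.2.1 = (x t).1.2.1 ∧
          (c (t + i) = y ↔ (x t).1.2.1 = false) := by
      intro t ht
      obtain ⟨n, _, p, h1, h2, h3⟩ := next hx ht
      have hb' : (x (t + n + 1)).1.1 = b := by rw [h1]
      have hne := hav (t + n + 1)
      refine ⟨n, hb', ?_, ?_⟩
      · cases hp : (x t).1.2.1 with
        | false =>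
          rw [h1, hp]
          simp only [Bool.not_false]
          by_contra h4
          rw [Bool.not_eq_true] at h4
          apply hne
          rw [h1, hp, h4]; rfl
        | true => rw [h1, hp]; simp only [Py_true, Bool.not_true]
      · cases hp : (x t).1.2.1 with
        | false =>
          have h4 : (some (c t), p) = ((some y, true) : Ty α) := by
            by_contra h5
            apply hne
            rw [h1, hp, Py, if_neg h5]; rfl
          rw [Prod.mk.injEq, Option.some.injEq] at h4
          intro i hi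
          refine ⟨by rw [h3 i hi, hp], ?_⟩
          rw [h2.1 h4.2 i hi, h4.1]
          simp
        | true =>
          have h4 : p = true ∧ some (c t) ≠ some y := by
            have h5 : Gp y true (some (c t), p) = true := by
              by_contra h6
              rw [Bool.not_eq_true] at h6
              apply hne
              rw [h1, hp, Py_true, h6]; rfl
            simpa [Gp] using h5
          intro i hi
          refine ⟨by rw [h3 i hi, hp], ?_⟩
          rw [h2.1 h4.1 i hi]
          constructor
          · intro h5; exact absurd (congrArg some h5) h4.2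
          · intro h5; exact absurd h5 (by simp)
    -- letters and parities
    have hlet0 : ∀ n, (∃ s, s0 + n = s ∧ (x s).1.1 = b) ∨
        (∃ s m, s0 + n = s + m ∧ (x s).1.1 = b ∧ (x (s + m)).1.2.1 = (x s).1.2.1 ∧ 
          ∃ k, m ≤ k ∧ (x (s + k + 1)).1.1 = b ∧ ∀ i, i ≤ k → (x (s + i)).1.2.1 = (x s).1.2.1 ∧
          (c (s + i) = y ↔ (x s).1.2.1 = false)) := by
      intro n
      induction n with
      | zero => left; exact ⟨s0, rfl, hs0⟩
      | succ n ih =>
        rcases ih with ⟨s, h1, h2⟩ | ⟨s, m, h1, h2, h3, k, h4, h5, h6⟩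
        · obtain ⟨k, h3, h4, h5⟩ := hloop s h2
          rcases Nat.eq_zero_or_pos k with rfl | hk
          · left
            exact ⟨s + 1, by omega, h3⟩
          · right
            exact ⟨s, 1, by omega, h2, (h5 1 hk).1, k, hk, h3, h5⟩
        · rcases Nat.lt_or_ge m k with h7 | h7
          · right
            exact ⟨s, m + 1, by omega, h2, (h6 (m + 1) h7).1, k, h7, h5, h6⟩
          · left
            have : m = k := by omega
            subst this
            exact ⟨s + m + 1, by omega, h5⟩
    have hlet1 : ∀ n, (c (s0 + n) = y ↔ (x (s0 + n)).1.2.1 = false) := by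
      intro n
      rcases hlet0 n with ⟨s, h1, h2⟩ | ⟨s, m, h1, h2, h3, k, h4, h5, h6⟩
      · rw [h1]
        obtain ⟨k, _, _, h5⟩ := hloop s h2
        have := (h5 0 (Nat.zero_le _)).2
        rwa [Nat.add_zero] at this
      · rw [h1, h3]
        exact (h6 m h4).2
    have hlet : ∀ t, (c t = y ↔ (x t).1.2.1 = false) := by
      intro t
      have h1 := hlet1 (t + s0 * (K * L) - s0)
      have hge : s0 ≤ s0 * (K * L) := Nat.le_mul_of_pos_right _ hKL
      rw [show s0 + (t + s0 * (K * L) - s0) = t + s0 * (K * L) by omega, hx.shift] at h1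
      rw [← h1]
      have h2 := per_mul c L hx.hc t (s0 * K)
      rw [show s0 * K * L = s0 * (K * L) by ring] at h2
      rw [h2]
    have hparL : ∀ t, (x (t + L)).1.2.1 = (x t).1.2.1 := by
      intro t
      have h1 := hlet t
      have h2 := hlet (t + L)
      rw [hx.hc, h1] at h2
      cases h3 : (x t).1.2.1 <;> cases h4 : (x (t + L)).1.2.1 <;> simp [h3, h4] at h2 ⊢
    obtain ⟨n, hn1, hn2, hn3⟩ := hloop s0 hs0
    have hch : (x (s0 + n)).1.2.1 ≠ (x (s0 + n + 1)).1.2.1 := by
      rw [hn2, (hn3 n le_rfl).1]
      cases (x s0).1.2.1 <;> simp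
    refine ⟨s0 + n + 1, ?_⟩
    have hb2 : (x (s0 + n + 1 + L)).1.1 = b := by
      by_contra hne
      rw [show s0 + n + 1 + L = s0 + n + L + 1 by omega] at hne
      have h1 := run_nb hx hne
      apply hch
      rw [← hparL (s0 + n), ← hparL (s0 + n + 1), show s0 + n + 1 + L = s0 + n + L + 1 by omega, h1]
    refine Prod.ext (Prod.ext ?_ (Prod.ext (hparL _) ?_)) ?_
    · rw [hb2, hn1]
    · rw [rec_none hx hb2, rec_none hx hn1]
    · rw [htag _ hb2, htag _ hn1, hparL]

end

end Pool.Agent.TH733.GSH
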