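import Pool.Agent.TH733.GSH.Pol
import Pool.Agent.H815R3.GSH.Solv

/-! Languages recognised by a metabelian nilpotent group of class at most four. -/

set_option autoImplicit false
set_option linter.unusedSectionVars false
set_option linter.style.haveILetI false

namespace Pool.Agent.TH733.GSH

open Pool.Agent.H936R2.SH Pool.Agent.H815R3.GSH
open scoped commutatorElement

/-! ### Products over the positions of a letter -/

section prods

variable {α A : Type} [CommGroup A]

open Classical in
/-- the product of `F` over the beginnings before the occurrences of the letter `v` -/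
noncomputable def SG (F : List α → A) (v : α) (w : List α) : A :=
  ∏ i ∈ Finset.range w.length, if w[i]? = some v then F (w.take i) else 1

theorem SG_nil (F : List α → A) (v : α) : SG F v [] = 1 := by simp [SG]

open Classical in
theorem SG_snoc (F : List α → A) (v : α) (w : List α) (c : α) :
    SG F v (w ++ [c]) = SG F v w * if c = v then F w else 1 := by
  unfold SG
  rw [List.length_append, List.length_singleton, Finset.prod_range_succ]
  congr 1
  · apply Finset.prod_congr rfl
    intro i hi
    rw [Finset.mem_range] at hi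
    rw [List.take_append_of_le_length (by omega), List.getElem?_append_left hi]
  · rw [List.getElem?_append_right (le_refl _)]
    simp

theorem SG_pow (a : A) (h : List α → ℤ) (v : α) (w : List α) :
    SG (fun u => a ^ h u) v w = a ^ Sy h v w := by
  classical
  induction w using List.reverseRecOn with
  | nil => simp [SG_nil, Sy_nil]
  | append_singleton w c ih =>
    rw [SG_snoc, Sy_snoc, ih, zpow_add]
    split_ifs <;> simp

theorem SG_mul (F F' : List α → A) (v : α) (w : List α) :
    SG (fun u => F u * F' u) v w = SG F v w * SG F' v w := by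
  classical
  induction w using List.reverseRecOn with
  | nil => simp [SG_nil]
  | append_singleton w c ih =>
    rw [SG_snoc, SG_snoc, SG_snoc, ih]
    split_ifs
    · simp only [mul_assoc, mul_left_comm]
    · simp

/-- products of powers with polynomial exponents -/
inductive PF (d : ℕ) : (List α → A) → Prop
  | pw (a : A) {h : List α → ℤ} : Pl d h → PF d (fun u => a ^ h u)
  | mul {F F' : List α → A} : PF d F → PF d F' → PF d (fun u => F u * F' u)

theorem PF.congr {d : ℕ} {F F' : List α → A} (h : PF d F) (hh : ∀ u, F u = F' u) : PF d F' := by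
  have : F = F' := funext hh
  rwa [← this]

theorem PF.one (d : ℕ) : PF d (fun _ : List α => (1 : A)) :=
  (PF.pw (1 : A) (Pl.one d)).congr fun u => by simp

theorem Dt_PF [Finite α] [Finite A] (v : α) {F : List α → A} (h : PF 3 F) : Dt (SG F v) := by
  induction h with
  | @pw a h hh =>
    have h1 := Dt.zpow a (CS_Pl v hh)
    have h2 : (fun w => a ^ Sy h v w) = SG (fun u => a ^ h u) v :=
      funext fun w => (SG_pow a h v w).symm
    rw [← h2]
    exact h1
  | @mul F F' _ _ h1 h2 =>
    have h3 : (fun w => SG F v w * SG F' v w) = SG (fun u => F u * F' u) v :=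
      funext fun w => (SG_mul F F' v w).symm
    rw [← h3]
    exact h1.mul h2

/-! ### Unipotent actions -/

variable {G : Type} [Group G] (T : G →* Monoid.End A)

/-- difference -/
def Df (g : G) (n : A) : A := T g n * n⁻¹

theorem T_eq (g : G) (n : A) : T g n = n * Df T g n := by
  unfold Df
  rw [mul_comm n, mul_assoc, inv_mul_cancel, mul_one]

/-- the differences of order `i` vanish -/
def lev : ℕ → A → Prop
  | 0, n => n = 1
  | i + 1, n => ∀ g : G, lev i (Df T g n)

theorem Df_one (g : G) : Df T g 1 = 1 := by simp [Df]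

theorem lev_succ (i : ℕ) (n : A) (h : lev T i n) : lev T (i + 1) n := by
  induction i generalizing n with
  | zero =>
    intro g
    have h' : n = 1 := h
    rw [h']
    exact Df_one T g
  | succ i ih =>
    intro g
    exact ih _ (h g)

theorem lev_add (k : ℕ) : ∀ (i : ℕ) (n : A), lev T i n → lev T (i + k) n := by
  induction k with
  | zero => intro i n h; exact h
  | succ k ih => intro i n h; exact lev_succ T _ _ (ih i n h)

theorem lev_three (i : ℕ) (hi : i ≤ 3) (n : A) (h : lev T i n) : lev T 3 n := by
  have := lev_add T (3 - i) i n h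
  rwa [Nat.add_sub_cancel' hi] at this

theorem T_pow (g : G) (n : A) (h : lev T 3 n) (c : ℕ) :
    T (g ^ c) n = n * Df T g n ^ (c : ℤ) * Df T g (Df T g n) ^ b2 c := by
  have h3 : Df T g (Df T g (Df T g n)) = 1 := h g g g
  induction c with
  | zero => simp [b2]
  | succ c ih =>
    have e1 : T (g ^ (c + 1)) n = T g (T (g ^ c) n) := by
      rw [pow_succ', map_mul]; rfl
    rw [e1, ih, map_mul, map_mul, map_zpow, map_zpow, T_eq T g n, T_eq T g (Df T g n),
      T_eq T g (Df T g (Df T g n)), h3, mul_one, b2, zpow_add, mul_zpow]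
    push_cast
    rw [zpow_add, zpow_one]
    generalize Df T g n = m1
    generalize Df T g m1 = m2
    simp only [mul_assoc, mul_comm]

variable (hT : ∀ g h : G, T (g * h) = T (h * g)) (g : α → G)

open Classical in
/-- the word product of the letters of a set -/
noncomputable def Wd (s : Finset α) (u : List α) : G := (u.map fun z => if z ∈ s then g z else 1).prod

theorem Wd_nil (s : Finset α) : Wd g s [] = 1 := rfl

open Classical in
theorem Wd_snoc (s : Finset α) (u : List α) (c : α) :
    Wd g s (u ++ [c]) = Wd g s u * (if c ∈ s then g c else 1) := by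
  unfold Wd
  rw [List.map_append, List.prod_append]
  simp

include hT in
theorem Wd_insert [DecidableEq α] (s : Finset α) (z : α) (hz : z ∉ s) (u : List α) :
    T (Wd g (insert z s) u) = T (Wd g s u * g z ^ cP (fun c => c = z) u) := by
  classical
  induction u using List.reverseRecOn with
  | nil => simp [Wd_nil, cP_nil]
  | append_singleton u c ih =>
    rw [Wd_snoc, Wd_snoc, map_mul, ih, cP_snoc]
    by_cases hc : c = z
    · subst hc
      rw [if_pos (Finset.mem_insert_self _ _), if_neg hz, if_pos rfl, mul_one, pow_succ,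
        ← map_mul, mul_assoc]
    · by_cases hcs : c ∈ s
      · rw [if_pos (Finset.mem_insert_of_mem hcs), if_pos hcs, if_neg hc, add_zero, ← map_mul,
          mul_assoc, mul_assoc, map_mul, hT (g z ^ cP (fun c => c = z) u) (g c), ← map_mul]
      · rw [if_neg (fun h => (Finset.mem_insert.1 h).elim hc hcs), if_neg hcs, if_neg hc,
          add_zero, map_one, mul_one, mul_one]

include hT in
theorem PF_act (s : Finset α) : ∀ (i : ℕ) (n : A), i ≤ 3 → lev T i n →
    ∀ (d e : ℕ) (h : List α → ℤ), Pl d h → (i = 0 ∨ d + i ≤ e + 1) →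
    PF e (fun u => (T (Wd g s u) n) ^ h u) := by
  classical
  induction s using Finset.induction_on with
  | empty =>
    intro i n _ hl d e h hh hde
    have h1 : ∀ u, Wd g ∅ u = 1 := by
      intro u
      unfold Wd
      apply List.prod_eq_one
      intro x hx
      rw [List.mem_map] at hx
      obtain ⟨a, _, rfl⟩ := hx
      simp
    rcases Nat.eq_zero_or_pos i with hi | hi
    · subst hi
      have hn : n = 1 := hl
      exact (PF.one e).congr fun u => by rw [hn, map_one, one_zpow]
    · have hde' : d ≤ e := by
        rcases hde with h | h <;> omega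
      exact (PF.pw n (hh.mono hde')).congr fun u => by rw [h1, map_one]; rfl
  | insert z s hz ih =>
    intro i n hi hl d e h hh hde
    rcases Nat.eq_zero_or_pos i with hi0 | hi0
    · subst hi0
      have hn : n = 1 := hl
      exact (PF.one e).congr fun u => by rw [hn, map_one, one_zpow]
    obtain ⟨i, rfl⟩ : ∃ i', i = i' + 1 := ⟨i - 1, by omega⟩
    have hde' : d + (i + 1) ≤ e + 1 := by
      rcases hde with h | h
      · omega
      · exact h
    have hl1 : lev T i (Df T (g z) n) := hl (g z)
    have p1 := ih (i + 1) n hi hl d e h hh (Or.inr hde')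
    have p2 := ih i (Df T (g z) n) (by omega) hl1 (d + 1) e _ (hh.cnt z) (Or.inr (by omega))
    have p3 : PF e (fun u => (T (Wd g s u) (Df T (g z) (Df T (g z) n))) ^
        (h u * b2 (cP (fun c => c = z) u))) := by
      rcases Nat.eq_zero_or_pos i with hi1 | hi1
      · subst hi1
        have hn : Df T (g z) n = 1 := hl1
        exact ih 0 _ (by omega) (by rw [hn]; exact Df_one T _) (d + 2) e _ (hh.b2 z) (Or.inl rfl)
      · obtain ⟨i, rfl⟩ : ∃ i', i = i' + 1 := ⟨i - 1, by omega⟩
        exact ih i _ (by omega) (hl1 (g z)) (d + 2) e _ (hh.b2 z) (Or.inr (by omega))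
    refine ((p1.mul p2).mul p3).congr fun u => ?_
    have e1 : T (Wd g (insert z s) u) n = T (Wd g s u) (T (g z ^ cP (fun c => c = z) u) n) := by
      rw [Wd_insert T hT g s z hz u, map_mul]; rfl
    rw [e1, T_pow T (g z) n (lev_three T _ hi n hl), map_mul, map_mul, map_zpow, map_zpow,
      mul_zpow, mul_zpow, ← zpow_mul, ← zpow_mul]
    unfold cn
    rw [mul_comm (h u), mul_comm (h u)]

end prods

/-! ### Elimination of a letter -/

section grp

variable {G : Type} [Group G] (N : Subgroup G) [N.Normal]
  (hN : ∀ x ∈ N, ∀ y ∈ N, x * y = y * x)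

/-- the action by conjugation -/
def cj : G →* Monoid.End N :=
  { toFun := fun g =>
      { toFun := fun n => ⟨g * n * g⁻¹, Subgroup.Normal.conj_mem inferInstance _ n.2 _⟩
        map_one' := by apply Subtype.ext; simp
        map_mul' := by
          intro x y
          apply Subtype.ext
          change g * ((x : G) * y) * g⁻¹ = (g * x * g⁻¹) * (g * y * g⁻¹)
          group }
    map_one' := by
      apply MonoidHom.ext
      intro n
      apply Subtype.ext
      change 1 * (n : G) * 1⁻¹ = n
      simp
    map_mul' := by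
      intro g h
      apply MonoidHom.ext
      intro n
      apply Subtype.ext
      change g * h * (n : G) * (g * h)⁻¹ = g * (h * n * h⁻¹) * g⁻¹
      group }

theorem cj_coe (g : G) (n : N) : ((cj N g n : N) : G) = g * n * g⁻¹ := rfl

variable (hc : ∀ g h : G, ⁅g, h⁆ ∈ N)

include hN hc in
theorem cj_comm (g h : G) : cj N (g * h) = cj N (h * g) := by
  apply MonoidHom.ext
  intro n
  apply Subtype.ext
  change g * h * (n : G) * (g * h)⁻¹ = h * g * (n : G) * (h * g)⁻¹
  have h1 : g * h = ⁅g, h⁆ * (h * g) := by
    simp only [commutatorElement_def]; group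
  have h2 : (h * g) * (n : G) * (h * g)⁻¹ ∈ N := Subgroup.Normal.conj_mem inferInstance _ n.2 _
  have h3 := hN _ (hc g h) _ h2
  calc g * h * (n : G) * (g * h)⁻¹ = ⁅g, h⁆ * ((h * g) * (n : G) * (h * g)⁻¹) * ⁅g, h⁆⁻¹ := by
        rw [h1]; group
    _ = (h * g) * (n : G) * (h * g)⁻¹ := by
        rw [h3]; group

/-- a commutator -/
def cq (a b : G) : N := ⟨⁅a, b⁆, hc a b⟩

theorem cq_pow (x y : G) (h3 : letI := nComm N hN; lev (cj N) 3 (cq N hc x y)) (c : ℕ) :
    letI := nComm N hN
    cq N hc (x ^ c) y = (cq N hc x y) ^ (c : ℤ) * (Df (cj N) x (cq N hc x y)) ^ b2 c *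
      (Df (cj N) x (Df (cj N) x (cq N hc x y))) ^ b3 c := by
  letI := nComm N hN
  have h4 : Df (cj N) x (Df (cj N) x (Df (cj N) x (cq N hc x y))) = 1 := h3 x x x
  induction c with
  | zero =>
    apply Subtype.ext
    simp [b2, b3, cq]
  | succ c ih =>
    have e1 : cq N hc (x ^ (c + 1)) y = cj N x (cq N hc (x ^ c) y) * cq N hc x y := by
      apply Subtype.ext
      change ⁅x ^ (c + 1), y⁆ = x * ⁅x ^ c, y⁆ * x⁻¹ * ⁅x, y⁆
      rw [pow_succ']
      simp only [commutatorElement_def]; group
    rw [e1, ih, map_mul, map_mul, map_zpow, map_zpow, map_zpow, T_eq (cj N) x (cq N hc x y),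
      T_eq (cj N) x (Df (cj N) x (cq N hc x y)),
      T_eq (cj N) x (Df (cj N) x (Df (cj N) x (cq N hc x y))), h4, mul_one, b2, b3,
      zpow_add, zpow_add, mul_zpow, mul_zpow]
    push_cast
    rw [zpow_add, zpow_one]
    generalize Df (cj N) x (cq N hc x y) = m1
    generalize Df (cj N) x m1 = m2
    generalize cq N hc x y = m0
    simp only [mul_assoc, mul_left_comm, mul_comm]

variable {α : Type} [Fintype α] (f : α → G) (x : α)

/-- the contribution of a letter at a position -/
noncomputable def Fy (y : α) (u : List α) : N :=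
  cj N ((u.map (fe f x)).prod) (cq N hc (f x ^ cP (fun c => c = x) u) (f y))

open Classical in
/-- the correction term -/
noncomputable def Dq (w : List α) : N :=
  letI := nComm N hN
  ∏ y : α, if y = x then 1 else SG (Fy N hc f x y) y w

theorem Dq_snoc_same (w : List α) : Dq N hN hc f x (w ++ [x]) = Dq N hN hc f x w := by
  classical
  letI := nComm N hN
  unfold Dq
  apply Finset.prod_congr rfl
  intro y _
  by_cases hy : y = x
  · rw [if_pos hy, if_pos hy]
  · rw [if_neg hy, if_neg hy, SG_snoc, if_neg (fun h => hy h.symm), mul_one]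

theorem Dq_snoc (w : List α) (c : α) (hcx : c ≠ x) :
    Dq N hN hc f x (w ++ [c]) = Dq N hN hc f x w * Fy N hc f x c w := by
  classical
  letI := nComm N hN
  unfold Dq
  have e : ∀ y : α, (if y = x then (1 : N) else SG (Fy N hc f x y) y (w ++ [c])) =
      (if y = x then 1 else SG (Fy N hc f x y) y w) * (if c = y then Fy N hc f x y w else 1) := by
    intro y
    by_cases hy : y = x
    · rw [if_pos hy, if_pos hy, if_neg (fun h => hcx (h.trans hy)), mul_one]
    · rw [if_neg hy, if_neg hy, SG_snoc]
  simp only [e, Finset.prod_mul_distrib]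
  congr 1
  rw [Finset.prod_eq_single c]
  · rw [if_pos rfl]
  · intro y _ hy
    rw [if_neg (fun h => hy h.symm)]
  · intro h; exact absurd (Finset.mem_univ _) h

theorem Dq_nil : Dq N hN hc f x [] = 1 := by
  classical
  letI := nComm N hN
  unfold Dq
  apply Finset.prod_eq_one
  intro y _
  split_ifs
  · rfl
  · exact SG_nil _ _

theorem elim4 (w : List α) :
    (w.map f).prod = ((Dq N hN hc f x w : N) : G) * (w.map (fe f x)).prod *
      f x ^ (cP (fun c => c = x) w) := by
  classical
  letI := nComm N hN
  induction w using List.reverseRecOn with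
  | nil => rw [Dq_nil]; simp [cP_nil]
  | append_singleton w c ih =>
    rw [List.map_append, List.prod_append, ih, List.map_append, List.prod_append]
    simp only [List.map_cons, List.map_nil, List.prod_cons, List.prod_nil, mul_one]
    by_cases hcx : c = x
    · subst hcx
      have e1 : fe f c c = 1 := by simp [fe]
      rw [Dq_snoc_same, e1, cP_snoc, if_pos rfl, pow_succ]
      simp only [mul_assoc, mul_one]
    · have e1 : fe f x c = f c := by simp [fe, hcx]
      rw [Dq_snoc N hN hc f x w c hcx, cP_snoc, if_neg hcx, add_zero, e1, Subgroup.coe_mul]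
      have e2 : ((Fy N hc f x c w : N) : G) = (w.map (fe f x)).prod *
          ⁅f x ^ cP (fun c => c = x) w, f c⁆ * ((w.map (fe f x)).prod)⁻¹ := rfl
      rw [e2]
      simp only [commutatorElement_def]
      group

theorem Dt_Fy [Finite G] (h3 : letI := nComm N hN; ∀ n : N, lev (cj N) 3 n) (y : α) :
    letI := nComm N hN
    Dt (SG (Fy N hc f x y) y) := by
  classical
  letI := nComm N hN
  apply Dt_PF
  set n := cq N hc (f x) (f y) with hn
  have hl3 : lev (cj N) 3 n := h3 n
  have hl2 : lev (cj N) 2 (Df (cj N) (f x) n) := hl3 (f x)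
  have hl1 : lev (cj N) 1 (Df (cj N) (f x) (Df (cj N) (f x) n)) := hl2 (f x)
  have p1 := PF_act (cj N) (cj_comm N hN hc) (fe f x) Finset.univ 3 n le_rfl hl3 1 3
    _ ((Pl.one 0).cnt x) (Or.inr (by norm_num))
  have p2 := PF_act (cj N) (cj_comm N hN hc) (fe f x) Finset.univ 2 _ (by norm_num) hl2 2 3
    _ ((Pl.one 0).b2 x) (Or.inr (by norm_num))
  have p3 := PF_act (cj N) (cj_comm N hN hc) (fe f x) Finset.univ 1 _ (by norm_num) hl1 3 3
    _ ((Pl.one 0).b3 x) (Or.inr (by norm_num))
  refine ((p1.mul p2).mul p3).congr fun u => ?_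
  have e0 : Wd (fe f x) Finset.univ u = (u.map (fe f x)).prod := by
    unfold Wd
    congr 1
    apply List.map_congr_left
    intro z _
    simp
  rw [e0]
  unfold Fy
  rw [cq_pow N hN hc (f x) (f y) hl3, map_mul, map_mul, map_zpow, map_zpow, map_zpow]
  unfold cn
  rw [one_mul, one_mul, one_mul]

theorem Dt_Dq [Finite G] (h3 : letI := nComm N hN; ∀ n : N, lev (cj N) 3 n) :
    Dt (Dq N hN hc f x) := by
  classical
  letI := nComm N hN
  refine Dt.prod Finset.univ (fun (y : α) w => if y = x then 1 else SG (Fy N hc f x y) y w)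
    fun y _ => ?_
  by_cases hy : y = x
  · simp only [hy, if_true]
    exact Dt.one
  · simp only [hy, if_false]
    exact Dt_Fy N hN hc f x h3 y

include hN hc in
theorem Dt_all4 [Finite G] (h3 : letI := nComm N hN; ∀ n : N, lev (cj N) 3 n) (s : Finset α)
    (f : α → G) (hf : ∀ y, y ∉ s → f y = 1) :
    Dt (fun w : List α => (w.map f).prod) := by
  classical
  induction s using Finset.induction_on generalizing f with
  | empty =>
    have h1 : (fun w : List α => (w.map f).prod) = fun _ => 1 := by
      funext w
      induction w with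
      | nil => rfl
      | cons c w ih => rw [List.map_cons, List.prod_cons, ih, hf c (by simp), mul_one]
    rw [h1]
    exact Dt.one
  | insert x s _ ih =>
    have h1 : Dt (fun w : List α => (w.map (fe f x)).prod) := by
      apply ih
      intro y hy
      unfold fe
      split_ifs with h
      · rfl
      · apply hf
        rw [Finset.mem_insert]
        rintro (h' | h')
        · exact h h'
        · exact hy h'
    have h2 : Dt (fun w : List α => ((Dq N hN hc f x w : N) : G)) :=
      (Dt_Dq N hN hc f x h3).comp (fun n : N => (n : G))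
    have h5 : Dt (fun w : List α => f x ^ (cP (fun c => c = x) w : ℤ)) := Dt.zpow _ (Ct_cnt x)
    have h4 : (fun w : List α => (w.map f).prod) =
        fun w => ((Dq N hN hc f x w : N) : G) * (w.map (fe f x)).prod *
          f x ^ (cP (fun c => c = x) w : ℤ) := by
      funext w
      rw [elim4 N hN hc f x w, zpow_natCast]
    rw [h4]
    exact (h2.mul h1).mul h5

end grp

/-- **Main theorem.** -/
theorem main4 {G : Type} [Group G] [Finite G] (N : Subgroup G) [N.Normal]
    (hN : ∀ x ∈ N, ∀ y ∈ N, x * y = y * x) (hc : ∀ g h : G, ⁅g, h⁆ ∈ N)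
    (h4 : ∀ n ∈ N, ∀ a b c : G, ⁅c, ⁅b, ⁅a, n⁆⁆⁆ = 1)
    {α : Type} [Finite α] (f : α → G) (S : Set G) : HS 1 {w : List α | (w.map f).prod ∈ S} := by
  have := Fintype.ofFinite α
  letI := nComm N hN
  have h3 : ∀ n : N, lev (cj N) 3 n := by
    intro n a b c
    apply Subtype.ext
    have hD : ∀ (g : G) (m : N), ((Df (cj N) g m : N) : G) = ⁅g, (m : G)⁆ := fun g m => rfl
    rw [hD, hD, hD]
    exact h4 n n.2 a b c
  have h1 := Dt_all4 N hN hc h3 Finset.univ f (fun y hy => absurd (Finset.mem_univ y) hy)
  have h2 : HS 1 (⋃ g : G, {w : List α | g ∈ S ∧ w ∈ {w : List α | (w.map f).prod = g}}) :=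
    HS.iUnion _ fun g => HS.cond _ fun _ => h1 g
  convert h2 using 1
  ext w
  simp only [Set.mem_ofPred_eq, Set.mem_iUnion]
  constructor
  · intro h; exact ⟨_, h, rfl⟩
  · rintro ⟨g, hg, h⟩; rw [h]; exact hg

end Pool.Agent.TH733.GSH
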