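import Pool.Agent.TH733.GSH.Vis

/-! Periodic runs of automata, and a description of the automata which are counter-free away from a
state in terms of periodic runs. Counting transitions along a run. -/

set_option autoImplicit false
set_option linter.unusedSectionVars false

namespace Pool.Agent.TH733.GSH

open Pool.Agent.H936R2.SH Pool.Agent.H815R3.GSH

section

variable {Q α : Type}

/-- a periodic run: the letters have period `L`, the states have period `K * L` -/
structure Per (δ : Q → α → Q) (L K : ℕ) (c : ℕ → α) (q : ℕ → Q) : Prop where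
  hL : 0 < L
  hK : 0 < K
  hc : ∀ t, c (t + L) = c t
  hq : ∀ t, q (t + 1) = δ (q t) (c t)
  hp : ∀ t, q (t + K * L) = q t

/-- the word read between the times `t` and `t + n` -/
def Wd' (c : ℕ → α) (t n : ℕ) : List α := (List.range n).map fun i => c (t + i)

theorem Wd_zero (c : ℕ → α) (t : ℕ) : Wd' c t 0 = [] := rfl

theorem Wd_succ (c : ℕ → α) (t n : ℕ) : Wd' c t (n + 1) = Wd' c t n ++ [c (t + n)] := by
  simp [Wd', List.range_succ]

theorem Wd_add (c : ℕ → α) (t m n : ℕ) : Wd' c t (m + n) = Wd' c t m ++ Wd' c (t + m) n := by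
  induction n with
  | zero => simp [Wd_zero]
  | succ n ih => rw [← add_assoc, Wd_succ, ih, Wd_succ, List.append_assoc, add_assoc]

theorem Wd_foldl (δ : Q → α → Q) (c : ℕ → α) (q : ℕ → Q) (hq : ∀ t, q (t + 1) = δ (q t) (c t))
    (t n : ℕ) : (Wd' c t n).foldl δ (q t) = q (t + n) := by
  induction n with
  | zero => rfl
  | succ n ih => rw [Wd_succ, List.foldl_append, ih, List.foldl_cons, List.foldl_nil, ← hq]; rfl

theorem Wd_dl0 (δ : Q → α → Q) (b : Q) (c : ℕ → α) (q : ℕ → Q)
    (hq : ∀ t, q (t + 1) = δ (q t) (c t)) (t n : ℕ) (h : ∀ i, i < n → q (t + i + 1) ≠ b) :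
    (Wd' c t n).foldl (dl0 δ b) (some (q t)) = some (q (t + n)) := by
  induction n with
  | zero => rfl
  | succ n ih =>
    rw [Wd_succ, List.foldl_append, ih (fun i hi => h i (by omega)), List.foldl_cons,
      List.foldl_nil, dl0, ← hq, if_neg (h n (by omega))]
    rfl

theorem Wd_dl0' (δ : Q → α → Q) (b : Q) (c : ℕ → α) (q : ℕ → Q)
    (hq : ∀ t, q (t + 1) = δ (q t) (c t)) (t n : ℕ) (s : Q)
    (h : (Wd' c t n).foldl (dl0 δ b) (some (q t)) = some s) :
    (∀ i, i < n → q (t + i + 1) ≠ b) ∧ s = q (t + n) := by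
  induction n generalizing s with
  | zero =>
    refine ⟨fun i hi => absurd hi (by omega), ?_⟩
    simpa [Wd_zero] using h.symm
  | succ n ih =>
    rw [Wd_succ, List.foldl_append, List.foldl_cons, List.foldl_nil] at h
    cases h1 : (Wd' c t n).foldl (dl0 δ b) (some (q t)) with
    | none => rw [h1] at h; exact absurd h (by simp [dl0])
    | some r =>
      rw [h1] at h
      obtain ⟨h2, h3⟩ := ih r h1
      rw [dl0] at h
      by_cases hb : δ r (c (t + n)) = b
      · rw [if_pos hb] at h; exact absurd h (by simp)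
      · rw [if_neg hb, h3, ← hq] at h
        rw [h3, ← hq] at hb
        refine ⟨?_, ?_⟩
        · intro i hi
          rcases Nat.lt_or_ge i n with h4 | h4
          · exact h2 i h4
          · have : i = n := by omega
            subst this; exact hb
        · exact (Option.some.inj h).symm

theorem Wd_congr (c : ℕ → α) (L : ℕ) (hc : ∀ t, c (t + L) = c t) (t n : ℕ) :
    Wd' c (t + L) n = Wd' c t n := by
  unfold Wd'
  apply List.map_congr_left
  intro i _
  rw [show t + L + i = t + i + L by omega, hc]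

theorem per_mul {X : Type} (c : ℕ → X) (L : ℕ) (hc : ∀ t, c (t + L) = c t) (t n : ℕ) :
    c (t + n * L) = c t := by
  induction n with
  | zero => simp
  | succ n ih => rw [Nat.succ_mul, ← add_assoc, hc, ih]

theorem Wd_congr' (c : ℕ → α) (L : ℕ) (hc : ∀ t, c (t + L) = c t) (t n m : ℕ) :
    Wd' c (t + m * L) n = Wd' c t n := by
  unfold Wd'
  apply List.map_congr_left
  intro i _
  rw [show t + m * L + i = t + i + m * L by omega, per_mul c L hc]

theorem Per.shift {δ : Q → α → Q} {L K : ℕ} {c : ℕ → α} {q : ℕ → Q} (h : Per δ L K c q) (t n : ℕ) :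
    q (t + n * (K * L)) = q t := per_mul q (K * L) h.hp t n

theorem CFb_per {δ : Q → α → Q} {b : Q} (h : CFb δ b) {L K : ℕ} {c : ℕ → α} {q : ℕ → Q}
    (hP : Per δ L K c q) (hb : ∀ t, q t ≠ b) (t : ℕ) : q (t + L) = q t := by
  have h1 := h (q t) (Wd' c t L) K hP.hK ?_
  · rw [Wd_dl0 δ b c q hP.hq t L (fun i _ => hb _)] at h1
    exact Option.some.inj h1
  · have key : ∀ n, (fun r => (Wd' c t L).foldl (dl0 δ b) r)^[n] (some (q t)) =
        some (q (t + n * L)) := by
      intro n
      induction n with
      | zero => simp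
      | succ n ih =>
        rw [Function.iterate_succ_apply', ih]
        have h2 := Wd_dl0 δ b c q hP.hq (t + n * L) L (fun i _ => hb _)
        rw [Wd_congr' c L hP.hc] at h2
        rw [h2, Nat.succ_mul, add_assoc]
    rw [key, hP.hp]

/-- once a periodic run agrees with its shift it always does -/
theorem Per.all {δ : Q → α → Q} {L K : ℕ} {c : ℕ → α} {q : ℕ → Q} (h : Per δ L K c q) {s : ℕ}
    (hs : q (s + L) = q s) (t : ℕ) : q (t + L) = q t := by
  have hfwd : ∀ n, q (s + n + L) = q (s + n) := by
    intro n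
    induction n with
    | zero => exact hs
    | succ n ih =>
      rw [show s + (n + 1) + L = s + n + L + 1 by omega, h.hq, ih, h.hc, ← h.hq]; rfl
  have hKL : 0 < K * L := Nat.mul_pos h.hK h.hL
  have e1 : q (t + L + s * (K * L)) = q (t + L) := h.shift _ _
  have e2 : q (t + s * (K * L)) = q t := h.shift _ _
  have hge : s ≤ s * (K * L) := Nat.le_mul_of_pos_right _ hKL
  have e3 := hfwd (t + s * (K * L) - s)
  rw [show s + (t + s * (K * L) - s) + L = t + L + s * (K * L) by omega,
    show s + (t + s * (K * L) - s) = t + s * (K * L) by omega] at e3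
  rw [← e1, e3, e2]

theorem CFb_iff_per {δ : Q → α → Q} {b : Q}
    (h : ∀ (L K : ℕ) (c : ℕ → α) (q : ℕ → Q), Per δ L K c q → (∀ t, q t ≠ b) →
      ∃ s, q (s + L) = q s) : CFb δ b := by
  intro q0 u k hk hit
  rcases List.eq_nil_or_concat u with rfl | ⟨u', a', hu'⟩
  · rfl
  have hL : 0 < u.length := by rw [hu']; simp
  set L := u.length with hLdef
  set c : ℕ → α := fun t => u[t % L]'(Nat.mod_lt _ hL) with hc
  obtain ⟨q, hq0, hq1⟩ : ∃ q : ℕ → Q, q 0 = q0 ∧ ∀ t, q (t + 1) = δ (q t) (c t) :=
    ⟨fun t => Nat.rec q0 (fun i r => δ r (c i)) t, rfl, fun t => rfl⟩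
  have hcp : ∀ t, c (t + L) = c t := by
    intro t
    simp only [hc, Nat.add_mod_right]
  have hu : Wd' c 0 L = u := by
    apply List.ext_getElem
    · simp [Wd', hLdef]
    · intro i h1 h2
      simp only [Wd', List.getElem_map, List.getElem_range, hc, Nat.zero_add]
      congr 1
      exact Nat.mod_eq_of_lt (by omega)
  have hpow : ∀ n, (List.replicate n u).flatten = Wd' c 0 (n * L) := by
    intro n
    induction n with
    | zero => simp [Wd_zero]
    | succ n ih =>
      have h3 := Wd_add c 0 (n * L) L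
      rw [Nat.zero_add] at h3
      have h4 := Wd_congr' c L hcp 0 L n
      rw [Nat.zero_add] at h4
      rw [Nat.succ_mul, h3, h4, ← ih, hu, List.replicate_succ']
      simp
  rw [foldl_pow, hpow, ← hq0] at hit
  have h5 := Wd_dl0' δ b c q hq1 0 (k * L) _ hit
  rw [Nat.zero_add] at h5
  have hper : ∀ t, q (t + k * L) = q t := by
    intro t
    induction t with
    | zero => rw [Nat.zero_add, ← h5.2]
    | succ t ih =>
      rw [show t + 1 + k * L = t + k * L + 1 by omega, hq1, ih, per_mul c L hcp, ← hq1]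
  have hkL : 0 < k * L := Nat.mul_pos hk hL
  have havoid : ∀ t, q (t + 1) ≠ b := by
    intro t
    induction t using Nat.strong_induction_on with
    | _ t ih =>
      rcases Nat.lt_or_ge t (k * L) with h6 | h6
      · have := h5.1 t h6
        rwa [Nat.zero_add] at this
      · have h7 := ih (t - k * L) (by omega)
        have h8 := hper (t - k * L + 1)
        rw [show t - k * L + 1 + k * L = t + 1 by omega] at h8
        rw [h8]; exact h7
  have havoid' : ∀ t, q t ≠ b := by
    intro t
    rw [← hper t]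
    have := havoid (t + k * L - 1)
    rwa [show t + k * L - 1 + 1 = t + k * L by omega] at this
  have hP : Per δ L k c q := ⟨hL, hk, hcp, hq1, hper⟩
  obtain ⟨s, hs⟩ := h L k c q hP havoid'
  have h8 := hP.all hs 0
  rw [Nat.zero_add] at h8
  have h9 := Wd_dl0 δ b c q hq1 0 L (fun i _ => havoid' _)
  rw [hu, Nat.zero_add, h8, hq0] at h9
  exact h9

/-! ### Counting transitions -/

/-- weighted number of transitions -/
def tc (D : Q → α → Q) (φ : Q → α → ℤ) : Q → List α → ℤ
  | _, [] => 0
  | x, a :: w => φ x a + tc D φ (D x a) w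

theorem tc_snoc (D : Q → α → Q) (φ : Q → α → ℤ) (w : List α) (a : α) (x : Q) :
    tc D φ x (w ++ [a]) = tc D φ x w + φ (w.foldl D x) a := by
  induction w generalizing x with
  | nil => simp [tc]
  | cons y w ih => rw [List.cons_append, tc, tc, ih, List.foldl_cons]; ring

theorem tc_proj {Q' : Type} (D : Q → α → Q) (D' : Q' → α → Q') (π : Q → Q')
    (h : ∀ x a, π (D x a) = D' (π x) a) (φ : Q' → α → ℤ) (x : Q) (w : List α) :
    tc D (fun x a => φ (π x) a) x w = tc D' φ (π x) w := by
  induction w generalizing x with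
  | nil => rfl
  | cons a w ih => rw [tc, tc, ih, h]

theorem tc_add (D : Q → α → Q) (φ ψ : Q → α → ℤ) (x : Q) (w : List α) :
    tc D (fun x a => φ x a + ψ x a) x w = tc D φ x w + tc D ψ x w := by
  induction w generalizing x with
  | nil => rfl
  | cons a w ih => rw [tc, tc, tc, ih]; ring

theorem tc_sub (D : Q → α → Q) (φ ψ : Q → α → ℤ) (x : Q) (w : List α) :
    tc D (fun x a => φ x a - ψ x a) x w = tc D φ x w - tc D ψ x w := by
  induction w generalizing x with
  | nil => rfl
  | cons a w ih => rw [tc, tc, tc, ih]; ring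

theorem tc_sum {ι : Type} (s : Finset ι) (D : Q → α → Q) (φ : ι → Q → α → ℤ) (x : Q)
    (w : List α) : tc D (fun x a => ∑ i ∈ s, φ i x a) x w = ∑ i ∈ s, tc D (φ i) x w := by
  induction w generalizing x with
  | nil => simp [tc]
  | cons a w ih => rw [tc, ih, ← Finset.sum_add_distrib]; rfl

theorem tc_congr (D : Q → α → Q) (φ ψ : Q → α → ℤ) (h : ∀ x a, φ x a = ψ x a) (x : Q)
    (w : List α) : tc D φ x w = tc D ψ x w := by
  have : φ = ψ := funext fun x => funext fun a => h x a
  rw [this]

open Classical in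
theorem Ct_tc [Finite Q] [Finite α] {D : Q → α → Q} {b : Q} (h : CFb D b) (x : Q) :
    Ct (tc D (fun x a => if D x a = b then 1 else 0) x) := by
  refine Ct.congr (Ct.vis h x) ?_
  intro w
  induction w using List.reverseRecOn with
  | nil => simp [pc_nil, tc]
  | append_singleton w y ih =>
    rw [pc_snoc, tc_snoc, ih, List.foldl_append, List.foldl_cons, List.foldl_nil]
    congr 1
    by_cases h1 : D (w.foldl D x) y = b
    · rw [if_pos ⟨by simp, h1⟩, if_pos h1]
    · rw [if_neg (fun h2 => h1 h2.2), if_neg h1]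

/-- only powers of one letter -/
def OnlyPow (δ : Q → α → Q) (b : Q) : Prop :=
  ∀ (z : α) (L K : ℕ) (c : ℕ → α) (q : ℕ → Q), Per δ L K c q → (∀ t, q t = b → c t = z) →
    (∃ t, q (t + L) ≠ q t) → ∀ t, c t = z

end

end Pool.Agent.TH733.GSH
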