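import Pool.Agent.TH733.GSH.WalkT

/-! Sums over the positions of a letter of polynomials of degree at most three in the numbers of
the earlier letters. -/

set_option autoImplicit false
set_option linter.unusedSectionVars false

namespace Pool.Agent.TH733.GSH

open Pool.Agent.H936R2.SH Pool.Agent.H815R3.GSH

section

variable {α : Type}

/-- the number of letters `x` -/
noncomputable def cn (x : α) (u : List α) : ℤ := (cP (fun c => c = x) u : ℤ)

open Classical in
/-- the indicator function of a letter -/
noncomputable def ind (x : α) (a : α) : ℤ := if a = x then 1 else 0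

theorem cn_nil (x : α) : cn x [] = 0 := by simp [cn, cP_nil]

theorem cn_snoc (x : α) (u : List α) (a : α) : cn x (u ++ [a]) = cn x u + ind x a := by
  classical
  unfold cn ind
  rw [cP_snoc]
  push_cast
  rfl

theorem lv_form (x y z : α) (p q r : ℤ) (u : List α) :
    lv (fun a => p * ind x a + q * ind y a + r * ind z a) u =
      p * cn x u + q * cn y u + r * cn z u := by
  induction u using List.reverseRecOn with
  | nil => simp [lv_nil, cn_nil]
  | append_singleton u a ih =>
    rw [lv_snoc, ih, cn_snoc, cn_snoc, cn_snoc]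
    ring

theorem Sy_add (F F' : List α → ℤ) (y : α) (w : List α) :
    Sy (fun u => F u + F' u) y w = Sy F y w + Sy F' y w := by
  classical
  induction w using List.reverseRecOn with
  | nil => simp [Sy_nil]
  | append_singleton w c ih =>
    simp only [Sy_snoc, ih]
    split_ifs <;> ring

variable [Finite α]

theorem Ct_form (x y z v : α) (p q r : ℤ) (k : ℕ)
    (hs : ∀ a, p * ind x a + q * ind y a + r * ind z a = 1 ∨
      p * ind x a + q * ind y a + r * ind z a = 0 ∨
      p * ind x a + q * ind y a + r * ind z a = -1) :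
    Ct (Sy (fun u => (p * cn x u + q * cn y u + r * cn z u) ^ k) v) := by
  have h := Ct_level (fun a => p * ind x a + q * ind y a + r * ind z a) hs v (fun n => n ^ k)
    (fun M a b h => by push_cast; rw [h])
  refine h.congr fun w => ?_
  apply Sy_congr
  intro u
  rw [lv_form]

/-- closure properties used below -/
def CS (v : α) (F : List α → ℤ) : Prop := Ct (Sy F v)

theorem CS.add {v : α} {F F' : List α → ℤ} (h : CS v F) (h' : CS v F') :
    CS v (fun u => F u + F' u) :=
  (Ct.add h h').congr fun w => (Sy_add F F' v w).symm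

theorem CS.sub {v : α} {F F' : List α → ℤ} (h : CS v F) (h' : CS v F') :
    CS v (fun u => F u - F' u) :=
  (Ct.sub h h').congr fun w => (Sy_sub F F' v w).symm

theorem CS.smul {v : α} {F : List α → ℤ} (c : ℤ) (h : CS v F) : CS v (fun u => c * F u) :=
  (Ct.smul c h).congr fun w => (Sy_smul c F v w).symm

theorem CS.div {v : α} {F : List α → ℤ} (k : ℕ) (hk : 0 < k) (h : CS v (fun u => (k : ℤ) * F u)) :
    CS v F :=
  Ct.div k hk (h.congr fun w => Sy_smul k F v w)

theorem CS.congr {v : α} {F F' : List α → ℤ} (h : CS v F) (hh : ∀ u, F u = F' u) : CS v F' := by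
  have : F = F' := funext hh
  rwa [← this]

theorem CS_one (v : α) : CS v (fun _ => 1) := by
  have := Ct_form v v v v 0 0 0 0 (by intro a; simp)
  exact CS.congr this fun u => by simp

theorem CS_pow (v x : α) (k : ℕ) : CS v (fun u => cn x u ^ k) := by
  have := Ct_form x x x v 1 0 0 k (by intro a; unfold ind; split_ifs <;> simp)
  exact CS.congr this fun u => by simp

theorem CS_two (v x y : α) : CS v (fun u => cn x u * cn y u) := by
  by_cases hxy : x = y
  · subst hxy
    exact (CS_pow v x 2).congr fun u => by ring
  · apply CS.div 2 (by norm_num)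
    have h1 : CS v (fun u => (1 * cn x u + 1 * cn y u + 0 * cn x u) ^ 2) :=
      Ct_form x y x v 1 1 0 2 (by
        intro a; unfold ind; split_ifs with h1 h2 <;> simp
        exact hxy (h1.symm.trans h2))
    exact ((h1.sub (CS_pow v x 2)).sub (CS_pow v y 2)).congr fun u => by push_cast; ring

theorem CS_sq (v x y : α) : CS v (fun u => cn x u ^ 2 * cn y u) := by
  by_cases hxy : x = y
  · subst hxy
    exact (CS_pow v x 3).congr fun u => by ring
  · apply CS.div 6 (by norm_num)
    have h1 : CS v (fun u => (1 * cn x u + 1 * cn y u + 0 * cn x u) ^ 3) :=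
      Ct_form x y x v 1 1 0 3 (by
        intro a; unfold ind; split_ifs with h1 h2 <;> simp
        exact hxy (h1.symm.trans h2))
    have h2 : CS v (fun u => (1 * cn x u + (-1) * cn y u + 0 * cn x u) ^ 3) :=
      Ct_form x y x v 1 (-1) 0 3 (by
        intro a; unfold ind; split_ifs with h1 h2 <;> simp)
    exact ((h1.sub h2).sub ((CS_pow v y 3).smul 2)).congr fun u => by push_cast; ring

theorem CS_three (v x y z : α) : CS v (fun u => cn x u * cn y u * cn z u) := by
  by_cases hxy : x = y
  · subst hxy
    exact (CS_sq v x z).congr fun u => by ring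
  by_cases hxz : x = z
  · subst hxz
    exact (CS_sq v x y).congr fun u => by ring
  by_cases hyz : y = z
  · subst hyz
    exact (CS_sq v y x).congr fun u => by ring
  have hf : ∀ q r : ℤ, (q = 1 ∨ q = -1) → (r = 1 ∨ r = -1) →
      CS v (fun u => (1 * cn x u + q * cn y u + r * cn z u) ^ 3) := by
    intro q r hq hr
    apply Ct_form x y z v 1 q r 3
    intro a
    unfold ind
    by_cases h1 : a = x
    · subst h1
      simp [hxy, hxz]
    · by_cases h2 : a = y
      · subst h2
        simp only [h1, if_false, if_true, hyz]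
        rcases hq with h | h <;> rw [h] <;> simp
      · by_cases h3 : a = z
        · subst h3
          simp only [h1, h2, if_false, if_true]
          rcases hr with h | h <;> rw [h] <;> simp
        · simp [h1, h2, h3]
  apply CS.div 24 (by norm_num)
  have h1 := hf 1 1 (Or.inl rfl) (Or.inl rfl)
  have h2 := hf 1 (-1) (Or.inl rfl) (Or.inr rfl)
  have h3 := hf (-1) 1 (Or.inr rfl) (Or.inl rfl)
  have h4 := hf (-1) (-1) (Or.inr rfl) (Or.inr rfl)
  exact (((h1.sub h2).sub h3).add h4).congr fun u => by push_cast; ring

/-- a product of numbers of letters -/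
noncomputable def mon (l : List α) (u : List α) : ℤ := (l.map fun x => cn x u).prod

theorem CS_mon (v : α) (l : List α) (hl : l.length ≤ 3) : CS v (mon l) := by
  match l, hl with
  | [], _ => exact (CS_one v).congr fun u => by simp [mon]
  | [x], _ => exact (CS_pow v x 1).congr fun u => by simp [mon]
  | [x, y], _ => exact (CS_two v x y).congr fun u => by simp [mon]
  | [x, y, z], _ => exact (CS_three v x y z).congr fun u => by simp [mon]; ring
  | _ :: _ :: _ :: _ :: _, h => simp at h; omega

omit [Finite α] in
/-- rational polynomials of degree at most `d` in the numbers of the letters -/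
inductive Pl (d : ℕ) : (List α → ℤ) → Prop
  | mon (l : List α) (hl : l.length ≤ d) : Pl d (mon l)
  | add {F F' : List α → ℤ} : Pl d F → Pl d F' → Pl d (fun u => F u + F' u)
  | smul {F : List α → ℤ} (c : ℤ) : Pl d F → Pl d (fun u => c * F u)
  | div {F : List α → ℤ} (k : ℕ) : 0 < k → Pl d (fun u => (k : ℤ) * F u) → Pl d F

omit [Finite α] in
theorem Pl.congr {d : ℕ} {F F' : List α → ℤ} (h : Pl d F) (hh : ∀ u, F u = F' u) : Pl d F' := by
  have : F = F' := funext hh
  rwa [← this]

omit [Finite α] in
theorem Pl.mono {d e : ℕ} (hde : d ≤ e) {F : List α → ℤ} (h : Pl d F) : Pl e F := by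
  induction h with
  | mon l hl => exact .mon l (le_trans hl hde)
  | add _ _ h1 h2 => exact .add h1 h2
  | smul c _ h1 => exact .smul c h1
  | div k hk _ h1 => exact .div k hk h1

omit [Finite α] in
theorem Pl.cnt {d : ℕ} {F : List α → ℤ} (h : Pl d F) (x : α) :
    Pl (d + 1) (fun u => F u * cn x u) := by
  induction h with
  | mon l hl =>
    refine (Pl.mon (x :: l) (by simpa using hl)).congr fun u => ?_
    simp [TH733.GSH.mon, mul_comm]
  | add _ _ h1 h2 => exact (h1.add h2).congr fun u => by ring
  | smul c _ h1 => exact (h1.smul c).congr fun u => by ring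
  | div k hk _ h1 => exact .div k hk (h1.congr fun u => by ring)

omit [Finite α] in
theorem Pl.one (d : ℕ) : Pl d (fun _ : List α => 1) :=
  (Pl.mon [] (by simp)).congr fun u => by simp [TH733.GSH.mon]

omit [Finite α] in
theorem Pl.zero (d : ℕ) : Pl d (fun _ : List α => 0) :=
  ((Pl.one d).smul 0).congr fun u => by simp

/-- the binomial coefficient over two -/
def b2 : ℕ → ℤ
  | 0 => 0
  | n + 1 => b2 n + n

/-- the binomial coefficient over three -/
def b3 : ℕ → ℤ
  | 0 => 0
  | n + 1 => b3 n + b2 n

theorem b2_two (n : ℕ) : 2 * b2 n = (n : ℤ) * n - n := by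
  induction n with
  | zero => simp [b2]
  | succ n ih => rw [b2, mul_add, ih]; push_cast; ring

theorem b3_six (n : ℕ) : 6 * b3 n = (n : ℤ) * n * n - 3 * (n * n) + 2 * n := by
  induction n with
  | zero => simp [b3]
  | succ n ih =>
    have := b2_two n
    rw [b3, mul_add, ih]
    have h2 : 6 * b2 n = 3 * ((n : ℤ) * n - n) := by linarith
    rw [h2]
    push_cast; ring

omit [Finite α] in
theorem Pl.b2 {d : ℕ} {F : List α → ℤ} (h : Pl d F) (x : α) :
    Pl (d + 2) (fun u => F u * TH733.GSH.b2 (cP (fun c => c = x) u)) := by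
  apply Pl.div 2 (by norm_num)
  have h1 : Pl (d + 2) (fun u => F u * cn x u * cn x u) := (h.cnt x).cnt x
  have h2 : Pl (d + 2) (fun u => F u * cn x u) := (h.cnt x).mono (by omega)
  refine (h1.add (h2.smul (-1))).congr fun u => ?_
  have := b2_two (cP (fun c => c = x) u)
  push_cast
  unfold cn
  linear_combination (-F u) * this

omit [Finite α] in
theorem Pl.b3 {d : ℕ} {F : List α → ℤ} (h : Pl d F) (x : α) :
    Pl (d + 3) (fun u => F u * TH733.GSH.b3 (cP (fun c => c = x) u)) := by
  apply Pl.div 6 (by norm_num)
  have h1 : Pl (d + 3) (fun u => F u * cn x u * cn x u * cn x u) := ((h.cnt x).cnt x).cnt x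
  have h2 : Pl (d + 3) (fun u => F u * cn x u * cn x u) := ((h.cnt x).cnt x).mono (by omega)
  have h3 : Pl (d + 3) (fun u => F u * cn x u) := (h.cnt x).mono (by omega)
  refine ((h1.add (h2.smul (-3))).add (h3.smul 2)).congr fun u => ?_
  have := b3_six (cP (fun c => c = x) u)
  push_cast
  unfold cn
  linear_combination (-F u) * this

theorem CS_Pl (v : α) {F : List α → ℤ} (h : Pl 3 F) : CS v F := by
  induction h with
  | mon l hl => exact CS_mon v l hl
  | add _ _ h1 h2 => exact h1.add h2
  | smul c _ h1 => exact h1.smul c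
  | div k hk _ h1 => exact h1.div k hk

end

end Pool.Agent.TH733.GSH
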