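import Pool.Agent.TH733.GSH.LoopF
import Pool.Agent.TH733.GSH.Arr

/-! The number of times a given letter is read at the base state of an automaton which is
counter-free away from that state is computed in height one, under the hypothesis `OnlyPow`. -/

set_option autoImplicit false
set_option linter.unusedSectionVars false

namespace Pool.Agent.TH733.GSH

open Pool.Agent.H936R2.SH Pool.Agent.H815R3.GSH

section

variable {Q α : Type}

theorem tc_tele (D : Q → α → Q) (φ : Q → α → ℤ) (F : Q → ℤ)
    (h : ∀ x a, φ x a = F (D x a) - F x) (x : Q) (w : List α) :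
    tc D φ x w = F (w.foldl D x) - F x := by
  induction w generalizing x with
  | nil => simp [tc]
  | cons a w ih => rw [tc, ih, h, List.foldl_cons]; ring

theorem Ct_fin [Finite Q] [Finite α] {D : Q → α → Q} {b : Q} (h : CFb D b) (F : Q → ℤ) (x : Q) :
    Ct (fun w : List α => F (w.foldl D x)) :=
  Ct.cases (fun w => w.foldl D x) (fun i => run1 h x i) (fun i _ => F i) fun i => Ct.const (F i)

open Classical in
/-- indicator -/
noncomputable def iv (P : Prop) : ℤ := if P then 1 else 0

theorem iv_pos {P : Prop} (h : P) : iv P = 1 := by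
  unfold iv; rw [if_pos h]

theorem iv_neg {P : Prop} (h : ¬ P) : iv P = 0 := by
  unfold iv; rw [if_neg h]

theorem iv_eq {P : Prop} [Decidable P] : iv P = if P then 1 else 0 := by
  by_cases h : P
  · rw [iv_pos h, if_pos h]
  · rw [iv_neg h, if_neg h]

theorem iv_congr {P P' : Prop} (h : P ↔ P') : iv P = iv P' := by
  rw [propext h]

variable (δ : Q → α → Q) (b : Q)

/-- indicator of the completion of a loop with a property of parity and type -/
noncomputable def ph (R : Bool → Ty α → Prop) (x : Q × Bool × Option (Ty α)) (a : α) : ℤ :=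
  iv (δ x.1 a = b ∧ R x.2.1 (rs x.2.2 a))

open Classical in
/-- start state for the run starting at `p` -/
noncomputable def x0 (p : Q) : Q × Bool × Option (Ty α) :=
  (p, false, if p = b then none else some (none, false))

/-- number of completed loops with a property -/
noncomputable def CR (P : Bool → Ty α → Bool) (R : Bool → Ty α → Prop) (p : Q) (w : List α) : ℤ :=
  tc (dR δ b P) (ph δ b R) (x0 b p) w

variable {δ b}

theorem pw_false (y : α) (τ : Ty α) (z : Option α) :
    iv (Py y false τ = false ∧ G0 false τ = false) = 1 - iv (τ = (some y, true)) ∧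
    iv (Py y false τ = true) = iv (τ = (some y, true)) ∧
    iv (Py y false τ = false ∧ Gp y false τ = false) = 1 - iv (τ = (some y, true)) ∧
    iv (¬ τ = (z, false)) = 1 - iv (τ = (z, false)) ∧
    iv (Py y false τ = false ∧ G3 z false τ = false) =
      1 - iv (τ = (some y, true)) - iv (τ = (z, false)) := by
  classical
  by_cases h1 : τ = (some y, true)
  · have h2 : ¬ τ = (z, false) := by rw [h1]; simp
    refine ⟨?_, ?_, ?_, ?_, ?_⟩
    · rw [iv_pos h1, iv_neg]; · ring
      simp [Py, h1]
    · rw [iv_pos h1, iv_pos]; simp [Py, h1]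
    · rw [iv_pos h1, iv_neg]; · ring
      simp [Py, h1]
    · rw [iv_pos h2, iv_neg h2]; ring
    · rw [iv_pos h1, iv_neg h2, iv_neg]; · ring
      simp [Py, h1]
  · refine ⟨?_, ?_, ?_, ?_, ?_⟩
    · rw [iv_neg h1, iv_pos]; · ring
      simp [Py, h1, G0]
    · rw [iv_neg h1, iv_neg]; simp [Py, h1]
    · rw [iv_neg h1, iv_pos]; · ring
      simp [Py, h1, Gp]
    · by_cases h2 : τ = (z, false)
      · rw [iv_pos h2, iv_neg (not_not.2 h2)]; ring
      · rw [iv_pos h2, iv_neg h2]; ring
    · by_cases h2 : τ = (z, false)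
      · rw [iv_neg h1, iv_pos h2, iv_neg]; · ring
        simp [G3, h2]
      · rw [iv_neg h1, iv_neg h2, iv_pos]; · ring
        simp [Py, h1, G3, h2]

theorem pw_true (y : α) (τ : Ty α) (z : Option α) :
    iv (Py y true τ = false ∧ G0 true τ = false) = 1 ∧
    iv (Py y true τ = true) = 0 ∧
    iv (Py y true τ = false ∧ Gp y true τ = false) = 1 - iv (τ.2 = true ∧ τ.1 ≠ some y) ∧
    iv (¬ τ = (z, false)) = 1 - iv (τ = (z, false)) ∧
    iv (Py y true τ = false ∧ G3 z true τ = false) = 1 := by
  classical
  rw [Py_true]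
  refine ⟨iv_pos ⟨rfl, rfl⟩, iv_neg (by simp), ?_, ?_, iv_pos ⟨rfl, rfl⟩⟩
  · by_cases h2 : τ.2 = true ∧ τ.1 ≠ some y
    · rw [iv_pos h2, iv_neg]; · ring
      simp [Gp, h2.1, h2.2]
    · rw [iv_neg h2, iv_pos]; · ring
      refine ⟨rfl, ?_⟩
      unfold Gp
      rw [Bool.true_and]
      by_contra h3
      rw [Bool.not_eq_false, Bool.and_eq_true, decide_eq_true_eq] at h3
      exact h2 h3
  · by_cases h2 : τ = (z, false)
    · rw [iv_pos h2, iv_neg (not_not.2 h2)]; ring
    · rw [iv_pos h2, iv_neg h2]; ring

theorem pw_sum [Fintype α] (τ : Ty α) : ∑ z : Option α, iv (τ = (z, false)) = iv (τ.2 = false) := by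
  classical
  have : ∀ z : Option α, iv (τ = (z, false)) = if τ.1 = z then iv (τ.2 = false) else 0 := by
    intro z
    by_cases h : τ.1 = z
    · rw [if_pos h]
      apply iv_congr
      constructor
      · intro h2; rw [h2]
      · intro h2; exact Prod.ext h h2
    · rw [if_neg h, iv_neg]
      intro h2; apply h; rw [h2]
  rw [Finset.sum_congr rfl (fun z _ => this z), Finset.sum_ite_eq Finset.univ τ.1]
  simp

theorem pw [Fintype α] (y : α) (par : Bool) (τ : Ty α) :
    1 - iv (Py y par τ = false ∧ G0 par τ = false) + (1 - iv (Py y par τ = false ∧ G0 par τ = false)) -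
      (iv (Py y par τ = true) - iv (par = true)) -
      (iv (Py y par τ = false ∧ G0 par τ = false) - iv (Py y par τ = false ∧ Gp y par τ = false)) -
      ∑ z : Option α, (1 - iv (¬ τ = (z, false)) - (iv (Py y par τ = false ∧ G0 par τ = false) -
        iv (Py y par τ = false ∧ G3 z par τ = false))) = iv (τ = (some y, true)) := by
  cases par with
  | false =>
    obtain ⟨h1, h2, h3, _, _⟩ := pw_false y τ none
    have h4 : ∀ z : Option α, (1 - iv (¬ τ = (z, false)) -
        (iv (Py y false τ = false ∧ G0 false τ = false) -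
        iv (Py y false τ = false ∧ G3 z false τ = false))) = 0 := by
      intro z
      obtain ⟨_, _, _, h5, h6⟩ := pw_false y τ z
      rw [h1, h5, h6]; ring
    rw [Finset.sum_congr rfl (fun z _ => h4 z), Finset.sum_const_zero, h1, h2, h3,
      iv_neg (P := false = true) (by simp)]
    ring
  | true =>
    obtain ⟨h1, h2, h3, _, _⟩ := pw_true y τ none
    have h4 : ∀ z : Option α, (1 - iv (¬ τ = (z, false)) -
        (iv (Py y true τ = false ∧ G0 true τ = false) -
        iv (Py y true τ = false ∧ G3 z true τ = false))) = iv (τ = (z, false)) := by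
      intro z
      obtain ⟨_, _, _, h5, h6⟩ := pw_true y τ z
      rw [h1, h5, h6]; ring
    rw [Finset.sum_congr rfl (fun z _ => h4 z), pw_sum, h1, h2, h3, iv_pos (P := true = true) rfl]
    by_cases h5 : τ.2 = true
    · rw [iv_neg (P := τ.2 = false) (by rw [h5]; simp)]
      by_cases h6 : τ.1 = some y
      · rw [iv_neg (P := τ.2 = true ∧ τ.1 ≠ some y) (fun h => h.2 h6),
          iv_pos (P := τ = (some y, true)) (Prod.ext h6 h5)]
        ring
      · rw [iv_pos (P := τ.2 = true ∧ τ.1 ≠ some y) ⟨h5, h6⟩,
          iv_neg (P := τ = (some y, true)) (fun h => h6 (by rw [h]))]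
        ring
    · rw [iv_pos (P := τ.2 = false) (by simpa using h5),
        iv_neg (P := τ.2 = true ∧ τ.1 ≠ some y) (fun h => h5 h.1),
        iv_neg (P := τ = (some y, true)) (fun h => h5 (by rw [h]))]
      ring

theorem Ct_vis4 [Finite Q] [Finite α] {P G : Bool → Ty α → Bool} (h : CFb (dC δ b P G) (bC b))
    (p : Q) : Ct (CR δ b P (fun par τ => P par τ = false ∧ G par τ = false) p) := by
  classical
  refine Ct.congr (Ct_tc h (x0 b p, false)) ?_
  intro w
  unfold CR
  rw [← tc_proj (dC δ b P G) (dR δ b P) Prod.fst (fun x a => rfl)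
    (ph δ b (fun par τ => P par τ = false ∧ G par τ = false)) (x0 b p, false) w]
  apply tc_congr
  intro x a
  unfold ph
  have key : dC δ b P G x a = bC b ↔ δ x.1.1 a = b ∧ P x.1.2.1 (rs x.1.2.2 a) = false ∧
      G x.1.2.1 (rs x.1.2.2 a) = false := by
    unfold dC dR bC
    by_cases hc : δ x.1.1 a = b
    · rw [if_pos hc, if_pos hc]
      simp [hc]
    · rw [if_neg hc, if_neg hc]
      simp [hc]
  refine Eq.trans ?_ (iv_congr key)
  by_cases hk : dC δ b P G x a = bC b
  · rw [iv_pos hk, if_pos hk]
  · rw [iv_neg hk, if_neg hk]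

theorem Ct_all [Finite Q] [Finite α] (h : CFb δ b) (P : Bool → Ty α → Bool) (p : Q) :
    Ct (CR δ b P (fun _ _ => True) p) := by
  classical
  refine Ct.congr (Ct_tc h p) ?_
  intro w
  unfold CR
  have hpr : ∀ (x : Q × Bool × Option (Ty α)) (a : α), (dR δ b P x a).1 = δ x.1 a := by
    intro x a
    unfold dR
    split_ifs with hc
    · exact hc.symm
    · rfl
  have := tc_proj (dR δ b P) δ Prod.fst hpr (fun x a => if δ x a = b then (1 : ℤ) else 0)
    (x0 b p) w
  rw [show (x0 b p : Q × Bool × Option (Ty α)).1 = p from rfl] at this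
  rw [← this]
  apply tc_congr
  intro x a
  unfold ph
  rw [← iv_eq]
  exact iv_congr (by simp)

theorem CR_par (P P' : Bool → Ty α → Bool) (R : Ty α → Prop) (p : Q) (w : List α) :
    CR δ b P (fun _ τ => R τ) p w = CR δ b P' (fun _ τ => R τ) p w := by
  unfold CR
  have key : ∀ (w : List α) (x x' : Q × Bool × Option (Ty α)), x.1 = x'.1 → x.2.2 = x'.2.2 →
      tc (dR δ b P) (ph δ b fun _ τ => R τ) x w = tc (dR δ b P') (ph δ b fun _ τ => R τ) x' w := by
    intro w
    induction w with
    | nil => intro x x' _ _; rfl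
    | cons a w ih =>
      intro x x' h1 h2
      rw [tc, tc]
      congr 1
      · unfold ph; rw [h1, h2]
      · apply ih
        · unfold dR
          rw [h1]
          split_ifs <;> rfl
        · unfold dR
          rw [h1, h2]
          split_ifs <;> rfl
  exact key w _ _ rfl rfl

theorem Ct_R1 [Finite Q] [Finite α] (h : CFb δ b) (hP : OnlyPow δ b) (P : Bool → Ty α → Bool)
    (z : Option α) (p : Q) : Ct (CR δ b P (fun _ τ => ¬ τ = (z, false)) p) := by
  refine Ct.congr (Ct_vis4 (CFb_one h hP z) p) ?_
  intro w
  rw [CR_par P P0]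
  unfold CR
  congr 2
  funext par τ
  simp [P0, G1]

/-- the number of pure loops -/
theorem Ct_pure [Finite Q] [Finite α] (h : CFb δ b) (hP : OnlyPow δ b) (y : α) (p : Q) :
    Ct (CR δ b (Py y) (fun _ τ => τ = (some y, true)) p) := by
  classical
  have := Fintype.ofFinite α
  have hT := Ct_all h (Py y) p
  have h2 := Ct_vis4 (CFb_two h y) p
  have hp := Ct_vis4 (CFb_pure h y) p
  have h3 := fun z => Ct_vis4 (CFb_three h hP y z) p
  have h1 := fun z => Ct_R1 h hP (Py y) z p
  -- the final parity
  have hF : Ct (fun w : List α => iv ((w.foldl (dR δ b (Py y)) (x0 b p)).2.1 = true)) := by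
    refine Ct.congr (Ct_fin (CFb_two h y) (fun x : St4 Q α => iv (x.1.2.1 = true))
      (x0 b p, false)) ?_
    intro w
    have : ∀ (w : List α) (x : St4 Q α), (w.foldl (dC δ b (Py y) G0) x).1 =
        w.foldl (dR δ b (Py y)) x.1 := by
      intro w
      induction w with
      | nil => intro x; rfl
      | cons a w ih => intro x; rw [List.foldl_cons, ih]; rfl
    simp only [this]
  have hsum := ((((hT.sub h2).smul 2).sub hF).sub (h2.sub hp)).sub
    (Ct.sum (Finset.univ : Finset (Option α)) _ fun z _ => ((hT.sub (h1 z)).sub (h2.sub (h3 z))))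
  refine Ct.congr hsum ?_
  intro w
  have hF' : iv ((w.foldl (dR δ b (Py y)) (x0 b p)).2.1 = true) =
      tc (dR δ b (Py y)) (fun x a => ph δ b (fun par τ => Py y par τ = true) x a -
        ph δ b (fun par _ => par = true) x a) (x0 b p) w := by
    rw [tc_tele (dR δ b (Py y)) _ (fun x => iv (x.2.1 = true))]
    · rw [iv_neg (P := (x0 b p : Q × Bool × Option (Ty α)).2.1 = true) (by simp [x0])]
      ring
    · intro x a
      unfold ph dR
      by_cases hc : δ x.1 a = b
      · simp [hc]
      · simp [hc, iv_neg]
  rw [hF']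
  unfold CR
  have hs : ∀ z : Option α, tc (dR δ b (Py y)) (ph δ b fun _ _ => True) (x0 b p) w -
      tc (dR δ b (Py y)) (ph δ b fun _ τ => ¬τ = (z, false)) (x0 b p) w -
      (tc (dR δ b (Py y)) (ph δ b fun par τ => Py y par τ = false ∧ G0 par τ = false) (x0 b p) w -
      tc (dR δ b (Py y)) (ph δ b fun par τ => Py y par τ = false ∧ G3 z par τ = false)
        (x0 b p) w) = tc (dR δ b (Py y)) (fun x a => (ph δ b (fun _ _ => True) x a -
          ph δ b (fun _ τ => ¬τ = (z, false)) x a) -
          (ph δ b (fun par τ => Py y par τ = false ∧ G0 par τ = false) x a -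
            ph δ b (fun par τ => Py y par τ = false ∧ G3 z par τ = false) x a)) (x0 b p) w := by
    intro z
    rw [tc_sub, tc_sub, tc_sub]
  rw [Finset.sum_congr rfl (fun z _ => hs z), ← tc_sum, two_mul, ← tc_sub, ← tc_add, ← tc_sub,
    ← tc_sub, ← tc_sub, ← tc_sub]
  apply tc_congr
  intro x a
  -- pointwise identity
  by_cases hc : δ x.1 a = b
  swap
  · have hz : ∀ R : Bool → Ty α → Prop, ph δ b R x a = 0 := fun R => iv_neg fun h => hc h.1
    simp only [hz]; simp
  set τ := rs x.2.2 a with hτ
  have hph : ∀ R : Bool → Ty α → Prop, ph δ b R x a = iv (R x.2.1 τ) := by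
    intro R
    exact iv_congr (by simp [hc, hτ])
  simp only [hph]
  rw [iv_pos (P := True) trivial]
  exact pw y x.2.1 τ

/-- increments of the number of readings -/
theorem read_step (y : α) (x : Q × Bool × Option (Ty α)) (a : α) (hx : x.1 = b ↔ x.2.2 = none) :
    iv (x.1 = b ∧ a = y) = (ph δ b (fun _ τ => τ = (some y, true)) x a +
      (ph δ b (fun _ _ => True) x a - ph δ b (fun _ τ => ¬ τ = (some y, false)) x a)) +
      iv (∃ pu, (dR δ b (Py y) x a).2.2 = some (some y, pu)) -
      iv (∃ pu, x.2.2 = some (some y, pu)) := by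
  classical
  have e1 : ∀ τ : Ty α, iv (¬ τ = (some y, false)) = 1 - iv (τ = (some y, false)) := by
    intro τ
    by_cases h2 : τ = (some y, false)
    · rw [iv_pos h2, iv_neg (not_not.2 h2)]; ring
    · rw [iv_pos h2, iv_neg h2]; ring
  have e2 : ∀ τ : Ty α, iv (τ = (some y, true)) + iv (τ = (some y, false)) = iv (τ.1 = some y) := by
    intro τ
    by_cases h2 : τ.1 = some y
    · rw [iv_pos h2]
      cases h3 : τ.2 with
      | false => rw [iv_pos (P := τ = (some y, false)) (Prod.ext h2 h3),
          iv_neg (P := τ = (some y, true)) (fun h => by rw [h] at h3; simp at h3)]; ring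
      | true => rw [iv_pos (P := τ = (some y, true)) (Prod.ext h2 h3),
          iv_neg (P := τ = (some y, false)) (fun h => by rw [h] at h3; simp at h3)]; ring
    · rw [iv_neg h2, iv_neg (P := τ = (some y, false)) (fun h => h2 (by rw [h])),
        iv_neg (P := τ = (some y, true)) (fun h => h2 (by rw [h]))]; ring
  by_cases hc : δ x.1 a = b
  · have hph : ∀ R : Bool → Ty α → Prop, ph δ b R x a = iv (R x.2.1 (rs x.2.2 a)) := by
      intro R
      exact iv_congr (by simp [hc])
    have h3 : (dR δ b (Py y) x a).2.2 = none := by unfold dR; rw [if_pos hc]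
    rw [hph, hph, hph, h3, iv_pos (P := True) trivial, e1,
      iv_neg (P := ∃ pu, (none : Option (Ty α)) = some (some y, pu)) (by simp)]
    have h4 := e2 (rs x.2.2 a)
    have h5 : iv (x.1 = b ∧ a = y) = iv ((rs x.2.2 a).1 = some y) -
        iv (∃ pu, x.2.2 = some (some y, pu)) := by
      cases hr : x.2.2 with
      | none =>
        rw [rs_none, iv_neg (P := ∃ pu, (none : Option (Ty α)) = some (some y, pu)) (by simp),
          sub_zero]
        apply iv_congr
        rw [Option.some.injEq]
        exact ⟨fun h => h.2, fun h => ⟨hx.2 hr, h⟩⟩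
      | some τ =>
        have hb : ¬ x.1 = b := fun hb => by
          have := hx.1 hb
          rw [hr] at this
          exact absurd this (by simp)
        rw [rs_some, iv_neg (fun h => hb h.1)]
        have : iv (τ.1 = some y) = iv (∃ pu, some τ = some (some y, pu)) := by
          apply iv_congr
          constructor
          · intro h; exact ⟨τ.2, by rw [← h]⟩
          · rintro ⟨pu, h⟩
            rw [Option.some.inj h]
        simp only [this]; ring
    rw [h5]; linarith
  · have hph : ∀ R : Bool → Ty α → Prop, ph δ b R x a = 0 := fun R => iv_neg fun h => hc h.1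
    rw [hph, hph, hph]
    have h3 : (dR δ b (Py y) x a).2.2 = some (rs x.2.2 a) := by unfold dR; rw [if_neg hc]
    rw [h3]
    cases hr : x.2.2 with
    | none =>
      rw [rs_none, iv_neg (P := ∃ pu, (none : Option (Ty α)) = some (some y, pu)) (by simp)]
      rw [iv_congr (P := x.1 = b ∧ a = y)
        (P' := ∃ pu, some ((some a, true) : Ty α) = some (some y, pu)) ?_]
      · ring
      · constructor
        · rintro ⟨_, rfl⟩; exact ⟨true, rfl⟩
        · rintro ⟨pu, h⟩
          refine ⟨hx.2 hr, ?_⟩
          have := Option.some.inj h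
          rw [Prod.mk.injEq, Option.some.injEq] at this
          exact this.1
    | some τ =>
      have hb : ¬ x.1 = b := fun hb => by
        have := hx.1 hb
        rw [hr] at this
        exact absurd this (by simp)
      rw [iv_neg (P := x.1 = b ∧ a = y) (fun h => hb h.1)]
      rw [iv_congr (P := ∃ pu, some (rs (some τ) a) = some (some y, pu))
        (P' := ∃ pu, some τ = some (some y, pu)) ?_]
      · ring
      · rw [rs_some]
        constructor
        · rintro ⟨pu, h⟩
          have := congrArg Prod.fst (Option.some.inj h)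
          exact ⟨τ.2, by rw [← show τ.1 = some y from this]⟩
        · rintro ⟨pu, h⟩
          have := congrArg Prod.fst (Option.some.inj h)
          refine ⟨(τ.2 && decide (τ.1 = some a)), ?_⟩
          rw [show τ.1 = some y from this]

/-- **Reading a letter at the base state.** -/
theorem Ct_read [Finite Q] [Finite α] (h : CFb δ b) (hP : OnlyPow δ b) (p : Q) (y : α) :
    Ct (tc δ (fun q a => iv (q = b ∧ a = y)) p) := by
  have h1 := Ct_pure h hP y p
  have h2 := (Ct_all h (Py y) p).sub (Ct_R1 h hP (Py y) (some y) p)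
  -- the final record
  have hF : Ct (fun w : List α =>
      iv (∃ pu, (w.foldl (dR δ b (Py y)) (x0 b p)).2.2 = some (some y, pu))) := by
    refine Ct.congr (Ct_fin (CFb_two h y)
      (fun x : St4 Q α => iv (∃ pu, x.1.2.2 = some (some y, pu))) (x0 b p, false)) ?_
    intro w
    have : ∀ (w : List α) (x : St4 Q α), (w.foldl (dC δ b (Py y) G0) x).1 =
        w.foldl (dR δ b (Py y)) x.1 := by
      intro w
      induction w with
      | nil => intro x; rfl
      | cons a w ih => intro x; rw [List.foldl_cons, ih]; rfl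
    simp only [this]
  refine Ct.congr ((h1.add h2).add hF) ?_
  have key : ∀ (w : List α) (x : Q × Bool × Option (Ty α)), (x.1 = b ↔ x.2.2 = none) →
      tc δ (fun q a => iv (q = b ∧ a = y)) x.1 w =
        tc (dR δ b (Py y)) (fun x a => ph δ b (fun _ τ => τ = (some y, true)) x a +
          (ph δ b (fun _ _ => True) x a - ph δ b (fun _ τ => ¬ τ = (some y, false)) x a)) x w +
        iv (∃ pu, (w.foldl (dR δ b (Py y)) x).2.2 = some (some y, pu)) -
        iv (∃ pu, x.2.2 = some (some y, pu)) := by
    intro w
    induction w with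
    | nil => intro x _; simp [tc]
    | cons a w ih =>
      intro x hx
      have hinv : (dR δ b (Py y) x a).1 = b ↔ (dR δ b (Py y) x a).2.2 = none := by
        unfold dR
        by_cases hc : δ x.1 a = b <;> simp [hc]
      have hst : (dR δ b (Py y) x a).1 = δ x.1 a := by
        unfold dR
        split_ifs with hc
        · exact hc.symm
        · rfl
      have ih' := ih _ hinv
      rw [hst] at ih'
      rw [tc, tc, ih', List.foldl_cons, read_step y x a hx]
      ring
  intro w
  have hk := key w (x0 b p) (by
    unfold x0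
    by_cases hp : p = b <;> simp [hp])
  rw [tc_add, tc_sub] at hk
  have h0 : iv (∃ pu, (x0 b p : Q × Bool × Option (Ty α)).2.2 = some (some y, pu)) = 0 := by
    apply iv_neg
    unfold x0
    by_cases hp : p = b <;> simp [hp]
  rw [h0, sub_zero] at hk
  exact hk.symm

end

end Pool.Agent.TH733.GSH
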