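import Pool.Agent.TH733.GSH.GenR

/-! Automata with three states whose letters act as permutations without fixing the base state:
the number of times a letter is read at the base state is computed in height one. -/

set_option autoImplicit false
set_option linter.unusedSectionVars false

namespace Pool.Agent.TH733.GSH.S3

open Pool.Agent.H936R2.SH Pool.Agent.TH733.GSH Pool.Agent.TH733.GSH.Gen
open Pool.Agent.H815R3.GSH hiding dW

section

variable {α : Type}

/-- records: the length (up to five) and the first four letters of the current loop -/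
abbrev Rec (α : Type) := Fin 6 × (Fin 4 → Option α)

/-- the record of the first `k` letters of a sequence -/
def rk (c : ℕ → α) (k : ℕ) : Rec α :=
  (⟨min k 5, by omega⟩, fun i => if i.val < k then some (c i.val) else none)

/-- update of the records -/
def up (x : Option (Rec α)) (a : α) : Rec α :=
  match x with
  | none => (1, fun i => if i.val = 0 then some a else none)
  | some (n, f) => (⟨min (n.val + 1) 5, by omega⟩,
      fun i => if i.val = n.val ∧ 0 < n.val then some a else f i)

theorem up_none (c : ℕ → α) : up none (c 0) = rk c 1 := by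
  refine Prod.ext rfl (funext fun i => ?_)
  unfold up rk
  by_cases h : i.val = 0
  · simp [h]
  · simp [h]

theorem up_some (c : ℕ → α) (k : ℕ) : up (some (rk c (k + 1))) (c (k + 1)) = rk c (k + 2) := by
  unfold up rk
  refine Prod.ext (Fin.ext ?_) (funext fun i => ?_)
  · change min (min (k + 1) 5 + 1) 5 = min (k + 2) 5
    omega
  · have hi := i.isLt
    change (if i.val = min (k + 1) 5 ∧ 0 < min (k + 1) 5 then some (c (k + 1))
      else if i.val < k + 1 then some (c i.val) else none) = if i.val < k + 2 then _ else _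
    split_ifs with h1 h2 h3 h4 h5
    · have : i.val = k + 1 := by omega
      rw [this]
    · omega
    · rfl
    · omega
    · omega
    · rfl

theorem rk_inj {c c' : ℕ → α} {k k' : ℕ} (h : rk c k = rk c' k') (hk : k ≤ 4) :
    k = k' ∧ ∀ i, i < k → c i = c' i := by
  unfold rk at h
  rw [Prod.mk.injEq, Fin.mk.injEq] at h
  obtain ⟨h1, h2⟩ := h
  have hkk : k = k' := by omega
  refine ⟨hkk, fun i hi => ?_⟩
  have h3 := congrFun h2 ⟨i, by omega⟩
  simp only at h3
  rw [if_pos hi, if_pos (by omega)] at h3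
  exact Option.some.inj h3

theorem rk_congr {c c' : ℕ → α} (k : ℕ) (h : ∀ i, c i = c' i) : rk c k = rk c' k := by
  have : c = c' := funext h
  rw [this]

theorem recPer : RecPer (up : Option (Rec α) → α → Rec α) := by
  intro L K c ρ hL hK hc hρ hp
  have hKL : 0 < K * L := Nat.mul_pos hK hL
  have h1 : ∀ t, (ρ (t + 1)).1.val = min ((ρ t).1.val + 1) 5 := by
    intro t
    rw [hρ]
    rfl
  have hp' : ∀ t n, ρ (t + n * (K * L)) = ρ t := per_mul ρ (K * L) hp
  have h2 : ∀ t n, (ρ (t + n)).1.val = min ((ρ t).1.val + n) 5 := by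
    intro t n
    induction n with
    | zero =>
      have := (ρ t).1.isLt
      simp only [add_zero]
      omega
    | succ n ih => rw [← add_assoc, h1, ih]; omega
  have h5 : ∀ t, (ρ t).1.val = 5 := by
    intro t
    have h3 := h2 t (5 * (K * L))
    rw [hp'] at h3
    have : 5 ≤ 5 * (K * L) := by omega
    omega
  have h4 : ∀ t, ρ (t + 1) = ρ t := by
    intro t
    have e5 := h5 t
    rw [hρ]
    have : ρ t = ((ρ t).1, (ρ t).2) := rfl
    rw [this]
    unfold up
    refine Prod.ext (Fin.ext ?_) (funext fun i => ?_)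
    · change min ((ρ t).1.val + 1) 5 = (ρ t).1.val
      omega
    · change (if i.val = (ρ t).1.val ∧ 0 < (ρ t).1.val then some (c t) else (ρ t).2 i) = (ρ t).2 i
      rw [if_neg]
      rintro ⟨h6, _⟩
      have := i.isLt
      omega
  have h6 : ∀ n, ρ (0 + n) = ρ 0 := by
    intro n
    induction n with
    | zero => rfl
    | succ n ih => rw [← add_assoc, h4, ih]
  exact ⟨0, h6 L⟩

end

section run

variable {α Q : Type} {δ : Q → α → Q} {b : Q} {L K : ℕ} {c : ℕ → α} {y : ℕ → Q × Option (Rec α)}

theorem w_b (hy : Per (dW δ b up) L K c y) {t : ℕ} (h : (y (t + 1)).1 = b) :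
    y (t + 1) = (b, none) := by
  rw [hy.hq, dW] at h ⊢
  split_ifs with hc
  · rfl
  · rw [if_neg hc] at h; exact absurd h hc

theorem w_nb (hy : Per (dW δ b up) L K c y) {t : ℕ} (h : (y (t + 1)).1 ≠ b) :
    (y (t + 1)).2 = some (up (y t).2 (c t)) := by
  rw [hy.hq, dW] at h ⊢
  split_ifs with hc
  · rw [if_pos hc] at h; exact absurd rfl h
  · rfl

theorem w_q (hy : Per (dW δ b up) L K c y) (t : ℕ) : (y (t + 1)).1 = δ (y t).1 (c t) := by
  rw [hy.hq, dW]
  split_ifs with h
  · exact h.symm
  · rfl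

theorem w_none (hy : Per (dW δ b up) L K c y) {t : ℕ} (h : (y t).1 = b) : (y t).2 = none := by
  have hKL : 0 < K * L := Nat.mul_pos hy.hK hy.hL
  have h1 := hy.hp t
  rw [show t + K * L = t + K * L - 1 + 1 by omega] at h1
  rw [← h1] at h ⊢
  rw [w_b hy h]

theorem w_rec (hy : Per (dW δ b up) L K c y) {s : ℕ} (hs : (y s).1 = b) (k : ℕ)
    (h : ∀ i, 0 < i → i ≤ k → (y (s + i)).1 ≠ b) :
    up (y (s + k)).2 (c (s + k)) = rk (fun i => c (s + i)) (k + 1) := by
  induction k with
  | zero =>
    rw [add_zero, w_none hy hs]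
    exact up_none (fun i => c (s + i))
  | succ k ih =>
    have h1 := w_nb hy (t := s + k) (h (k + 1) (by omega) le_rfl)
    rw [← add_assoc, h1, ih fun i h0 h2 => h i h0 (by omega)]
    exact up_some (fun i => c (s + i)) k

/-- the next visit -/
theorem w_next (hy : Per (dW δ b up) L K c y) {s : ℕ} (hs : (y s).1 = b) :
    ∃ n, (∀ i, 0 < i → i < n + 1 → (y (s + i)).1 ≠ b) ∧ (y (s + (n + 1))).1 = b ∧
      (y (s + n + 1)).1 = b ∧
      up (y (s + n)).2 (c (s + n)) = rk (fun i => c (s + i)) (n + 1) := by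
  classical
  have hKL : 0 < K * L := Nat.mul_pos hy.hK hy.hL
  have hex : ∃ n, (y (s + n + 1)).1 = b := by
    refine ⟨K * L - 1, ?_⟩
    rw [show s + (K * L - 1) + 1 = s + K * L by omega, hy.hp]
    exact hs
  have hmin : ∀ i, 0 < i → i ≤ Nat.find hex → (y (s + i)).1 ≠ b := by
    intro i h0 h1 h2
    refine Nat.find_min hex (m := i - 1) (by omega) ?_
    rw [show s + (i - 1) + 1 = s + i by omega]
    exact h2
  exact ⟨Nat.find hex, fun i h0 h1 => hmin i h0 (by omega), Nat.find_spec hex,
    Nat.find_spec hex, w_rec hy hs _ hmin⟩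

/-- periods -/
theorem per_gcd {X : Type} {c : ℕ → X} {n L : ℕ} (hn : 0 < n) (h1 : ∀ t, c (t + n) = c t)
    (h2 : ∀ t, c (t + L) = c t) : ∀ t, c (t + Nat.gcd n L) = c t := by
  intro t
  by_cases hlt : Nat.gcd n L < n
  · obtain ⟨m, -, hm⟩ := Nat.exists_mul_mod_eq_gcd (n := L) (k := n) (by rwa [Nat.gcd_comm])
    rw [Nat.gcd_comm L n] at hm
    have h3 := per_mul c n h1 (t + Nat.gcd n L) (L * m / n)
    have h4 := per_mul c L h2 t m
    rw [← h3, ← hm, show t + L * m % n + L * m / n * n = t + m * L by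
      have := Nat.mod_add_div (L * m) n
      have e : L * m / n * n = n * (L * m / n) := by ring
      have e2 : m * L = L * m := by ring
      omega]
    exact h4
  · have : Nat.gcd n L = n := by
      have := Nat.gcd_le_left L hn
      omega
    rw [this]; exact h1 t

theorem const_of {X : Type} (c : ℕ → X) (g : ℕ) (h0 : 0 < g) (hg : ∀ i, c (i + g) = c i)
    (h : ∀ i, i < g → c (i + 1) = c i) : ∀ i, c (i + 1) = c i := by
  intro i
  induction i using Nat.strong_induction_on with
  | _ i ih =>
    by_cases hi : i < g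
    · exact h i hi
    · have h1 := ih (i - g) (by omega)
      have h2 := hg (i - g + 1)
      have h3 := hg (i - g)
      rw [show i - g + 1 + g = i + 1 by omega] at h2
      rw [show i - g + g = i by omega] at h3
      rw [h2, h1, h3]

theorem const_add {X : Type} (c : ℕ → X) (h : ∀ i, c (i + 1) = c i) (i m : ℕ) :
    c (i + m) = c i := by
  induction m with
  | zero => rfl
  | succ m ih => rw [← add_assoc, h, ih]

end run

theorem rk_congr' {α : Type} {c c' : ℕ → α} (k : ℕ) (h : ∀ i, i < k → c i = c' i) :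
    rk c k = rk c' k := by
  unfold rk
  refine Prod.ext rfl (funext fun i => ?_)
  by_cases hi : i.val < k
  · simp only [hi, if_true]
    rw [h _ hi]
  · simp only [hi, if_false]

/-- types of powers -/
def NG {α : Type} (S : Rec α) : Prop := ∃ (c : ℕ → α) (n g : ℕ), S = rk c n ∧ 0 < g ∧ g < n ∧
  n ≤ 4 ∧ g ∣ n ∧ ∀ i, c (i + g) = c i

theorem third : ∀ b A B A' B' D : Fin 3, A ≠ B → A ≠ b → B ≠ b → A' ≠ B' → A' ≠ b → B' ≠ b →
    D ≠ A' → D ≠ B' → D = b := by decide

section three

variable {α : Type} {δ : Fin 3 → α → Fin 3} {b : Fin 3}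
  (hinj : ∀ a, Function.Injective (fun q => δ q a)) (hfix : ∀ a, δ b a ≠ b)

include hinj hfix

theorem two {L : ℕ} {c : ℕ → α} {q : ℕ → Fin 3} (hc : ∀ t, c (t + L) = c t)
    (hq : ∀ t, q (t + 1) = δ (q t) (c t)) (hd : ∀ t, q (t + L) ≠ q t) (t : ℕ) :
    q t = b ∨ q (t + L) = b ∨ q (t + 1) = b ∨ q (t + 1 + L) = b := by
  by_contra h
  push Not at h
  obtain ⟨h1, h2, h3, h4⟩ := h
  have e1 := hq t
  have e2 : q (t + 1 + L) = δ (q (t + L)) (c t) := by
    rw [show t + 1 + L = t + L + 1 by omega, hq, hc]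
  apply hfix (c t)
  refine third b (q t) (q (t + L)) (q (t + 1)) (q (t + 1 + L)) (δ b (c t)) (hd t).symm h1 h2
    (hd (t + 1)).symm h3 h4 ?_ ?_
  · rw [e1]
    intro h5
    exact h1 (hinj (c t) h5).symm
  · rw [e2]
    intro h5
    exact h2 (hinj (c t) h5).symm

theorem cfb : CFb δ b := by
  apply CFb_iff_per
  intro L K c x hx hav
  by_contra h
  push Not at h
  rcases two hinj hfix hx.hc hx.hq h 0 with h1 | h1 | h1 | h1
  · exact hav _ h1
  · exact hav _ h1
  · exact hav _ h1
  · exact hav _ h1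

theorem good_or (S : Rec α) : Good δ b up S ∨ NG S := by
  by_contra h
  push Not at h
  obtain ⟨h1, h2⟩ := h
  apply h1
  intro L K c y hy hex hall
  by_contra hno
  push Not at hno
  have hKL : 0 < K * L := Nat.mul_pos hy.hK hy.hL
  have hdist : ∀ t, (y (t + L)).1 ≠ (y t).1 := by
    intro t ht
    have h3 : ∀ n, (y (t + n + L)).1 = (y (t + n)).1 := by
      intro n
      induction n with
      | zero => exact ht
      | succ n ih =>
        rw [← add_assoc, w_q hy, show t + n + 1 + L = t + n + L + 1 by omega, w_q hy, ih, hy.hc]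
    obtain ⟨s, hs⟩ := hex
    have h4 : y (s + t * (K * L)) = y s := per_mul y (K * L) hy.hp s t
    have hge : t ≤ t * (K * L) := Nat.le_mul_of_pos_right _ hKL
    have h5 := h3 (s + t * (K * L) - t)
    rw [show t + (s + t * (K * L) - t) = s + t * (K * L) by omega, h4] at h5
    have h6 := hno (s + t * (K * L)) (by rw [h4]; exact hs)
    rw [h5] at h6
    exact h6 hs
  obtain ⟨s, hs⟩ := hex
  obtain ⟨n, hn1, hn2, hn3, hn4⟩ := w_next hy hs
  have hS := hall (s + n) hn3
  rw [hn4] at hS
  by_cases hlen : n + 1 ≤ 4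
  · have hstep : ∀ s', (y s').1 = b → (y (s' + (n + 1))).1 = b ∧
        ∀ i, i < n + 1 → c (s' + i) = c (s + i) := by
      intro s' hs'
      obtain ⟨n', hn1', hn2', hn3', hn4'⟩ := w_next hy hs'
      have hS' := hall (s' + n') hn3'
      rw [hn4', ← hS] at hS'
      obtain ⟨h5, h6⟩ := rk_inj hS'.symm hlen
      rw [h5]
      exact ⟨hn2', fun i hi => (h6 i (by omega)).symm⟩
    have hloop : ∀ k, (y (s + k * (n + 1))).1 = b := by
      intro k
      induction k with
      | zero => rw [zero_mul, add_zero]; exact hs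
      | succ k ih =>
        rw [Nat.succ_mul, ← add_assoc]
        exact (hstep _ ih).1
    have hdet : ∀ i, c (s + i) = c (s + i % (n + 1)) := by
      intro i
      have h5 := (hstep _ (hloop (i / (n + 1)))).2 (i % (n + 1)) (Nat.mod_lt _ (by omega))
      rw [← h5]
      congr 1
      have := Nat.div_add_mod i (n + 1)
      rw [mul_comm (i / (n + 1))]
      omega
    have hc1 : ∀ i, (fun i => c (s + i)) (i + (n + 1)) = (fun i => c (s + i)) i := by
      intro i
      simp only
      rw [hdet (i + (n + 1)), hdet i, Nat.add_mod_right]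
    have hc2 : ∀ i, (fun i => c (s + i)) (i + L) = (fun i => c (s + i)) i := by
      intro i
      simp only
      rw [← add_assoc, hy.hc]
    have hg := per_gcd (c := fun i => c (s + i)) (n := n + 1) (L := L) (by omega) hc1 hc2
    apply h2
    refine ⟨fun i => c (s + i), n + 1, Nat.gcd (n + 1) L, hS.symm,
      Nat.gcd_pos_of_pos_left _ (by omega), ?_, hlen, Nat.gcd_dvd_left _ _, hg⟩
    by_contra hge
    have h6 : Nat.gcd (n + 1) L = n + 1 := by
      have := Nat.gcd_le_left L (show 0 < n + 1 by omega)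
      omega
    obtain ⟨m, hm⟩ : (n + 1) ∣ L := by
      rw [← h6]; exact Nat.gcd_dvd_right _ _
    apply hno s hs
    rw [hm, mul_comm]
    exact hloop m
  · have hlong : ∀ t, (y t).1 = b → ∀ i, 0 < i → i ≤ 4 → (y (t + i)).1 ≠ b := by
      intro t ht i h0 h4 hb
      obtain ⟨n', hn1', hn2', hn3', hn4'⟩ := w_next hy ht
      have hS' := hall (t + n') hn3'
      rw [hn4', ← hS] at hS'
      by_cases h5 : n' + 1 ≤ 4
      · obtain ⟨h6, _⟩ := rk_inj hS' h5
        omega
      · exact hn1' i h0 (by omega) hb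
    have hA := hlong s hs
    have hw := two hinj hfix (q := fun t => (y t).1) hy.hc (w_q hy) hdist
    have hB : ∀ i j, i < j → j ≤ i + 4 → (y (s + i + L)).1 = b → (y (s + j + L)).1 = b → False := by
      intro i j h5 h6 h7 h8
      apply hlong _ h7 (j - i) (by omega) (by omega)
      rw [show s + i + L + (j - i) = s + j + L by omega]
      exact h8
    rcases hw (s + 1) with h | h | h | h
    · exact hA 1 (by omega) (by omega) h
    · rcases hw (s + 3) with h' | h' | h' | h'
      · exact hA 3 (by omega) (by omega) h'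
      · exact hB 1 3 (by omega) (by omega) h h'
      · exact hA 4 (by omega) (by omega) h'
      · exact hB 1 4 (by omega) (by omega) h h'
    · exact hA 2 (by omega) (by omega) h
    · rcases hw (s + 3) with h' | h' | h' | h'
      · exact hA 3 (by omega) (by omega) h'
      · exact hB 2 3 (by omega) (by omega) h h'
      · exact hA 4 (by omega) (by omega) h'
      · exact hB 2 4 (by omega) (by omega) h h'

omit hinj hfix in
theorem alt_of {S Z : Rec α} (hS : NG S) (hZ : NG Z) (hne : S ≠ Z) : Alt δ b up S Z := by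
  obtain ⟨c1, n1, g1, hS1, hg1, hgn1, hn1, hd1, hp1⟩ := hS
  obtain ⟨c2, n2, g2, hZ1, hg2, hgn2, hn2, hd2, hp2⟩ := hZ
  intro L K c y par hy hex hpp hnb hb
  have hconst : ∀ s n, (∀ i, 0 < i → i < n + 1 → (y (s + i)).1 ≠ b) →
      par (s + n) = par s := by
    intro s n
    induction n with
    | zero => intro _; rfl
    | succ n ih =>
      intro h
      rw [← add_assoc, hnb (s + n) (h (n + 1) (by omega) (by omega))]
      exact ih fun i h0 h1 => h i h0 (by omega)
  obtain ⟨s, hs, hps⟩ : ∃ s, (y s).1 = b ∧ par s = false := by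
    obtain ⟨s, hs⟩ := hex
    by_cases hp : par s = false
    · exact ⟨s, hs, hp⟩
    · obtain ⟨n, h1, h2, h3, h4⟩ := w_next hy hs
      have h5 := hconst s n h1
      rcases hb (s + n) h3 with ⟨h6, _⟩ | ⟨_, _, h6⟩
      · rw [h5] at h6; exact absurd h6 hp
      · exact ⟨s + n + 1, h3, h6⟩
  have hpair : ∀ s, (y s).1 = b → par s = false →
      (∀ i, 0 < i → i < n1 → (y (s + i)).1 ≠ b) ∧ (∀ i, i < n1 → c (s + i) = c1 i) ∧
      (∀ i, 0 < i → i < n2 → (y (s + n1 + i)).1 ≠ b) ∧ (∀ i, i < n2 → c (s + n1 + i) = c2 i) ∧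
      (y (s + n1)).1 = b ∧ (y (s + n1 + n2)).1 = b ∧ par (s + n1 + n2) = false := by
    intro s hs hps
    obtain ⟨n, h1, h2, h3, h4⟩ := w_next hy hs
    have h5 := hconst s n h1
    rcases hb (s + n) h3 with ⟨h6, h7, h8⟩ | ⟨h6, _⟩
    swap
    · rw [h5, hps] at h6; exact absurd h6 (by simp)
    rw [h4, hS1] at h7
    obtain ⟨e1, e2⟩ := rk_inj h7.symm hn1
    rw [← e1] at h1 h2
    have h8' : par (s + n1) = true := by rw [e1, ← add_assoc]; exact h8
    obtain ⟨n', h1', h2', h3', h4'⟩ := w_next hy h2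
    have h5' := hconst (s + n1) n' h1'
    rcases hb (s + n1 + n') h3' with ⟨h6', _⟩ | ⟨h6', h7', h8''⟩
    · rw [h5', h8'] at h6'; exact absurd h6' (by simp)
    rw [h4', hZ1] at h7'
    obtain ⟨e1', e2'⟩ := rk_inj h7'.symm hn2
    rw [← e1'] at h1' h2'
    refine ⟨h1, fun i hi => (e2 i hi).symm, h1', fun i hi => (e2' i hi).symm, h2, h2', ?_⟩
    rw [e1', ← add_assoc]; exact h8''
  have hloop : ∀ k, (y (s + k * (n1 + n2))).1 = b ∧ par (s + k * (n1 + n2)) = false := by
    intro k
    induction k with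
    | zero => rw [zero_mul, add_zero]; exact ⟨hs, hps⟩
    | succ k ih =>
      rw [Nat.succ_mul, ← add_assoc, ← add_assoc]
      obtain ⟨_, _, _, _, _, h1, h2⟩ := hpair _ ih.1 ih.2
      exact ⟨h1, h2⟩
  by_cases hdvd : (n1 + n2) ∣ L
  · obtain ⟨m, hm⟩ := hdvd
    refine ⟨s, hs, ?_, ?_⟩
    · rw [hm, mul_comm]; exact (hloop m).1
    · rw [hm, mul_comm, (hloop m).2, hps]
  exfalso
  have hdet : ∀ i, c (s + i) = c (s + i % (n1 + n2)) := by
    intro i
    obtain ⟨_, h5, _, h6, _⟩ := hpair _ (hloop (i / (n1 + n2))).1 (hloop (i / (n1 + n2))).2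
    obtain ⟨_, h5', _, h6', _⟩ := hpair _ hs hps
    have e0 : s + i = s + i / (n1 + n2) * (n1 + n2) + i % (n1 + n2) := by
      have := Nat.div_add_mod i (n1 + n2)
      rw [mul_comm (i / (n1 + n2))]
      omega
    have hlt : i % (n1 + n2) < n1 + n2 := Nat.mod_lt _ (by omega)
    by_cases h7 : i % (n1 + n2) < n1
    · rw [e0, h5 _ h7, h5' _ h7]
    · have h8 := h6 (i % (n1 + n2) - n1) (by omega)
      have h9 := h6' (i % (n1 + n2) - n1) (by omega)
      rw [show s + i / (n1 + n2) * (n1 + n2) + n1 + (i % (n1 + n2) - n1) =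
        s + i / (n1 + n2) * (n1 + n2) + i % (n1 + n2) by omega] at h8
      rw [show s + n1 + (i % (n1 + n2) - n1) = s + i % (n1 + n2) by omega] at h9
      rw [e0, h8, h9]
  obtain ⟨c', hc'⟩ : ∃ c' : ℕ → α, c' = fun i => c (s + i) := ⟨_, rfl⟩
  have hc1 : ∀ i, c' (i + (n1 + n2)) = c' i := by
    intro i
    rw [hc']
    simp only
    rw [hdet (i + (n1 + n2)), hdet i, Nat.add_mod_right]
  have hc2 : ∀ i, c' (i + L) = c' i := by
    intro i
    rw [hc']
    simp only
    rw [← add_assoc, hy.hc]
  have hg := per_gcd (n := n1 + n2) (L := L) (by omega) hc1 hc2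
  obtain ⟨g, hgdef⟩ : ∃ g, g = Nat.gcd (n1 + n2) L := ⟨_, rfl⟩
  rw [← hgdef] at hg
  have hg0 : 0 < g := by rw [hgdef]; exact Nat.gcd_pos_of_pos_left _ (by omega)
  have hgd : g ∣ n1 + n2 := by rw [hgdef]; exact Nat.gcd_dvd_left _ _
  have hgL : g ∣ L := by rw [hgdef]; exact Nat.gcd_dvd_right _ _
  have hglt : g < n1 + n2 := by
    rcases Nat.lt_or_ge g (n1 + n2) with h | h
    · exact h
    · exfalso
      apply hdvd
      have : g = n1 + n2 := le_antisymm (Nat.le_of_dvd (by omega) hgd) h
      rw [← this]; exact hgL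
  obtain ⟨hv1, ha1, hv2, ha2, hq1, hq2, _⟩ := hpair s hs hps
  have ha1' : ∀ i, i < n1 → c' i = c1 i := by rw [hc']; exact ha1
  have ha2' : ∀ i, i < n2 → c' (n1 + i) = c2 i := by
    intro i hi
    rw [hc']
    simp only
    rw [← add_assoc]; exact ha2 i hi
  have hkey : g ∣ n1 ∨ (n1 = 3 ∧ n2 = 3 ∧ g = 2) ∨ (n1 = 2 ∧ n2 = 4 ∧ g = 3) ∨
      (n1 = 4 ∧ n2 = 2 ∧ g = 3) := by
    have h2n1 : 2 ≤ n1 := by omega
    have h2n2 : 2 ≤ n2 := by omega
    clear hc1 hc2 hg hgdef hgL hdvd hdet hloop hpair hv1 ha1 hv2 ha2 hq1 hq2 ha1' ha2' hS1 hZ1 hd1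
      hd2 hgn1 hgn2 hp1 hp2 hc'
    interval_cases n1 <;> interval_cases n2 <;> interval_cases g <;> omega
  have hshift : ∀ i, c' (i + n1) = c' i := by
    rcases hkey with h | ⟨e1, e2, e3⟩ | ⟨e1, e2, e3⟩ | ⟨e1, e2, e3⟩
    · obtain ⟨m, hm⟩ := h
      intro i
      rw [hm, mul_comm]
      exact per_mul c' g hg i m
    · subst e1 e2 e3
      have : g1 = 1 := by interval_cases g1 <;> omega
      subst this
      have h0 : c' 1 = c' 0 := by rw [ha1' 1 (by omega), ha1' 0 (by omega)]; exact hp1 0
      have h2 : c' 2 = c' 0 := hg 0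
      have hcc := const_of c' 2 (by omega) hg (by
        intro i hi
        interval_cases i
        · exact h0
        · exact h2.trans h0.symm)
      intro i
      exact const_add c' hcc i 3
    · subst e1 e2 e3
      have : g1 = 1 := by omega
      subst this
      have h0 : c' 1 = c' 0 := by rw [ha1' 1 (by omega), ha1' 0 (by omega)]; exact hp1 0
      have h24 : c' 4 = c' 2 := by
        have h5 := ha2' 2 (by omega)
        have h6 := ha2' 0 (by omega)
        have h7 : c2 2 = c2 0 := by
          have : g2 = 1 ∨ g2 = 2 := by interval_cases g2 <;> omega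
          rcases this with h | h
          · subst h
            exact (hp2 1).trans (hp2 0)
          · subst h
            exact hp2 0
        rw [show 2 + 2 = 4 by norm_num] at h5
        rw [show 2 + 0 = 2 by norm_num] at h6
        rw [h5, h6, h7]
      have h14 : c' 4 = c' 1 := hg 1
      have h03 : c' 3 = c' 0 := hg 0
      have h2 : c' 2 = c' 1 := h24.symm.trans h14
      have hcc := const_of c' 3 (by omega) hg (by
        intro i hi
        interval_cases i
        · exact h0
        · exact h2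
        · exact h03.trans (h0.symm.trans h2.symm))
      intro i
      exact const_add c' hcc i 2
    · subst e1 e2 e3
      have h02 : c' 2 = c' 0 ∧ c' 3 = c' 1 := by
        have : g1 = 1 ∨ g1 = 2 := by interval_cases g1 <;> omega
        rw [ha1' 3 (by omega), ha1' 2 (by omega), ha1' 1 (by omega), ha1' 0 (by omega)]
        rcases this with h | h
        · subst h
          exact ⟨(hp1 1).trans (hp1 0), (hp1 2).trans (hp1 1)⟩
        · subst h
          exact ⟨hp1 0, hp1 1⟩
      have h03 : c' 3 = c' 0 := hg 0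
      have h10 : c' 1 = c' 0 := h02.2.symm.trans h03
      have hcc := const_of c' 3 (by omega) hg (by
        intro i hi
        interval_cases i
        · exact h10
        · exact h02.1.trans h10.symm
        · exact h03.trans h02.1.symm)
      intro i
      exact const_add c' hcc i 4
  have hqq : ∀ i, (y (s + (i + n1))).1 = (y (s + i)).1 := by
    intro i
    induction i with
    | zero => rw [zero_add, add_zero, hq1, hs]
    | succ i ih =>
      have e1 := w_q hy (s + (i + n1))
      have e2 := w_q hy (s + i)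
      have e3 := hshift i
      rw [hc'] at e3
      simp only at e3
      rw [show s + (i + 1 + n1) = s + (i + n1) + 1 by omega, e1, ih, e3,
        show s + (i + 1) = s + i + 1 by omega, e2]
  have hnn : n1 = n2 := by
    rcases Nat.lt_trichotomy n1 n2 with h | h | h
    · exfalso
      have h5 := hqq n1
      rw [hq1] at h5
      apply hv2 n1 (by omega) h
      rw [add_assoc]
      exact h5
    · exact h
    · exfalso
      have h5 := hqq n2
      apply hv1 n2 (by omega) h
      rw [← h5, show s + (n2 + n1) = s + n1 + n2 by omega]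
      exact hq2
  subst hnn
  apply hne
  rw [hS1, hZ1]
  apply rk_congr'
  intro i hi
  rw [← ha1' i hi, ← ha2' i hi, add_comm, hshift]

theorem goodAlt (S Z : Rec α) (h : S ≠ Z) :
    Good δ b up S ∨ Good δ b up Z ∨ Alt δ b up S Z := by
  rcases good_or hinj hfix S with h1 | h1
  · exact Or.inl h1
  · rcases good_or hinj hfix Z with h2 | h2
    · exact Or.inr (Or.inl h2)
    · exact Or.inr (Or.inr (alt_of h1 h2 h))

/-- **Letters read at the base state.** -/
theorem Ct_read3 [Finite α] (p : Fin 3) (z : α) :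
    Ct (tc δ (fun q a => iv (q = b ∧ a = z)) p) := by
  refine Gen.Ct_read (R := Rec α) (5, fun _ => none) (cfb hinj hfix) recPer (goodAlt hinj hfix)
    (fun ρ => ρ.2 0) ?_ ?_ rfl p z
  · intro a
    rfl
  · rintro ⟨n, f⟩ a
    change (if (0 : Fin 4).val = n.val ∧ 0 < n.val then some a else f 0) = f 0
    rw [if_neg]
    rintro ⟨h1, h2⟩
    have : (0 : Fin 4).val = 0 := rfl
    omega

end three

end Pool.Agent.TH733.GSH.S3
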