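import Pool.Agent.TH733.GSH.S3a
import Pool.Agent.TH733.GSH.Cyc
import Pool.Agent.TH733.GSH.Bouq

/-! Letters which act trivially. -/

set_option autoImplicit false
set_option linter.unusedSectionVars false

namespace Pool.Agent.TH733.GSH.S3

open Pool.Agent.H936R2.SH Pool.Agent.TH733.GSH
open Pool.Agent.H815R3.GSH hiding dW

section erase

variable {α : Type} (P : α → Prop)

open Classical in
/-- erasing the letters which do not satisfy `P` -/
noncomputable def er (w : List α) : List {a : α // P a} :=
  w.filterMap (fun a => if h : P a then some ⟨a, h⟩ else none)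

theorem er_nil : er P [] = [] := rfl

theorem er_append (u v : List α) : er P (u ++ v) = er P u ++ er P v := by
  unfold er
  exact List.filterMap_append

theorem er_pos {a : α} (h : P a) : er P [a] = [⟨a, h⟩] := by
  unfold er
  simp [h]

theorem er_neg {a : α} (h : ¬ P a) : er P [a] = [] := by
  unfold er
  simp [h]

theorem er_eq_nil (w : List α) : er P w = [] ↔ ∀ x ∈ w, x ∈ {a : α | ¬ P a} := by
  induction w with
  | nil => simp [er_nil]
  | cons a w ih =>
    rw [← List.singleton_append, er_append, List.append_eq_nil_iff, ih]
    by_cases h : P a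
    · rw [er_pos P h]
      simp [h]
    · rw [er_neg P h]
      simp [h]

theorem er_split (w : List α) (x y : List {a : α // P a}) (h : er P w = x ++ y) :
    ∃ u v, w = u ++ v ∧ er P u = x ∧ er P v = y := by
  induction w generalizing x with
  | nil =>
    rw [er_nil] at h
    obtain ⟨h1, h2⟩ := List.append_eq_nil_iff.1 h.symm
    exact ⟨[], [], rfl, by rw [h1]; rfl, by rw [h2]; rfl⟩
  | cons a w ih =>
    rw [← List.singleton_append, er_append] at h
    by_cases ha : P a
    · rw [er_pos P ha] at h
      cases x with
      | nil =>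
        refine ⟨[], a :: w, rfl, rfl, ?_⟩
        rw [← List.singleton_append, er_append, er_pos P ha, h]; rfl
      | cons c x =>
        rw [List.cons_append, List.nil_append, List.cons_append, List.cons.injEq] at h
        obtain ⟨u, v, h1, h2, h3⟩ := ih x h.2
        refine ⟨a :: u, v, by rw [h1]; rfl, ?_, h3⟩
        rw [← List.singleton_append, er_append, er_pos P ha, h2, h.1]; rfl
    · rw [er_neg P ha, List.nil_append] at h
      obtain ⟨u, v, h1, h2, h3⟩ := ih x h
      refine ⟨a :: u, v, by rw [h1]; rfl, ?_, h3⟩
      rw [← List.singleton_append, er_append, er_neg P ha, h2]; rfl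

variable [Finite α]

theorem HS_er_nil (n : ℕ) : HS n {w : List α | er P w = []} := by
  have h := HS.words (α := α) n {a | ¬ P a}
  convert h using 1
  ext w
  exact er_eq_nil P w

theorem er_flatten (l : List (List {a : α // P a})) (hl : l ≠ []) (w : List α)
    (h : er P w = l.flatten) : ∃ l' : List (List α), w = l'.flatten ∧
      ∀ x ∈ l', er P x ∈ l := by
  induction l generalizing w with
  | nil => exact absurd rfl hl
  | cons x l ih =>
    rw [List.flatten_cons] at h
    by_cases hl' : l = []
    · subst hl'
      rw [List.flatten_nil, List.append_nil] at h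
      exact ⟨[w], by simp, by simp [h]⟩
    · obtain ⟨u, v, h1, h2, h3⟩ := er_split P w x _ h
      obtain ⟨l', h4, h5⟩ := ih hl' v h3
      refine ⟨u :: l', by rw [List.flatten_cons, ← h4, h1], ?_⟩
      intro z hz
      rcases List.mem_cons.1 hz with rfl | hz
      · rw [h2]; exact List.mem_cons_self
      · exact List.mem_cons_of_mem _ (h5 z hz)

theorem HS_er {n : ℕ} {X : Set (List {a : α // P a})} (h : HS n X) :
    HS n {w : List α | er P w ∈ X} := by
  induction h with
  | empty n => exact HS.empty n
  | eps n => exact HS_er_nil P n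
  | letter n a =>
    have h1 : HS n (cat {w : List α | er P w = []} (cat {[a.1]} {w : List α | er P w = []})) :=
      (HS_er_nil P n).cat ((HS.letter n a.1).cat (HS_er_nil P n))
    convert h1 using 1
    ext w
    constructor
    · intro hw
      have hw' : er P w = [] ++ ([a] ++ []) := hw
      clear hw
      induction w with
      | nil => exact absurd hw' (by simp [er_nil])
      | cons c w ih =>
        rw [← List.singleton_append, er_append] at hw'
        by_cases hc : P c
        · rw [er_pos P hc, List.nil_append, List.append_nil, List.singleton_append,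
            List.cons.injEq] at hw'
          refine ⟨[], er_nil P, c :: w, ⟨[a.1], rfl, w, hw'.2, ?_⟩, rfl⟩
          rw [← hw'.1]; rfl
        · rw [er_neg P hc, List.nil_append] at hw'
          obtain ⟨x, hx, y, hy, h3⟩ := ih hw'
          refine ⟨c :: x, ?_, y, hy, by rw [← h3]; rfl⟩
          change er P (c :: x) = []
          rw [← List.singleton_append, er_append, er_neg P hc, hx]; rfl
    · rintro ⟨x, hx, _, ⟨y, hy, z, hz, rfl⟩, rfl⟩
      have hy' : y = [a.1] := hy
      have hx' : er P x = [] := hx
      have hz' : er P z = [] := hz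
      change er P (x ++ (y ++ z)) = [a]
      rw [er_append, er_append, hx', hz', hy', er_pos P a.2]; rfl
  | union _ _ h1 h2 => exact h1.union h2
  | @cat n X Y _ _ h1 h2 =>
    have h := h1.cat h2
    convert h using 1
    ext w
    constructor
    · rintro ⟨x, hx, y, hy, h3⟩
      obtain ⟨u, v, h4, h5, h6⟩ := er_split P w x y h3.symm
      exact ⟨u, by rw [Set.mem_ofPred_eq, h5]; exact hx, v,
        by rw [Set.mem_ofPred_eq, h6]; exact hy, h4.symm⟩
    · rintro ⟨u, hu, v, hv, rfl⟩
      exact ⟨_, hu, _, hv, (er_append P u v).symm⟩
  | compl _ h1 => exact h1.compl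
  | @star n X _ h1 =>
    have h := (HS_er_nil P (n + 1)).union h1.star
    convert h using 1
    ext w
    constructor
    · rintro ⟨l, hl, hw⟩
      by_cases hl' : l = []
      · left
        rw [hl'] at hw
        exact hw
      · right
        obtain ⟨l', h3, h4⟩ := er_flatten P l hl' w hw
        exact ⟨l', fun x hx => hl _ (h4 x hx), h3⟩
    · rintro (hw | ⟨l, hl, hw⟩)
      · exact ⟨[], by simp, hw⟩
      · refine ⟨l.map (er P), ?_, ?_⟩
        · intro x hx
          obtain ⟨z, hz, rfl⟩ := List.mem_map.1 hx
          exact hl z hz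
        · rw [hw]
          clear hw hl
          induction l with
          | nil => rfl
          | cons x l ih => rw [List.flatten_cons, er_append, ih]; rfl

theorem Ct_er {F : List {a : α // P a} → ℤ} (h : Ct F) : Ct (fun w : List α => F (er P w)) :=
  fun M hM r => HS_er P (h M hM r)

end erase

section stay

variable {Q α : Type} {δ : Q → α → Q} {b : Q}

open Classical in
/-- cover with a tag after reading `y` at `b` -/
noncomputable def dY (δ : Q → α → Q) (b : Q) (y : α) (x : Q × Bool) (a : α) : Q × Bool :=
  (δ x.1 a, decide (x.1 = b ∧ a = y))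

theorem CFb_dY (h : CFb δ b) (y : α) : CFb (dY δ b y) (b, false) := by
  classical
  apply CFb_iff_per
  intro L K c x hx hav
  have hper : Per δ L K c (fun t => (x t).1) :=
    ⟨hx.hL, hx.hK, hx.hc, fun t => by rw [hx.hq]; rfl, fun t => by rw [hx.hp]⟩
  have htag : ∀ t, (x (t + 1)).1 = b → (x t).1 = b ∧ c t = y := by
    intro t ht
    by_contra h2
    apply hav (t + 1)
    refine Prod.ext ht ?_
    rw [hx.hq]
    exact decide_eq_false h2
  by_cases hb : ∀ t, (x t).1 ≠ b
  · have h1 := CFb_per h hper hb
    refine ⟨1, Prod.ext (h1 1) ?_⟩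
    rw [show 1 + L = L + 1 by omega, hx.hq, show (x 1).2 = (dY δ b y (x 0) (c 0)).2 by
      rw [← hx.hq]]
    have e1 : (dY δ b y (x L) (c L)).2 = false := decide_eq_false fun h3 => hb _ h3.1
    have e2 : (dY δ b y (x 0) (c 0)).2 = false := decide_eq_false fun h3 => hb _ h3.1
    rw [e1, e2]
  · push Not at hb
    obtain ⟨s, hs⟩ := hb
    have hback : ∀ n, n ≤ s → (x (s - n)).1 = b := by
      intro n
      induction n with
      | zero => intro _; exact hs
      | succ n ih =>
        intro hn
        have h1 := ih (by omega)
        rw [show s - n = s - (n + 1) + 1 by omega] at h1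
        exact (htag _ h1).1
    have h0 : (x 0).1 = b := by
      have := hback s le_rfl
      rwa [Nat.sub_self] at this
    have hall : ∀ t, (x t).1 = b ∧ c t = y := by
      intro t
      have hKL : 0 < K * L := Nat.mul_pos hx.hK hx.hL
      have hge : t + 1 ≤ (t + 1) * (K * L) := Nat.le_mul_of_pos_right _ hKL
      have h2 : x (0 + (t + 1) * (K * L)) = x 0 := per_mul x (K * L) hx.hp 0 (t + 1)
      have hback' : ∀ n, n ≤ (t + 1) * (K * L) → (x ((t + 1) * (K * L) - n)).1 = b := by
        intro n
        induction n with
        | zero =>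
          intro _
          rw [Nat.sub_zero]
          rw [zero_add] at h2
          rw [h2]; exact h0
        | succ n ih =>
          intro hn
          have h1 := ih (by omega)
          rw [show (t + 1) * (K * L) - n = (t + 1) * (K * L) - (n + 1) + 1 by omega] at h1
          exact (htag _ h1).1
      have h3 := hback' ((t + 1) * (K * L) - (t + 1)) (by omega)
      rw [show (t + 1) * (K * L) - ((t + 1) * (K * L) - (t + 1)) = t + 1 by omega] at h3
      exact htag t h3
    refine ⟨1, Prod.ext ?_ ?_⟩
    · rw [(hall _).1, (hall _).1]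
    · rw [show 1 + L = L + 1 by omega, hx.hq, show (x 1).2 = (dY δ b y (x 0) (c 0)).2 by
        rw [← hx.hq]]
      have e1 : (dY δ b y (x L) (c L)).2 = true := decide_eq_true (hall L)
      have e2 : (dY δ b y (x 0) (c 0)).2 = true := decide_eq_true (hall 0)
      rw [e1, e2]

/-- letters fixing the base state are counted at the base state -/
theorem Ct_stay [Finite Q] [Finite α] (h : CFb δ b) {y : α} (hy : δ b y = b) (p : Q) :
    Ct (tc δ (fun q a => iv (q = b ∧ a = y)) p) := by
  classical
  refine Ct.congr ((Ct_tc h p).sub (Ct_tc (CFb_dY h y) (p, false))) ?_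
  intro w
  rw [← tc_proj (dY δ b y) δ Prod.fst (fun x a => rfl) _ (p, false) w, ← tc_sub,
    ← tc_proj (dY δ b y) δ Prod.fst (fun x a => rfl) _ (p, false) w]
  apply tc_congr
  intro x a
  by_cases h1 : x.1 = b ∧ a = y
  · rw [iv_pos h1]
    have e1 : δ x.1 a = b := by rw [h1.1, h1.2]; exact hy
    have e2 : dY δ b y x a ≠ (b, false) := by
      intro h3
      have := congrArg Prod.snd h3
      rw [show (dY δ b y x a).2 = true from decide_eq_true h1] at this
      exact absurd this (by simp)
    rw [if_pos e1, if_neg e2]; ring
  · rw [iv_neg h1]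
    by_cases e1 : δ x.1 a = b
    · have e2 : dY δ b y x a = (b, false) := Prod.ext e1 (decide_eq_false h1)
      rw [if_pos e1, if_pos e2]; ring
    · have e2 : dY δ b y x a ≠ (b, false) := fun h3 => e1 (congrArg Prod.fst h3)
      rw [if_neg e1, if_neg e2]; ring

end stay

end Pool.Agent.TH733.GSH.S3
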