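import Pool.Agent.TH733.GSH.S3b

/-! Groups acting on three points. -/

set_option autoImplicit false
set_option linter.unusedSectionVars false
set_option linter.style.haveILetI false

namespace Pool.Agent.TH733.GSH.S3

open Pool.Agent.H936R2.SH Pool.Agent.TH733.GSH
open Pool.Agent.H815R3.GSH hiding dW
open scoped commutatorElement

theorem deco : ∀ σ h : Equiv.Perm (Fin 3), 3 * (if σ = h then (1 : ℤ) else 0) =
    (∑ i : Fin 3, if σ⁻¹ (h i) = i then (1 : ℤ) else 0) -
      (if Equiv.Perm.sign σ = Equiv.Perm.sign h then 0 else 1) := by decide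

section perm

variable {α : Type} (g : α → Equiv.Perm (Fin 3))

/-- action of the letters -/
def dS (q : Fin 3) (a : α) : Fin 3 := (g a)⁻¹ q

/-- inverse action of the letters -/
def dI (q : Fin 3) (a : α) : Fin 3 := (g a) q

theorem dS_inj (a : α) : Function.Injective (fun q => dS g q a) := fun _ _ h =>
  (g a)⁻¹.injective h

theorem dI_inj (a : α) : Function.Injective (fun q => dI g q a) := fun _ _ h =>
  (g a).injective h

theorem dI_dS (q : Fin 3) (a : α) : dI g (dS g q a) a = q := by
  simp [dI, dS]

theorem dS_run (p : Fin 3) (w : List α) : w.foldl (dS g) p = ((w.map g).prod)⁻¹ p := by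
  induction w using List.reverseRecOn with
  | nil => simp
  | append_singleton w a ih =>
    rw [List.foldl_append, ih, List.foldl_cons, List.foldl_nil, dS, List.map_append,
      List.prod_append, mul_inv_rev]
    simp

/-- the number of times the letter `y` is read at the state `i` -/
noncomputable def T (p i : Fin 3) (y : α) (w : List α) : ℤ :=
  tc (dS g) (fun q a => iv (q = i ∧ a = y)) p w

variable [Finite α]

theorem T_total (p : Fin 3) (y : α) (w : List α) :
    T g p 0 y w + T g p 1 y w + T g p 2 y w = Sy (fun _ => 1) y w := by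
  classical
  unfold T
  rw [← tc_add, ← tc_add]
  induction w using List.reverseRecOn with
  | nil => rfl
  | append_singleton w c ih =>
    rw [tc_snoc, ih, Sy_snoc]
    congr 1
    generalize w.foldl (dS g) p = q
    by_cases hc : c = y
    · subst hc
      rw [if_pos rfl]
      fin_cases q <;> simp [iv]
    · rw [if_neg hc, iv_neg (fun h => hc h.2), iv_neg (fun h => hc h.2), iv_neg (fun h => hc h.2)]
      rfl

theorem Ct_one (y : α) : Ct (Sy (fun _ : List α => (1 : ℤ)) y) :=
  Ct_walk (fun _ : α => (0 : ℤ)) (fun _ => Or.inr (Or.inl rfl)) y 1 (fun _ => 1)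

theorem three_cases : ∀ i j k : Fin 3, i ≠ j → k ≠ i → k ≠ j →
    ∀ x : Fin 3 → ℤ, x k = x 0 + x 1 + x 2 - x i - x j := by
  intro i j k h1 h2 h3 x
  fin_cases i <;> fin_cases j <;> fin_cases k <;> simp_all <;> ring

theorem T_third {p : Fin 3} {y : α} {i j : Fin 3} (hij : i ≠ j) (hi : Ct (T g p i y))
    (hj : Ct (T g p j y)) (k : Fin 3) : Ct (T g p k y) := by
  by_cases h1 : k = i
  · rw [h1]; exact hi
  by_cases h2 : k = j
  · rw [h2]; exact hj
  refine Ct.congr (((Ct_one y).sub hi).sub hj) ?_
  intro w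
  rw [← T_total g p y w]
  exact (three_cases i j k hij h1 h2 (fun k => T g p k y w)).symm

/-- no letter fixes the point `b` -/
theorem Ct_A {b : Fin 3} (hb : ∀ a, g a b ≠ b) (p i : Fin 3) (y : α) : Ct (T g p i y) := by
  have hS : ∀ a, dS g b a ≠ b := by
    intro a h
    apply hb a
    have h2 : (g a)⁻¹ b = b := h
    rw [Equiv.Perm.inv_eq_iff_eq] at h2
    exact h2.symm
  have hI : ∀ a, dI g b a ≠ b := hb
  have h1 : Ct (T g p b y) := Ct_read3 (dS_inj g) hS p y
  have h2 : Ct (T g p (g y b) y) := by
    have h3 := Ct.cases (fun w : List α => w.foldl (dS g) p)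
      (fun i => run1 (cfb (dS_inj g) hS) p i)
      (fun e w => tc (dI g) (fun q a => iv (q = b ∧ a = y)) e w.reverse)
      (fun e => (Ct_read3 (dI_inj g) hI e y).rev)
    refine Ct.congr h3 ?_
    intro w
    rw [← arr_rev (dS g) (dI g) (dI_dS g) b y p w]
    unfold T
    apply tc_congr
    intro x a
    apply iv_congr
    constructor
    · rintro ⟨h4, rfl⟩
      refine ⟨?_, rfl⟩
      rw [← h4]
      simp [dS]
    · rintro ⟨h4, rfl⟩
      refine ⟨?_, rfl⟩
      rw [h4]
      simp [dS]
  exact T_third g (Ne.symm (hb y)) h1 h2 i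

theorem cfb' {b : Fin 3} (hb : ∀ a, g a = 1 ∨ g a b ≠ b) : CFb (dS g) b := by
  apply CFb_iff_per
  intro L K c x hx hav
  by_contra h
  push Not at h
  have hone : ∀ t, g (c t) = 1 := by
    intro t
    by_contra ht
    have hbt : g (c t) b ≠ b := by
      rcases hb (c t) with h1 | h1
      · exact absurd h1 ht
      · exact h1
    apply hbt
    have e1 := hx.hq t
    have e2 : x (t + 1 + L) = dS g (x (t + L)) (c t) := by
      rw [show t + 1 + L = t + L + 1 by omega, hx.hq, hx.hc]
    have h5 : dS g b (c t) = b := by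
      refine third b (x t) (x (t + L)) (x (t + 1)) (x (t + 1 + L)) (dS g b (c t)) (h t).symm
        (hav _) (hav _) (h (t + 1)).symm (hav _) (hav _) ?_ ?_
      · rw [e1]
        intro h5
        exact hav t (dS_inj g (c t) h5).symm
      · rw [e2]
        intro h5
        exact hav (t + L) (dS_inj g (c t) h5).symm
    have h6 : (g (c t))⁻¹ b = b := h5
    rw [Equiv.Perm.inv_eq_iff_eq] at h6
    exact h6.symm
  have hconst : ∀ n, x (0 + n) = x 0 := by
    intro n
    induction n with
    | zero => rfl
    | succ n ih =>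
      rw [← add_assoc, hx.hq, ih, dS, hone]
      simp
  exact h 0 (hconst L)

theorem T_er (p i : Fin 3) (y : {a : α // g a ≠ 1}) (w : List α) :
    T g p i y.1 w = T (fun a : {a : α // g a ≠ 1} => g a.1) p i y (er (fun a => g a ≠ 1) w) := by
  induction w generalizing p with
  | nil => rfl
  | cons c w ih =>
    rw [← List.singleton_append, er_append]
    unfold T at ih ⊢
    by_cases hc : g c ≠ 1
    · rw [er_pos (fun a => g a ≠ 1) hc, List.singleton_append, List.singleton_append, tc, tc, ih]
      congr 1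
      apply iv_congr
      constructor
      · rintro ⟨h1, h2⟩
        exact ⟨h1, Subtype.ext h2⟩
      · rintro ⟨h1, h2⟩
        exact ⟨h1, congrArg Subtype.val h2⟩
    · rw [er_neg (fun a => g a ≠ 1) hc, List.singleton_append, List.nil_append, tc]
      rw [not_not] at hc
      have h1 : dS g p c = p := by
        unfold dS
        rw [hc]; simp
      rw [h1, ih, iv_neg, zero_add]
      rintro ⟨_, h2⟩
      exact y.2 (by rw [← h2]; exact hc)

/-- two points are fixed by no nontrivial letter -/
theorem Ct_B {b b' : Fin 3} (hbb : b ≠ b') (hb : ∀ a, g a = 1 ∨ g a b ≠ b)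
    (hb' : ∀ a, g a = 1 ∨ g a b' ≠ b') (p i : Fin 3) (y : α) : Ct (T g p i y) := by
  by_cases hy : g y = 1
  · have h1 : ∀ b, (∀ a, g a = 1 ∨ g a b ≠ b) → Ct (T g p b y) := by
      intro b hb
      refine Ct_stay (cfb' g hb) ?_ p
      unfold dS
      rw [hy]; simp
    exact T_third g hbb (h1 b hb) (h1 b' hb') i
  · have h1 := Ct_A (fun a : {a : α // g a ≠ 1} => g a.1) (b := b) (fun a => by
      rcases hb a.1 with h | h
      · exact absurd h a.2
      · exact h) p i ⟨y, hy⟩
    exact Ct.congr (Ct_er _ h1) fun w => (T_er g p i ⟨y, hy⟩ w).symm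

/-- the condition on the letters -/
def Adm : Prop := (∃ b, ∀ a, g a b ≠ b) ∨
  ∃ b b', b ≠ b' ∧ ∀ a, g a = 1 ∨ (g a b ≠ b ∧ g a b' ≠ b')

theorem Ct_T (h : Adm g) (p i : Fin 3) (y : α) : Ct (T g p i y) := by
  rcases h with ⟨b, hb⟩ | ⟨b, b', hbb, hb⟩
  · exact Ct_A g hb p i y
  · refine Ct_B g hbb (fun a => ?_) (fun a => ?_) p i y
    · rcases hb a with h | h
      · exact Or.inl h
      · exact Or.inr h.1
    · rcases hb a with h | h
      · exact Or.inl h
      · exact Or.inr h.2

theorem HS_T (h : Adm g) (p i : Fin 3) : HS 1 {w : List α | w.foldl (dS g) p = i} := by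
  rcases h with ⟨b, hb⟩ | ⟨b, b', hbb, hb⟩
  · exact run1 (cfb' g fun a => Or.inr (hb a)) p i
  · refine run1 (cfb' g (b := b) fun a => ?_) p i
    rcases hb a with h | h
    · exact Or.inl h
    · exact Or.inr h.1

end perm

end Pool.Agent.TH733.GSH.S3
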