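import Pool.Agent.H815R3.GSH.Nil3

/-! Walks with steps `-1`, `0`, `1` modulo `M` with a memory of the first letters by which the
levels have been entered since the last visit of the level `0`. -/

set_option autoImplicit false
set_option linter.unusedSectionVars false

namespace Pool.Agent.TH733.GSH

open Pool.Agent.H936R2.SH Pool.Agent.H815R3.GSH

section general

variable {Q α : Type} (δ : Q → α → Q) (b : Q)

theorem Nv_app (u v : List α) (p : Q) :
    Nv δ b p (u ++ v) ↔ Nv δ b p u ∧ Nv δ b (u.foldl δ p) v := by
  induction u generalizing p with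
  | nil => simp [Nv]
  | cons a u ih =>
    simp only [List.cons_append, Nv, List.foldl_cons, ih, and_assoc]

theorem Nv_ne (u : List α) (p : Q) (h : Nv δ b p u) (hu : u ≠ []) : u.foldl δ p ≠ b := by
  rcases List.eq_nil_or_concat u with rfl | ⟨v, c, rfl⟩
  · exact absurd rfl hu
  · rw [List.concat_eq_append, Nv_app] at h
    rw [List.concat_eq_append, List.foldl_append]
    exact h.2.1

theorem Nv_iter (w : List α) (p : Q) (h : Nv δ b p w) (hp : w.foldl δ p = p) (n : ℕ) :
    Nv δ b p (List.replicate n w).flatten ∧ (List.replicate n w).flatten.foldl δ p = p := by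
  induction n with
  | zero => exact ⟨trivial, rfl⟩
  | succ n ih =>
    rw [List.replicate_succ, List.flatten_cons, Nv_app, List.foldl_append, hp]
    exact ⟨⟨h, ih.1⟩, ih.2⟩

theorem pow_succ_left (k : ℕ) (hk : 0 < k) (u : List α) :
    (List.replicate k u).flatten = u ++ (List.replicate (k - 1) u).flatten := by
  obtain ⟨k, rfl⟩ : ∃ k', k = k' + 1 := ⟨k - 1, by omega⟩
  rw [List.replicate_succ, List.flatten_cons]; simp

theorem pow_succ_right (k : ℕ) (hk : 0 < k) (u : List α) :
    (List.replicate k u).flatten = (List.replicate (k - 1) u).flatten ++ u := by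
  obtain ⟨k, rfl⟩ : ∃ k', k = k' + 1 := ⟨k - 1, by omega⟩
  rw [List.replicate_succ']; simp

theorem pow_comm_left (k : ℕ) (u : List α) :
    u ++ (List.replicate k u).flatten = (List.replicate k u).flatten ++ u := by
  have h1 := pow_succ_left (k + 1) (by omega) u
  have h2 := pow_succ_right (k + 1) (by omega) u
  simp only [Nat.add_sub_cancel] at h1 h2
  rw [← h1, ← h2]

theorem rot_one (k : ℕ) (a : α) (u t : List α)
    (h : (List.replicate k (a :: u)).flatten = a :: t) :
    t ++ [a] = (List.replicate k (u ++ [a])).flatten := by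
  have key : ∀ k, (List.replicate k (a :: u)).flatten ++ [a] =
      a :: (List.replicate k (u ++ [a])).flatten := by
    intro k
    induction k with
    | zero => rfl
    | succ k ih =>
      rw [List.replicate_succ, List.flatten_cons, List.append_assoc, ih, List.replicate_succ,
        List.flatten_cons]
      simp
  have h1 := key k
  rw [h, List.cons_append] at h1
  exact (List.cons.inj h1).2

end general

section walk

variable {α : Type} (σ : α → ℤ) (M : ℕ)

/-- the level of a word -/
def lv (w : List α) : ℤ := (w.map σ).sum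

theorem lv_nil : lv σ [] = 0 := rfl

theorem lv_cons (a : α) (w : List α) : lv σ (a :: w) = σ a + lv σ w := by simp [lv]

theorem lv_append (u v : List α) : lv σ (u ++ v) = lv σ u + lv σ v := by simp [lv]

theorem lv_snoc (u : List α) (a : α) : lv σ (u ++ [a]) = lv σ u + σ a := by simp [lv]

theorem lv_pow (k : ℕ) (u : List α) : lv σ (List.replicate k u).flatten = k * lv σ u := by
  induction k with
  | zero => simp [lv]
  | succ k ih =>
    rw [List.replicate_succ, List.flatten_cons, lv_append, ih]; push_cast; ring

theorem rot_pow (k : ℕ) (hk : 0 < k) (p s u : List α)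
    (h : (List.replicate k u).flatten = p ++ s) :
    ∃ u', s ++ p = (List.replicate k u').flatten ∧ lv σ u' = lv σ u := by
  induction p generalizing s u with
  | nil => exact ⟨u, by rw [h]; simp, rfl⟩
  | cons a p ih =>
    cases u with
    | nil => simp at h
    | cons c u =>
      have hc : c = a := by
        rw [pow_succ_left k hk] at h
        simp only [List.cons_append, List.cons.injEq] at h
        exact h.1
      subst hc
      have h1 := rot_one k c u (p ++ s) h
      obtain ⟨u', h2, h3⟩ := ih (s ++ [c]) (u ++ [c]) (by rw [← h1]; simp)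
      refine ⟨u', by rw [← h2]; simp, ?_⟩
      rw [h3, lv_append, lv_cons, lv_cons, lv_nil]; ring

/-- memories -/
abbrev Mem (α : Type) (M : ℕ) : Type := ZMod M → Option α

open Classical in
/-- the update of the memory -/
noncomputable def up (m : Mem α M) (i : ZMod M) (c : α) : Mem α M :=
  if m i = none then Function.update m i (some c) else m

theorem up_mono (m : Mem α M) (i : ZMod M) (c : α) (j : ZMod M) (h : m j ≠ none) :
    up M m i c j = m j := by
  unfold up
  split_ifs with h1
  · rw [Function.update_of_ne]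
    rintro rfl
    exact h h1
  · rfl

theorem up_self (m : Mem α M) (i : ZMod M) (c : α) : up M m i c i ≠ none := by
  unfold up
  split_ifs with h1
  · simp
  · exact h1

theorem up_some (m : Mem α M) (i : ZMod M) (c : α) (j : ZMod M) (c' : α)
    (h : up M m i c j = some c') : m j = some c' ∨ (c' = c ∧ j = i ∧ m i = none) := by
  unfold up at h
  split_ifs at h with h1
  · by_cases hj : j = i
    · subst hj
      rw [Function.update_self] at h
      right
      exact ⟨(Option.some.inj h).symm, rfl, h1⟩
    · rw [Function.update_of_ne hj] at h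
      exact Or.inl h
  · exact Or.inl h

theorem up_eq (m : Mem α M) (i : ZMod M) (c : α) (h : m i ≠ none) : up M m i c = m := by
  unfold up
  rw [if_neg h]

theorem up_none (m : Mem α M) (i : ZMod M) (c : α) (h : m i = none) : up M m i c i = some c := by
  unfold up
  rw [if_pos h, Function.update_self]

theorem up_ne (m : Mem α M) (i : ZMod M) (c : α) (j : ZMod M) (h : j ≠ i) :
    up M m i c j = m j := by
  unfold up
  split_ifs with h1
  · rw [Function.update_of_ne h]
  · rfl

open Classical in
/-- the walk with its memory -/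
noncomputable def dU (x : ZMod M × Mem α M) (c : α) : ZMod M × Mem α M :=
  if x.1 + ((σ c : ℤ) : ZMod M) = 0 then (0, fun _ => none)
  else (x.1 + ((σ c : ℤ) : ZMod M), up M x.2 (x.1 + ((σ c : ℤ) : ZMod M)) c)

theorem dU_fst (x : ZMod M × Mem α M) (c : α) :
    (dU σ M x c).1 = x.1 + ((σ c : ℤ) : ZMod M) := by
  unfold dU
  split_ifs with h
  · exact h.symm
  · rfl

theorem dU_zero (x : ZMod M × Mem α M) (c : α) (h : x.1 + ((σ c : ℤ) : ZMod M) = 0) :
    dU σ M x c = (0, fun _ => none) := by
  unfold dU
  rw [if_pos h]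

theorem dU_ne (x : ZMod M × Mem α M) (c : α) (h : x.1 + ((σ c : ℤ) : ZMod M) ≠ 0) :
    dU σ M x c = (x.1 + ((σ c : ℤ) : ZMod M), up M x.2 (x.1 + ((σ c : ℤ) : ZMod M)) c) := by
  unfold dU
  rw [if_neg h]

theorem run_fst (x : ZMod M × Mem α M) (w : List α) :
    (w.foldl (dU σ M) x).1 = x.1 + ((lv σ w : ℤ) : ZMod M) := by
  induction w using List.reverseRecOn with
  | nil => simp [lv_nil]
  | append_singleton w c ih =>
    rw [List.foldl_append, List.foldl_cons, List.foldl_nil, dU_fst, ih, lv_snoc]
    push_cast
    ring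

variable (gd : Mem α M → α → Prop)

open Classical in
/-- the walk with a flag for the good arrivals at the level `0` -/
noncomputable def dV (x : (ZMod M × Mem α M) × Bool) (c : α) : (ZMod M × Mem α M) × Bool :=
  (dU σ M x.1 c, decide ((dU σ M x.1 c).1 = 0 ∧ gd x.1.2 c))

/-- the base state -/
def bs : (ZMod M × Mem α M) × Bool := ((0, fun _ => none), false)

/-- the good state of level `0` -/
def zs : (ZMod M × Mem α M) × Bool := ((0, fun _ => none), true)

theorem runV_fst (x : (ZMod M × Mem α M) × Bool) (w : List α) :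
    (w.foldl (dV σ M gd) x).1 = w.foldl (dU σ M) x.1 := by
  induction w using List.reverseRecOn with
  | nil => rfl
  | append_singleton w c ih =>
    rw [List.foldl_append, List.foldl_cons, List.foldl_nil, List.foldl_append, List.foldl_cons,
      List.foldl_nil, ← ih]
    rfl

theorem level0 (x : (ZMod M × Mem α M) × Bool) (w : List α) (hw : w ≠ [])
    (h : Nv (dV σ M gd) (bs M) x w) (h0 : (w.foldl (dV σ M gd) x).1.1 = 0) :
    w.foldl (dV σ M gd) x = zs M := by
  have h1 := Nv_ne _ _ _ _ h hw
  rcases List.eq_nil_or_concat w with rfl | ⟨v, c, rfl⟩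
  · exact absurd rfl hw
  rw [List.concat_eq_append] at *
  rw [List.foldl_append, List.foldl_cons, List.foldl_nil] at h0 h1 ⊢
  set y := v.foldl (dV σ M gd) x with hy
  have h2 : (dV σ M gd y c).1 = (0, fun _ => none) := by
    have h3 : (dU σ M y.1 c).1 = 0 := h0
    rw [dU_fst] at h3
    exact dU_zero σ M y.1 c h3
  have h4 : dV σ M gd y c = ((0, fun _ => none), (dV σ M gd y c).2) := by
    rw [← h2]
  rw [h4] at h1 ⊢
  cases h5 : (dV σ M gd y c).2 with
  | true => rfl
  | false =>
    rw [h5] at h1
    exact absurd rfl h1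

theorem arr_good (x : (ZMod M × Mem α M) × Bool) (c : α)
    (h : dV σ M gd x c ≠ bs M) (h0 : x.1.1 + ((σ c : ℤ) : ZMod M) = 0) : gd x.1.2 c := by
  by_contra hg
  apply h
  have h1 : dU σ M x.1 c = (0, fun _ => none) := dU_zero σ M x.1 c h0
  unfold dV bs
  rw [h1]
  simp [hg]

variable (hs : ∀ a, σ a = 1 ∨ σ a = 0 ∨ σ a = -1)

include hs

theorem conf (X : ℤ) (h0 : 0 < X) (h1 : X < M) (w : List α)
    (h : ∀ p s, w = p ++ s → p ≠ [] → ((X + lv σ p : ℤ) : ZMod M) ≠ 0) :
    0 < X + lv σ w ∧ X + lv σ w < M := by
  induction w using List.reverseRecOn with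
  | nil => rw [lv_nil, add_zero]; exact ⟨h0, h1⟩
  | append_singleton w c ih =>
    have h2 := ih (fun p s hp hp' => h p (s ++ [c]) (by rw [hp]; simp) hp')
    have h3 := h (w ++ [c]) [] (by simp) (by simp)
    rw [lv_snoc] at h3 ⊢
    have h4 : X + (lv σ w + σ c) ≠ 0 := by
      intro h4
      apply h3
      rw [h4]; simp
    have h5 : X + (lv σ w + σ c) ≠ M := by
      intro h5
      apply h3
      rw [h5]; simp
    rcases hs c with h6 | h6 | h6 <;> rw [h6] at h4 h5 ⊢ <;> constructor <;> omega

omit hs in
theorem mono (x : ZMod M × Mem α M) (w : List α)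
    (h : ∀ p s, w = p ++ s → p ≠ [] → (p.foldl (dU σ M) x).1 ≠ 0) (j : ZMod M)
    (hj : x.2 j ≠ none) : (w.foldl (dU σ M) x).2 j = x.2 j := by
  induction w using List.reverseRecOn with
  | nil => rfl
  | append_singleton w c ih =>
    have h2 := ih (fun p s hp hp' => h p (s ++ [c]) (by rw [hp]; simp) hp')
    have h3 := h (w ++ [c]) [] (by simp) (by simp)
    rw [List.foldl_append, List.foldl_cons, List.foldl_nil] at h3 ⊢
    rw [dU_fst] at h3
    rw [dU_ne _ _ _ _ h3]
    simp only
    rw [up_mono _ _ _ _ _ (by rw [h2]; exact hj), h2]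

theorem CFb_dV [NeZero M]
    (H : ∀ (u : List α) (k : ℕ), 0 < k →
      (List.replicate k u).flatten.foldl (dV σ M gd) (zs M) = zs M →
      Nv (dV σ M gd) (bs M) (zs M) (List.replicate k u).flatten → ((lv σ u : ℤ) : ZMod M) = 0) :
    CFb (dV σ M gd) (bs M) := by
  intro q u k hk hit
  rw [foldl_pow, foldl_dl0] at hit
  obtain ⟨hA, hB⟩ := hit
  rw [foldl_dl0]
  have hW := pow_succ_left k hk u
  have hAu : Nv (dV σ M gd) (bs M) q u := by
    rw [hW, Nv_app] at hA
    exact hA.1
  refine ⟨hAu, ?_⟩
  by_cases hu : u = []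
  · subst hu; rfl
  set w := (List.replicate k u).flatten with hw
  have hwne : w ≠ [] := by
    rw [hW]
    intro h
    exact hu (List.append_eq_nil_iff.1 h).1
  by_cases hc : ∀ p s, w = p ++ s → p ≠ [] → (p.foldl (dU σ M) q.1).1 ≠ 0
  · -- the level `0` is never visited
    have hq : w.foldl (dU σ M) q.1 = q.1 := by rw [← runV_fst, hB]
    have hl0 : q.1.1 ≠ 0 := by
      have := hc w [] (by simp) hwne
      rwa [hq] at this
    have hval : ((q.1.1.val : ℕ) : ZMod M) = q.1.1 := ZMod.natCast_zmod_val _
    have hv0 : 0 < (q.1.1.val : ℤ) := by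
      have : q.1.1.val ≠ 0 := by
        intro h
        rw [ZMod.val_eq_zero] at h
        exact hl0 h
      omega
    have hv1 : (q.1.1.val : ℤ) < M := by exact_mod_cast ZMod.val_lt q.1.1
    have hcf := conf σ M hs (q.1.1.val : ℤ) hv0 hv1 w (fun p s hp hp' => by
      have := hc p s hp hp'
      rw [run_fst] at this
      push_cast
      rw [hval]
      exact this)
    have hkd : ((k * lv σ u : ℤ) : ZMod M) = 0 := by
      have h1 := run_fst σ M q.1 w
      rw [hq, hw, lv_pow] at h1
      have h2 : q.1.1 + ((k * lv σ u : ℤ) : ZMod M) = q.1.1 + 0 := by rw [← h1, add_zero]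
      exact add_left_cancel h2
    rw [hw, lv_pow] at hcf
    have hd0 : lv σ u = 0 := by
      rw [ZMod.intCast_zmod_eq_zero_iff_dvd] at hkd
      obtain ⟨e, he⟩ := hkd
      have he0 : e = 0 := by
        rw [he] at hcf
        by_contra hne
        rcases lt_or_gt_of_ne hne with h | h
        · have : (M : ℤ) * e ≤ M * (-1) := mul_le_mul_of_nonneg_left (by omega) (by omega)
          omega
        · have : (M : ℤ) * 1 ≤ M * e := mul_le_mul_of_nonneg_left (by omega) (by omega)
          omega
      rw [he0, mul_zero] at he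
      rcases mul_eq_zero.1 he with h | h
      · omega
      · exact h
    -- the level after `u`
    have hlu : (u.foldl (dU σ M) q.1).1 = q.1.1 := by rw [run_fst, hd0]; simp
    have hmem : (u.foldl (dU σ M) q.1).2 = q.1.2 := by
      funext j
      have m1 : q.1.2 j ≠ none → (u.foldl (dU σ M) q.1).2 j = q.1.2 j :=
        mono σ M q.1 u (fun p s hp hp' => hc p (s ++ (List.replicate (k - 1) u).flatten)
          (by rw [hW, hp]; simp) hp') j
      have m2 : (u.foldl (dU σ M) q.1).2 j ≠ none → q.1.2 j = (u.foldl (dU σ M) q.1).2 j := by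
        intro h
        have := mono σ M (u.foldl (dU σ M) q.1) (List.replicate (k - 1) u).flatten
          (fun p s hp hp' => by
            rw [← List.foldl_append]
            exact hc (u ++ p) s (by rw [hW, hp]; simp) (by
              intro h'
              exact hu (List.append_eq_nil_iff.1 h').1)) j h
        rw [← List.foldl_append, ← hW, hq] at this
        exact this
      by_cases h1 : q.1.2 j = none
      · by_cases h2 : (u.foldl (dU σ M) q.1).2 j = none
        · rw [h1, h2]
        · exact (m2 h2).symm
      · exact m1 h1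
    have hflag : ∀ (v : List α) (x : (ZMod M × Mem α M) × Bool), v ≠ [] →
        (v.foldl (dV σ M gd) x).1.1 ≠ 0 → (v.foldl (dV σ M gd) x).2 = false := by
      intro v x hv h
      rcases List.eq_nil_or_concat v with rfl | ⟨v', c, rfl⟩
      · exact absurd rfl hv
      rw [List.concat_eq_append, List.foldl_append, List.foldl_cons, List.foldl_nil] at h ⊢
      have h' : (dU σ M (v'.foldl (dV σ M gd) x).1 c).1 ≠ 0 := h
      generalize v'.foldl (dV σ M gd) x = y at h' ⊢
      unfold dV
      simp [h']
    have hqf : q.2 = false := by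
      have := hflag w q hwne (by rw [hB]; exact hl0)
      rwa [hB] at this
    have huf : (u.foldl (dV σ M gd) q).2 = false := by
      apply hflag u q hu
      rw [runV_fst, hlu]
      exact hl0
    apply Prod.ext
    · rw [runV_fst]
      exact Prod.ext hlu hmem
    · rw [huf, hqf]
  · -- the level `0` is visited
    push Not at hc
    obtain ⟨p, s, hps, hp, hp0⟩ := hc
    have hNps : Nv (dV σ M gd) (bs M) q (p ++ s) := by rw [← hps]; exact hA
    rw [Nv_app] at hNps
    have hz : p.foldl (dV σ M gd) q = zs M :=
      level0 σ M gd q p hp hNps.1 (by rw [runV_fst]; exact hp0)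
    rw [hz] at hNps
    have hsq : s.foldl (dV σ M gd) (zs M) = q := by
      rw [← hz, ← List.foldl_append, ← hps, hB]
    obtain ⟨u', hu', hlu'⟩ := rot_pow σ k hk p s u (by rw [← hps])
    have hd : ((lv σ u : ℤ) : ZMod M) = 0 := by
      rw [← hlu']
      apply H u' k hk
      · rw [← hu', List.foldl_append, hsq, hz]
      · rw [← hu', Nv_app, hsq]
        exact ⟨hNps.2, hNps.1⟩
    have hcomm : w ++ u = u ++ w := (pow_comm_left k u).symm
    have hN2 : Nv (dV σ M gd) (bs M) q (u ++ p) := by
      have h1 : Nv (dV σ M gd) (bs M) q (w ++ u) := by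
        rw [Nv_app, hB]
        exact ⟨hA, hAu⟩
      rw [hcomm, hps, ← List.append_assoc, Nv_app] at h1
      exact h1.1
    have hz2 : (u ++ p).foldl (dV σ M gd) q = zs M := by
      apply level0 σ M gd q _ _ hN2
      · rw [runV_fst, run_fst, lv_append]
        rw [run_fst] at hp0
        push_cast
        rw [hd, zero_add]
        exact hp0
      · intro h
        exact hp (List.append_eq_nil_iff.1 h).2
    calc u.foldl (dV σ M gd) q = (w ++ u).foldl (dV σ M gd) q := by
          rw [List.foldl_append, hB]
      _ = ((u ++ p) ++ s).foldl (dV σ M gd) q := by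
          rw [hcomm, hps, List.append_assoc]
      _ = q := by rw [List.foldl_append, hz2, hsq]

end walk

end Pool.Agent.TH733.GSH
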