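import Pool.Agent.TH733.GSH.Arr

/-! Sums over the positions of a letter of functions of the level of a walk with steps `-1`, `0`,
`1`. -/

set_option autoImplicit false
set_option linter.unusedSectionVars false

namespace Pool.Agent.TH733.GSH

open Pool.Agent.H936R2.SH Pool.Agent.H815R3.GSH

section pattern

variable {α : Type} (σ : α → ℤ) (M : ℕ)

/-- the ends of the laps with the pattern `B` -/
def EB (B : ZMod M → α) (u : List α) : Prop := Ar σ M (gB M B) (0, fun _ => none) u

theorem EB_unique (B B' : ZMod M → α) (u : List α) (h : EB σ M B u) (h' : EB σ M B' u) :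
    B = B' := by
  obtain ⟨u1, c1, h1, h2, h3, h4⟩ := h
  obtain ⟨u2, c2, h5, h6, h7, h8⟩ := h'
  rw [h1] at h5
  have h9 := List.append_inj' h5 rfl
  have h10 : c1 = c2 := by simpa using h9.2
  funext j
  by_cases hj : j = 0
  · rw [hj, ← h3, ← h7, h10]
  · have h11 := h4 j hj
    have h12 := h8 j hj
    rw [h9.1, h12] at h11
    exact (Option.some.inj h11).symm

theorem E3_iff (x : α) (s : ZMod M) (u : List α) :
    E3 σ M x s u ↔ ∃ B : ZMod M → α, ((∀ j, σ (B j) = 1) ∧ B s = x) ∧ EB σ M B u := by
  classical
  constructor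
  · rintro ⟨u', c, h1, h2, ⟨h3, h4⟩, h5⟩
    refine ⟨fun j => if hj : j = 0 then c else (h4 j hj).choose, ⟨?_, ?_⟩, u', c, h1, h2, ?_, ?_⟩
    · intro j
      by_cases hj : j = 0
      · simp only [hj, dif_pos]; exact h3
      · simp only [hj, dif_neg, not_false_eq_true]
        exact (h4 j hj).choose_spec.2
    · by_cases hj : s = 0
      · simp only [pt, hj, if_true, Option.some.injEq] at h5
        simp only [hj, dif_pos]; exact h5
      · simp only [pt, hj, if_false] at h5
        simp only [hj, dif_neg, not_false_eq_true]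
        have h6 := (h4 s hj).choose_spec.1
        exact Option.some.inj (h6.symm.trans h5)
    · simp
    · intro j hj
      simp only [hj, dif_neg, not_false_eq_true]
      exact (h4 j hj).choose_spec.1
  · rintro ⟨B, ⟨h1, h2⟩, u', c, h3, h4, h5, h6⟩
    refine ⟨u', c, h3, h4, ⟨by rw [h5]; exact h1 0, fun j hj => ⟨_, h6 j hj, h1 j⟩⟩, ?_⟩
    unfold pt
    by_cases hj : s = 0
    · rw [if_pos hj, h5, ← h2, hj]
    · rw [if_neg hj, h6 s hj, h2]

open Classical in
theorem pc_E3 [Fintype (ZMod M → α)] (x : α) (s : ZMod M) (w : List α) :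
    pc (E3 σ M x s) w = ∑ B : ZMod M → α,
      (if (∀ j, σ (B j) = 1) ∧ B s = x then 1 else 0) * pc (EB σ M B) w := by
  apply pc_fib
  intro u
  by_cases h : E3 σ M x s u
  · rw [if_pos h]
    obtain ⟨B, h1, h2⟩ := (E3_iff σ M x s u).1 h
    rw [Finset.sum_eq_single B]
    · rw [if_pos h1, if_pos h2, one_mul]
    · intro B' _ hne
      rw [if_neg (fun h3 => hne (EB_unique σ M B' B u h3 h2)), mul_zero]
    · intro h'; exact absurd (Finset.mem_univ _) h'
  · rw [if_neg h]
    symm
    apply Finset.sum_eq_zero
    intro B _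
    by_cases h1 : (∀ j, σ (B j) = 1) ∧ B s = x
    · by_cases h2 : EB σ M B u
      · exact absurd ((E3_iff σ M x s u).2 ⟨B, h1, h2⟩) h
      · rw [if_neg h2, mul_zero]
    · rw [if_neg h1, zero_mul]

/-- averaging operator -/
def Nn [NeZero M] (e : ZMod M) (f : ZMod M → ℤ) (s : ZMod M) : ℤ := ∑ i : ZMod M, f (s + i * e)

variable {M}

theorem inv_all {X : Type} (f : ZMod M → X) (e : ZMod M) [NeZero M] (h : ∀ s, f (s + e) = f s)
    (i s : ZMod M) : f (s + i * e) = f s := by
  have key : ∀ n : ℕ, f (s + (n : ZMod M) * e) = f s := by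
    intro n
    induction n with
    | zero => simp
    | succ n ih =>
      rw [← ih, ← h (s + n * e)]
      congr 1
      push_cast; ring
  have := key i.val
  rwa [ZMod.natCast_zmod_val] at this

variable [NeZero M]

theorem Nn_inv (e : ZMod M) (f : ZMod M → ℤ) (s : ZMod M) : Nn M e f (s + e) = Nn M e f s := by
  unfold Nn
  rw [← Equiv.sum_comp (Equiv.addRight (1 : ZMod M)) (fun i => f (s + i * e))]
  apply Finset.sum_congr rfl
  intro i _
  congr 1
  simp only [Equiv.coe_addRight]
  ring

theorem Nn_comm (e e' : ZMod M) (f : ZMod M → ℤ) (s : ZMod M) :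
    Nn M e (Nn M e' f) s = Nn M e' (Nn M e f) s := by
  unfold Nn
  rw [Finset.sum_comm]
  apply Finset.sum_congr rfl
  intro i _
  apply Finset.sum_congr rfl
  intro j _
  congr 1
  ring

theorem Nn_Nn (e : ZMod M) (f : ZMod M → ℤ) (s : ZMod M) :
    Nn M e (Nn M e f) s = M * Nn M e f s := by
  have h1 : ∀ i : ZMod M, Nn M e f (s + i * e) = Nn M e f s :=
    fun i => inv_all (Nn M e f) e (Nn_inv e f) i s
  have : Nn M e (Nn M e f) s = ∑ i : ZMod M, Nn M e f (s + i * e) := rfl
  rw [this]
  simp only [h1, Finset.sum_const, Finset.card_univ, ZMod.card, nsmul_eq_mul]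

theorem Nn_sub (e : ZMod M) (f g : ZMod M → ℤ) (c : ℤ) (s : ZMod M) :
    Nn M e (fun s => c * f s - g s) s = c * Nn M e f s - Nn M e g s := by
  unfold Nn
  rw [Finset.sum_sub_distrib, Finset.mul_sum]

/-- a periodic pattern has no weight -/
theorem weight_zero (x : α) (B : ZMod M → α) (e : ZMod M) (hB : ∀ j, B (j + e) = B j)
    (f : ZMod M → ℤ) (hf : ∀ s, Nn M e f s = 0) :
    ∑ s : ZMod M, f s * (open Classical in if B s = x then (1 : ℤ) else 0) = 0 := by
  classical
  have h1 : ∀ i : ZMod M, ∑ s : ZMod M, f s * (if B s = x then (1 : ℤ) else 0) =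
      ∑ s : ZMod M, f (s + i * e) * (if B s = x then (1 : ℤ) else 0) := by
    intro i
    rw [← Equiv.sum_comp (Equiv.addRight (i * e))]
    apply Finset.sum_congr rfl
    intro s _
    have h2 : B (s + i * e) = B s := inv_all B e hB i s
    change f (s + i * e) * _ = f (s + i * e) * _
    congr 1
    apply ite_iff
    change B (s + i * e) = x ↔ _
    rw [h2]
  have h2 : (M : ℤ) * ∑ s : ZMod M, f s * (if B s = x then (1 : ℤ) else 0) = 0 := by
    have h3 : ∑ i : ZMod M, ∑ s : ZMod M, f s * (if B s = x then (1 : ℤ) else 0) =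
        (M : ℤ) * ∑ s : ZMod M, f s * (if B s = x then (1 : ℤ) else 0) := by
      rw [Finset.sum_const, Finset.card_univ, ZMod.card, nsmul_eq_mul]
    rw [← h3, Finset.sum_congr rfl (fun i _ => h1 i), Finset.sum_comm]
    apply Finset.sum_eq_zero
    intro s _
    rw [← Finset.sum_mul]
    have := hf s
    unfold Nn at this
    rw [this, zero_mul]
  have hM : (M : ℤ) ≠ 0 := by exact_mod_cast NeZero.ne M
  rcases mul_eq_zero.1 h2 with h | h
  · exact absurd h hM
  · exact_mod_cast h

end pattern

section sums

variable {α : Type} [Finite α] (σ : α → ℤ) (hs : ∀ a, σ a = 1 ∨ σ a = 0 ∨ σ a = -1)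

include hs

theorem Ct_E3 {M : ℕ} [NeZero M] (x : α) (f : ZMod M → ℤ)
    (hf : ∀ e : ZMod M, e ≠ 0 → ∀ s, Nn M e f s = 0) :
    Ct (fun w => ∑ s : ZMod M, f s * pc (E3 σ M x s) w) := by
  classical
  have : Fintype α := Fintype.ofFinite α
  have h1 : ∀ w, ∑ s : ZMod M, f s * pc (E3 σ M x s) w =
      ∑ B : ZMod M → α, ((if ∀ j, σ (B j) = 1 then 1 else 0) *
        ∑ s : ZMod M, f s * (if B s = x then (1 : ℤ) else 0)) * pc (EB σ M B) w := by
    intro w
    simp only [pc_E3, Finset.mul_sum, Finset.sum_mul]
    rw [Finset.sum_comm]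
    apply Finset.sum_congr rfl
    intro B _
    apply Finset.sum_congr rfl
    intro s _
    by_cases h1 : ∀ j, σ (B j) = 1 <;> by_cases h2 : B s = x <;> simp [h1, h2]
  refine Ct.congr (Ct.sum Finset.univ (fun (B : ZMod M → α) w =>
    ((if ∀ j, σ (B j) = 1 then 1 else 0) *
        ∑ s : ZMod M, f s * (if B s = x then (1 : ℤ) else 0)) * pc (EB σ M B) w) ?_)
    (fun w => (h1 w).symm)
  intro B _
  by_cases hB : ∀ j, σ (B j) = 1
  · by_cases hp : ∀ e : ZMod M, (∀ j, B (j + e) = B j) → e = 0
    · apply Ct.smul
      apply Ct_Ar σ M _ hs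
      intro u k hk h2 h3
      rcases Nat.lt_or_ge M 2 with hM | hM
      · have hM1 : M = 1 := by
          have := NeZero.pos M
          omega
        subst hM1
        exact Subsingleton.elim _ _
      · exact H_B σ M B hs hM hB hp u k hk h2 h3
    · push Not at hp
      obtain ⟨e, he1, he2⟩ := hp
      refine (Ct.const 0).congr fun w => ?_
      have := weight_zero x B e he1 f (hf e he2)
      rw [this]; ring
  · refine (Ct.const 0).congr fun w => ?_
    rw [if_neg hB]; ring

omit [Finite α] hs in
open Classical in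
theorem Sy_arr {M : ℕ} [NeZero M] (x : α) (f : ZMod M → ℤ) (w : List α) :
    Sy (fun u => f ((lv σ u : ℤ) : ZMod M)) x w =
      ∑ s : ZMod M, f (s - ((σ x : ℤ) : ZMod M)) * pc (Aq σ M x s) w := by
  induction w using List.reverseRecOn with
  | nil =>
    rw [Sy_nil]
    symm
    apply Finset.sum_eq_zero
    intro s _
    rw [pc_nil, if_neg, mul_zero]
    rintro ⟨_, u', h⟩
    simp at h
  | append_singleton w c ih =>
    rw [Sy_snoc, ih]
    have e : ∀ s : ZMod M, pc (Aq σ M x s) (w ++ [c]) = pc (Aq σ M x s) w +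
        if ((lv σ w : ℤ) : ZMod M) + ((σ x : ℤ) : ZMod M) = s ∧ c = x then 1 else 0 := by
      intro s
      rw [pc_snoc]
      congr 1
      apply ite_iff
      unfold Aq
      rw [En_snoc, lv_snoc]
      constructor
      · rintro ⟨h1, rfl⟩
        refine ⟨?_, rfl⟩
        rw [← h1]; push_cast; rfl
      · rintro ⟨h1, rfl⟩
        refine ⟨?_, rfl⟩
        rw [← h1]; push_cast; rfl
    simp only [e, mul_add, Finset.sum_add_distrib]
    congr 1
    by_cases hc : c = x
    · subst hc
      simp only [and_true, if_true]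
      rw [Finset.sum_eq_single (((lv σ w : ℤ) : ZMod M) + ((σ c : ℤ) : ZMod M))]
      · simp
      · intro s _ hne
        rw [if_neg (fun h => hne h.symm), mul_zero]
      · intro h; exact absurd (Finset.mem_univ _) h
    · simp [hc]

theorem Ct_bal {M : ℕ} [NeZero M] (x : α) (hx : σ x = 1) (f : ZMod M → ℤ)
    (hf : ∀ e : ZMod M, e ≠ 0 → ∀ s, Nn M e f s = 0) :
    Ct (Sy (fun u => f ((lv σ u : ℤ) : ZMod M)) x) := by
  have h1 := fun s : ZMod M => split_pos σ M hs x hx s
  choose g hg1 hg2 using h1
  refine Ct.congr ((Ct.sum Finset.univ (fun (s : ZMod M) w => f (s - 1) * g s w)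
    (fun s _ => (hg1 s).smul _)).add (Ct_E3 σ hs x (fun s => f (s - 1)) ?_)) fun w => ?_
  · intro e he s
    rw [← hf e he (s - 1)]
    unfold Nn
    apply Finset.sum_congr rfl
    intro i _
    change f (s + i * e - 1) = f (s - 1 + i * e)
    congr 1
    ring
  · rw [Sy_arr, hx, ← Finset.sum_add_distrib]
    apply Finset.sum_congr rfl
    intro s _
    rw [hg2 s w]
    push_cast
    ring

theorem Ct_pos (x : α) (hx : σ x = 1) (M : ℕ) : ∀ [NeZero M] (f : ZMod M → ℤ),
    Ct (Sy (fun u => f ((lv σ u : ℤ) : ZMod M)) x) := by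
  induction M using Nat.strong_induction_on with
  | _ M ih =>
    intro _ f
    classical
    -- periodic functions
    have hper : ∀ (e : ZMod M) (f : ZMod M → ℤ), e ≠ 0 → (∀ s, f (s + e) = f s) →
        Ct (Sy (fun u => f ((lv σ u : ℤ) : ZMod M)) x) := by
      intro e f he hf
      have hMpos := NeZero.pos M
      set M' := Nat.gcd e.val M with hM'
      have hev : 0 < e.val := by
        have : e.val ≠ 0 := fun h => he ((ZMod.val_eq_zero e).1 h)
        omega
      have hM'lt : M' < M := lt_of_le_of_lt (Nat.gcd_le_left M hev) (ZMod.val_lt e)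
      have hM'pos : 0 < M' := Nat.gcd_pos_of_pos_left _ hev
      have : NeZero M' := ⟨hM'pos.ne'⟩
      have hbez : ((M' : ℕ) : ZMod M) = ((Nat.gcdA e.val M : ℤ) : ZMod M) * e := by
        have h1 := congrArg (fun z : ℤ => (z : ZMod M)) (Nat.gcd_eq_gcd_ab e.val M)
        push_cast at h1
        rw [ZMod.natCast_zmod_val] at h1
        rw [hM', h1]
        simp only [CharP.cast_eq_zero, zero_mul, add_zero]
        ring
      have hf' : ∀ s, f (s + ((M' : ℕ) : ZMod M)) = f s := by
        intro s
        rw [hbez]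
        exact inv_all f e hf _ s
      have h2 := ih M' hM'lt (fun r : ZMod M' => f ((r.val : ℕ) : ZMod M))
      refine h2.congr fun w => ?_
      apply Sy_congr
      intro u
      set r : ZMod M' := ((lv σ u : ℤ) : ZMod M') with hr
      have h3 : ((((r.val : ℕ) : ℤ) : ℤ) : ZMod M') = ((lv σ u : ℤ) : ZMod M') := by
        rw [Int.cast_natCast, ZMod.natCast_zmod_val]
      rw [ZMod.intCast_eq_intCast_iff_dvd_sub] at h3
      obtain ⟨t, ht⟩ := h3
      have h4 : lv σ u = ((r.val : ℕ) : ℤ) + t * M' := by linarith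
      rw [h4]
      push_cast
      exact (inv_all f _ hf' ((t : ℤ) : ZMod M) _).symm
    have key : ∀ (T : Finset (ZMod M)) (f : ZMod M → ℤ),
        (∀ e, e ≠ 0 → e ∉ T → ∀ s, Nn M e f s = 0) →
        Ct (Sy (fun u => f ((lv σ u : ℤ) : ZMod M)) x) := by
      intro T
      induction T using Finset.induction_on with
      | empty =>
        intro f hf
        exact Ct_bal σ hs x hx f (fun e he s => hf e he (by simp) s)
      | insert e T heT ihT =>
        intro f hf
        by_cases he : e = 0
        · apply ihT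
          intro e' he' heT' s
          apply hf e' he' _ s
          rw [Finset.mem_insert]
          rintro (h | h)
          · exact he' (by rw [h, he])
          · exact heT' h
        · apply Ct.div M (NeZero.pos M)
          have h1 := ihT (fun s => (M : ℤ) * f s - Nn M e f s) (by
            intro e' he' heT' s
            rw [Nn_sub]
            by_cases hee : e' = e
            · subst hee
              rw [Nn_Nn]; ring
            · have h2 : ∀ s, Nn M e' f s = 0 := fun s => hf e' he' (by
                rw [Finset.mem_insert]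
                rintro (h | h)
                · exact hee h
                · exact heT' h) s
              rw [h2, Nn_comm]
              have h3 : Nn M e (Nn M e' f) s = 0 := by
                unfold Nn at h2 ⊢
                apply Finset.sum_eq_zero
                intro i _
                exact h2 _
              rw [h3]; ring)
          have h2 := hper e (Nn M e f) he (Nn_inv e f)
          refine (h1.add h2).congr fun w => ?_
          rw [← Sy_smul]
          induction w using List.reverseRecOn with
          | nil => simp [Sy_nil]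
          | append_singleton w c ih =>
            rw [Sy_snoc, Sy_snoc, Sy_snoc, ← ih]
            by_cases hc : c = x
            · simp only [hc, if_true]; ring
            · simp only [hc, if_false]; ring
    exact key Finset.univ f (fun e _ h => absurd (Finset.mem_univ e) h)

theorem Ct_zer (x : α) (hx : σ x = 0) (M : ℕ) [NeZero M] (f : ZMod M → ℤ) :
    Ct (Sy (fun u => f ((lv σ u : ℤ) : ZMod M)) x) := by
  refine Ct.congr (Ct.sum Finset.univ (fun (s : ZMod M) w => f s *
    pc (fun u => Ar σ M (fun _ c => c = x) (-s, fun _ => none) u) w) fun s _ => Ct.smul _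
      (Ct_Ar σ M _ hs (H_R0 σ M _ hs ?_) _)) fun w => ?_
  · intro m c hc _ h
    rw [h, hx] at hc
    exact hc rfl
  · rw [Sy_arr, hx]
    apply Finset.sum_congr rfl
    intro s _
    rw [Int.cast_zero, sub_zero]
    congr 1
    apply pc_congr
    intro u
    rcases List.eq_nil_or_concat u with rfl | ⟨v, c, rfl⟩
    · constructor
      · intro h; exact absurd h (Ar_nil _ _ _ _)
      · rintro ⟨_, u', h⟩; simp at h
    · rw [List.concat_eq_append, Ar_snoc, neg_add_eq_zero]
      unfold Aq
      rw [En_snoc, lv_snoc]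
      exact and_congr_left' eq_comm

/-- **Walks with steps `-1`, `0`, `1`.** -/
theorem Ct_walk (x : α) (M : ℕ) [NeZero M] (f : ZMod M → ℤ) :
    Ct (Sy (fun u => f ((lv σ u : ℤ) : ZMod M)) x) := by
  rcases hs x with hx | hx | hx
  · exact Ct_pos σ hs x hx M f
  · exact Ct_zer σ hs x hx M f
  · have h1 := Ct_pos (fun a => - σ a) (fun a => by
      rcases hs a with h | h | h
      · right; right; simp only [h]
      · right; left; simp only [h]; norm_num
      · left; simp only [h]; norm_num) x (by simp only [hx]; norm_num) M (fun r => f (-r))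
    refine h1.congr fun w => ?_
    apply Sy_congr
    intro u
    congr 1
    have : lv (fun a => - σ a) u = - lv σ u := by
      unfold lv
      induction u with
      | nil => simp
      | cons a u ih => simp only [List.map_cons, List.sum_cons, ih]; ring
    rw [this]
    push_cast
    ring

omit [Finite α] hs in
theorem Sy_mod (M : ℕ) (F F' : List α → ℤ) (h : ∀ u, ((F u : ℤ) : ZMod M) = (F' u : ℤ)) (x : α)
    (w : List α) : ((Sy F x w : ℤ) : ZMod M) = (Sy F' x w : ℤ) := by
  classical
  induction w using List.reverseRecOn with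
  | nil => rw [Sy_nil, Sy_nil]
  | append_singleton w c ih =>
    rw [Sy_snoc, Sy_snoc]
    push_cast
    rw [ih]
    congr 1
    by_cases hc : c = x
    · simp only [hc, if_true]; exact h w
    · simp only [hc, if_false]

/-- functions of the level compatible with the congruences, for example polynomials -/
theorem Ct_level (x : α) (h : ℤ → ℤ)
    (hh : ∀ (M : ℕ) (a b : ℤ), (a : ZMod M) = b → ((h a : ℤ) : ZMod M) = (h b : ℤ)) :
    Ct (Sy (fun u => h (lv σ u)) x) := by
  apply Ct.approx
  intro M hM
  have : NeZero M := ⟨hM.ne'⟩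
  refine ⟨_, Ct_walk σ hs x M (fun r => h ((r.val : ℕ) : ℤ)), fun w => ?_⟩
  apply Sy_mod
  intro u
  apply hh
  rw [Int.cast_natCast, ZMod.natCast_zmod_val]

end sums

end Pool.Agent.TH733.GSH
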